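import Mathlib
import Pool.Agent.H383.Gen

open MeasureTheory Set Filter Topology
open Pool.Agent.H383
open Pool.Agent.H383.AP Pool.Agent.H383.Gauss

namespace Pool.Agent.H452R2.Win

open Classical in
/-- positive density from correlation, with an explicit constant -/
lemma dens_of_corr2 {e κ : ℕ → ℝ} {A B K : ℝ} (hA : 0 < A) (hB : 0 < B) (hK : 0 ≤ K)
    (hA' : ∀ N, rm (fun n => (e n)^2) N ≤ A) (hκ0 : ∀ n, 0 ≤ κ n) (hκB : ∀ n, κ n ≤ B)
    (hκ : ∃ N0, ∀ N, N0 ≤ N → rm κ N ≤ 2) (hc : ∃ N0, ∀ N, N0 ≤ N → 2 * K + 2 ≤ rm (fun n => e n * κ n) N) :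
    ∃ N0 : ℕ, ∀ N : ℕ, N0 ≤ N → 1 / (A * B^2) * N ≤ (((Finset.range N).filter (fun n => K < e n)).card : ℝ) := by
  obtain ⟨N1, h1⟩ := hκ
  obtain ⟨N2, h2⟩ := hc
  refine ⟨max N1 N2 + 1, ?_⟩
  intro N hN
  have a1 := h1 N (by omega)
  have a2 := h2 N (by omega)
  have hN0 : (0:ℝ) < N := by exact_mod_cast (by omega : 0 < N)
  set D : ℝ := (((Finset.range N).filter (fun n => K < e n)).card : ℝ) with hD
  have hpt : ∀ n, e n * κ n ≤ K * κ n + ((1/(2*A)) * (e n)^2 + (A * B^2/2) * (if K < e n then 1 else 0)) := by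
    intro n
    have k0 := hκ0 n
    have kB := hκB n
    have q1 : 0 ≤ (1/(2*A)) * (e n)^2 := by positivity
    split_ifs with h
    · have h3 : 0 ≤ (e n - A * B)^2 / (2 * A) := by positivity
      have h4 : (e n - A * B)^2 / (2 * A) = (1/(2*A)) * (e n)^2 - e n * B + A * B^2/2 := by
        field_simp; ring
      have h5 : e n * κ n ≤ e n * B := mul_le_mul_of_nonneg_left kB (by linarith)
      have h6 : 0 ≤ K * κ n := mul_nonneg hK k0
      linarith
    · push Not at h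
      have h5 : e n * κ n ≤ K * κ n := mul_le_mul_of_nonneg_right h k0
      linarith
  have h3 := rm_mono hpt N
  rw [rm_add (fun n => K * κ n) (fun n => (1/(2*A)) * (e n)^2 + (A * B^2/2) * (if K < e n then 1 else 0)), rm_mul,
    rm_add (fun n => (1/(2*A)) * (e n)^2) (fun n => (A * B^2/2) * (if K < e n then 1 else 0)), rm_mul, rm_mul] at h3
  have h4 : rm (fun n => if K < e n then (1:ℝ) else 0) N = D / N := by
    unfold rm
    rw [← Finset.sum_filter, Finset.sum_const, nsmul_eq_mul, mul_one]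
  rw [h4] at h3
  have h5 := hA' N
  have h6 : (1/(2*A)) * rm (fun n => (e n)^2) N ≤ 1/2 := by
    calc (1/(2*A)) * rm (fun n => (e n)^2) N ≤ (1/(2*A)) * A := mul_le_mul_of_nonneg_left h5 (by positivity)
      _ = 1/2 := by field_simp
  have h7 : K * rm κ N ≤ K * 2 := mul_le_mul_of_nonneg_left a1 hK
  have h8 : 3/2 ≤ (A * B^2/2) * (D / N) := by linarith
  rw [mul_div_assoc', le_div_iff₀ hN0] at h8
  rw [div_mul_eq_mul_div, div_le_iff₀ (by positivity)]
  nlinarith

/-- quantitative divergence of the prime coefficients -/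
def Dq (a : ℕ → ℝ) : Prop := ∃ C0 : ℝ, ∀ F : Finset ℕ, ∃ G0 : ℝ, ∀ G : ℝ, G0 ≤ G →
  ∃ Q : Finset ℕ, (∀ q ∈ Q, q.Prime) ∧ Disjoint F Q ∧ (Q.card : ℝ) ≤ C0 * G^4 * (Real.log G)^3 ∧ G ≤ ∑ q ∈ Q, a q

variable {a : ℕ → ℝ} {φ α X : ℝ} {e : ℕ → ℝ}

open Classical in
/-- large values of both signs, quantitative -/
theorem omega2 (h : Gen.Ap a φ e α X) (ha : Gen.Bd a) (ha0 : a 0 = 0) (hdq : Dq a) (hα : 0 < α) :
    ∃ C : ℝ, 0 < C ∧ ∀ σ : ℝ, (σ = 1 ∨ σ = -1) → ∀ K : ℝ, 2 ≤ K → 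
    ∃ N0 : ℕ, ∀ N : ℕ, N0 ≤ N →
      Real.exp (-(C * K^4 * (Real.log K)^3)) * N ≤ (((Finset.range N).filter (fun n : ℕ => K < σ * e n)).card : ℝ) := by
  obtain ⟨F, hF⟩ := exists_F α
  obtain ⟨C0, hdq⟩ := hdq
  obtain ⟨G0, hdq⟩ := hdq F
  obtain ⟨A, hA0, hA⟩ := h.b2.sq_bdd
  set Gs : ℝ := ∑' m, |Gen.rt a φ α X m| with hGs
  have hgs : Summable (fun m => |Gen.rt a φ α X m|) := (Gen.rt_summable ha ha0 hα X).abs
  have hGs0 : 0 ≤ Gs := tsum_nonneg (fun m => abs_nonneg _)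
  set c1 : ℝ := Gs + |G0| + 8 with hc1
  have hc10 : 8 ≤ c1 := by
    have := abs_nonneg G0
    linarith
  have hlog2 : 0 < Real.log 2 := Real.log_pos (by norm_num)
  set c2 : ℝ := Real.log c1 / Real.log 2 + 1 with hc2
  have hlc1 : 0 ≤ Real.log c1 := Real.log_nonneg (by linarith)
  have hc20 : 1 ≤ c2 := by
    have : 0 ≤ Real.log c1 / Real.log 2 := by positivity
    linarith
  set CA : ℝ := |Real.log (A + 1)| with hCA
  have hCA0 : 0 ≤ CA := abs_nonneg _
  refine ⟨CA / (16 * (Real.log 2)^3) + 2 * Real.log 2 * (|C0| * c1^4 * c2^3) + 1, by positivity, ?_⟩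
  intro σ hσ K hK
  have hK0 : 0 ≤ K := by linarith
  set G : ℝ := c1 * K with hG
  have hGG0 : G0 ≤ G := by
    have := le_abs_self G0
    have h1 : c1 * 1 ≤ c1 * K := mul_le_mul_of_nonneg_left (by linarith) (by linarith)
    rw [hG]; linarith
  obtain ⟨Q, hQ, hd, hcard, hGQ⟩ := hdq G hGG0
  have hGbig : 2 * (Gs + 2 * K + 4) ≤ G := by
    rw [hG, hc1]
    have := abs_nonneg G0
    nlinarith
  -- phase
  obtain ⟨ψ, hψ⟩ : ∃ ψ : ℝ, Real.cos (ψ - φ) = σ := by
    rcases hσ with rfl | rfl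
    · exact ⟨φ, by rw [sub_self, Real.cos_zero]⟩
    · exact ⟨φ + Real.pi, by rw [add_sub_cancel_left, Real.cos_pi]⟩
  have hσ2 : σ * σ = 1 := by rcases hσ with rfl | rfl <;> norm_num
  have hσabs : |σ| = 1 := by rcases hσ with rfl | rfl <;> simp
  set κ := Kr α X ψ Q with hκ
  set B : ℝ := 2 ^ Q.card with hB
  have hB0 : 0 < B := by positivity
  have hA1 : ∀ N, rm (fun n : ℕ => (σ * e n)^2) N ≤ A + 1 := by
    intro N
    have e : (fun n : ℕ => (σ * e n)^2) = fun n : ℕ => (e n)^2 := by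
      funext n; rw [mul_pow, sq σ, hσ2, one_mul]
    rw [e]; have := hA N; linarith
  have hconst : Real.exp (-((CA / (16 * (Real.log 2)^3) + 2 * Real.log 2 * (|C0| * c1^4 * c2^3) + 1) * K^4 * (Real.log K)^3)) ≤
      1 / ((A + 1) * B^2) := by
    have hlK : Real.log 2 ≤ Real.log K := Real.log_le_log (by norm_num) hK
    have hlK0 : 0 < Real.log K := by linarith
    have e1 : 1 / ((A + 1) * B^2) = Real.exp (-(Real.log (A + 1) + 2 * Q.card * Real.log 2)) := by
      rw [Real.exp_neg, Real.exp_add, Real.exp_log (by linarith), hB]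
      have : Real.exp (2 * (Q.card:ℝ) * Real.log 2) = ((2:ℝ) ^ Q.card)^2 := by
        rw [← pow_mul, mul_comm Q.card 2, mul_comm (2 * (Q.card:ℝ)) (Real.log 2), Real.exp_mul, Real.exp_log (by norm_num)]
        rw [← Real.rpow_natCast]; push_cast; rfl
      rw [this, one_div]
    rw [e1]
    apply Real.exp_le_exp.mpr
    apply neg_le_neg
    have h1 : Real.log (A + 1) ≤ CA := le_abs_self _
    have hK4 : (16:ℝ) ≤ K^4 := by
      calc (16:ℝ) = 2^4 := by norm_num
        _ ≤ K^4 := pow_le_pow_left₀ (by norm_num) hK 4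
    have hl3 : (Real.log 2)^3 ≤ (Real.log K)^3 := pow_le_pow_left₀ hlog2.le hlK 3
    have h2 : CA ≤ CA / (16 * (Real.log 2)^3) * K^4 * (Real.log K)^3 := by
      have h3 : 16 * (Real.log 2)^3 ≤ K^4 * (Real.log K)^3 := mul_le_mul hK4 hl3 (by positivity) (by positivity)
      calc CA = CA / (16 * (Real.log 2)^3) * (16 * (Real.log 2)^3) := by field_simp
        _ ≤ CA / (16 * (Real.log 2)^3) * (K^4 * (Real.log K)^3) := mul_le_mul_of_nonneg_left h3 (by positivity)
        _ = _ := by ring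
    have h4 : (Q.card : ℝ) ≤ |C0| * c1^4 * c2^3 * (K^4 * (Real.log K)^3) := by
      refine hcard.trans ?_
      have g1 : Real.log G ≤ c2 * Real.log K := by
        rw [hG, Real.log_mul (by linarith) (by linarith), hc2]
        have : Real.log c1 ≤ Real.log c1 / Real.log 2 * Real.log K := by
          rw [div_mul_eq_mul_div, le_div_iff₀ hlog2]
          exact mul_le_mul_of_nonneg_left hlK hlc1
        linarith
      have g0 : 0 ≤ Real.log G := Real.log_nonneg (by rw [hG]; nlinarith)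
      have g2 : (Real.log G)^3 ≤ (c2 * Real.log K)^3 := pow_le_pow_left₀ g0 g1 3
      have g3 : 0 ≤ G^4 := by positivity
      calc C0 * G^4 * (Real.log G)^3 ≤ |C0| * G^4 * (Real.log G)^3 := by
            apply mul_le_mul_of_nonneg_right _ (by positivity)
            exact mul_le_mul_of_nonneg_right (le_abs_self _) g3
        _ ≤ |C0| * G^4 * (c2 * Real.log K)^3 := mul_le_mul_of_nonneg_left g2 (by positivity)
        _ = _ := by rw [hG]; ring
    have h5 : 2 * (Q.card:ℝ) * Real.log 2 ≤ 2 * Real.log 2 * (|C0| * c1^4 * c2^3) * K^4 * (Real.log K)^3 := by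
      calc 2 * (Q.card:ℝ) * Real.log 2 = 2 * Real.log 2 * Q.card := by ring
        _ ≤ 2 * Real.log 2 * (|C0| * c1^4 * c2^3 * (K^4 * (Real.log K)^3)) := mul_le_mul_of_nonneg_left h4 (by positivity)
        _ = _ := by ring
    have h6 : 0 ≤ 1 * K^4 * (Real.log K)^3 := by positivity
    have e2 : (CA / (16 * (Real.log 2)^3) + 2 * Real.log 2 * (|C0| * c1^4 * c2^3) + 1) * K^4 * (Real.log K)^3 =
        CA / (16 * (Real.log 2)^3) * K^4 * (Real.log K)^3 + 2 * Real.log 2 * (|C0| * c1^4 * c2^3) * K^4 * (Real.log K)^3 +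
        1 * K^4 * (Real.log K)^3 := by ring
    rw [e2]
    linarith
  suffices hmain : ∃ N0 : ℕ, ∀ N : ℕ, N0 ≤ N → 1 / ((A + 1) * B^2) * N ≤
      (((Finset.range N).filter (fun n : ℕ => K < σ * e n)).card : ℝ) by
    obtain ⟨N0, hN0⟩ := hmain
    refine ⟨N0, fun N hN => ?_⟩
    exact (mul_le_mul_of_nonneg_right hconst (Nat.cast_nonneg N)).trans (hN0 N hN)
  apply dens_of_corr2 (A := A + 1) (B := B) (by linarith) hB0 hK0 hA1 (Kr_nonneg α X ψ Q) (Kr_le α X ψ Q)
  · -- mean of κ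
    have h1 : HasMean (fun n : ℕ => ((κ n : ℝ) : ℂ)) 1 := by
      have h2 := Trig_hasMean (Kp_trig α X ψ Q)
      have h3 : mn (Kp α X ψ Q) = 1 := by
        have := kk_zero_zero (X := X) (φ := ψ) hα hF hQ hd
        unfold kk at this
        rw [chr_zero, one_mul] at this
        exact this
      rw [h3] at h2
      have e : Kp α X ψ Q = fun n : ℕ => ((κ n : ℝ) : ℂ) := by funext n; exact Kp_real α X ψ Q n
      rw [← e]; exact h2
    unfold HasMean at h1
    have e : cm (fun n : ℕ => ((κ n : ℝ) : ℂ)) = fun N => ((rm κ N : ℝ) : ℂ) := by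
      funext N; exact cm_ofReal _ N
    rw [e] at h1
    have h4 := (Complex.continuous_re.tendsto _).comp h1
    rw [Complex.one_re] at h4
    have h5 : Tendsto (rm κ) atTop (𝓝 1) := h4
    have h6 := h5.eventually (gt_mem_nhds (by norm_num : (1:ℝ) < 2))
    rw [eventually_atTop] at h6
    obtain ⟨N0, hN0⟩ := h6
    exact ⟨N0, fun N hN => (hN0 N hN).le⟩
  · -- correlation
    set η : ℝ := (1/(2*B))^2 with hη
    have hη0 : 0 < η := by positivity
    obtain ⟨M0, hM0⟩ := h η hη0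
    have hmax : ∀ᶠ M : ℕ in atTop, ∀ q ∈ Q, q ≤ M^2 := by
      filter_upwards [eventually_ge_atTop (Q.sup id + 1)] with M hM q hq
      have h2 : q ≤ Q.sup id := Finset.le_sup (f := id) hq
      nlinarith
    obtain ⟨M, hM1, hM3⟩ := ((eventually_ge_atTop M0).and hmax).exists
    obtain ⟨N1, hN1⟩ := hM0 M hM1
    have hcorr := Gen.U_corr (a := a) (φ := φ) (X := X) (ψ := ψ) hα hF hQ hd hM3
    unfold HasMean at hcorr
    have e' : cm (fun n : ℕ => ((Gen.U a φ (X + n * α) M * Kr α X ψ Q n : ℝ) : ℂ)) =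
        fun N => ((rm (fun n : ℕ => Gen.U a φ (X + n * α) M * Kr α X ψ Q n) N : ℝ) : ℂ) := by
      funext N; exact cm_ofReal _ N
    rw [e'] at hcorr
    have h4 := (Complex.continuous_re.tendsto _).comp hcorr
    rw [Complex.ofReal_re] at h4
    have h5 : Tendsto (rm (fun n : ℕ => Gen.U a φ (X + n * α) M * κ n)) atTop
        (𝓝 (∑ m ∈ Finset.Icc 1 (M^2), Gen.rt a φ α X m + (1/2) * Real.cos (ψ - φ) * ∑ q ∈ Q, a q)) := h4
    rw [hψ] at h5
    have h6 := h5.const_mul σ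
    have hgsum : |∑ m ∈ Finset.Icc 1 (M^2), Gen.rt a φ α X m| ≤ Gs := by
      refine (Finset.abs_sum_le_sum_abs _ _).trans ?_
      exact hgs.sum_le_tsum _ (fun m _ => abs_nonneg _)
    have h7 : 2 * K + 7/2 < σ * (∑ m ∈ Finset.Icc 1 (M^2), Gen.rt a φ α X m + (1/2) * σ * ∑ q ∈ Q, a q) := by
      have h8 : -Gs ≤ σ * ∑ m ∈ Finset.Icc 1 (M^2), Gen.rt a φ α X m := by
        have h9 : |σ * ∑ m ∈ Finset.Icc 1 (M^2), Gen.rt a φ α X m| ≤ Gs := by
          rw [abs_mul, hσabs, one_mul]; exact hgsum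
        exact (abs_le.mp h9).1
      have h10 : σ * (∑ m ∈ Finset.Icc 1 (M^2), Gen.rt a φ α X m + (1/2) * σ * ∑ q ∈ Q, a q) =
          σ * ∑ m ∈ Finset.Icc 1 (M^2), Gen.rt a φ α X m + (1/2) * (σ * σ) * ∑ q ∈ Q, a q := by ring
      rw [h10, hσ2]
      linarith
    have h11 := h6.eventually (lt_mem_nhds h7)
    rw [eventually_atTop] at h11
    obtain ⟨N2, hN2⟩ := h11
    refine ⟨max N1 N2, ?_⟩
    intro N hN
    have b1 := hN1 N (by omega)
    have b2 := hN2 N (by omega)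
    have b3 : rm (fun n : ℕ => |e n - Gen.U a φ (X + n * α) M|) N ≤ 1/(2*B) := by
      apply rm_abs_le (by positivity)
      exact b1
    have b4 : σ * rm (fun n : ℕ => Gen.U a φ (X + n * α) M * κ n) N ≤
        rm (fun n : ℕ => σ * e n * κ n) N + B * rm (fun n : ℕ => |e n - Gen.U a φ (X + n * α) M|) N := by
      rw [← rm_mul, ← rm_mul, ← rm_add]
      apply rm_mono
      intro n
      have c1 := Kr_nonneg α X ψ Q n
      have c2 := Kr_le α X ψ Q n
      have c3 : σ * (Gen.U a φ (X + n * α) M * κ n) - σ * e n * κ n ≤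
          B * |e n - Gen.U a φ (X + n * α) M| := by
        have c4 : σ * (Gen.U a φ (X + n * α) M * κ n) - σ * e n * κ n =
            (-σ * (e n - Gen.U a φ (X + n * α) M)) * κ n := by ring
        rw [c4]
        refine (le_abs_self _).trans ?_
        rw [abs_mul, abs_mul, abs_neg, hσabs, one_mul, abs_of_nonneg c1, mul_comm]
        exact mul_le_mul_of_nonneg_right c2 (abs_nonneg _)
      linarith
    have b5 : B * rm (fun n : ℕ => |e n - Gen.U a φ (X + n * α) M|) N ≤ 1/2 := by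
      calc _ ≤ B * (1/(2*B)) := mul_le_mul_of_nonneg_left b3 hB0.le
        _ = 1/2 := by field_simp
    linarith

end Pool.Agent.H452R2.Win
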