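import Mathlib
import Pool.Agent.H383.Short

open Set Filter Topology
open Pool.Agent.H383.Gauss

namespace Pool.Agent.H452R2.Win

open Classical in
/-- cell counting : a finite set of naturals in an interval of length `H`, cells of length `A` -/
lemma cell_count (S : Finset ℕ) (a H A : ℕ) (hA : 1 ≤ A) (hS : ∀ x ∈ S, a ≤ x ∧ x < a + H) {P : ℝ}
    (hP : ∑ h ∈ Finset.Icc 1 A, ((S.filter (fun x => x + h ∈ S)).card : ℝ) ≤ P) :
    (S.card : ℝ)^2 ≤ ((H:ℝ)/A + 1)^2 + 4 * ((H:ℝ)/A + 1) * P := by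
  have hA' : (1:ℝ) ≤ A := by exact_mod_cast hA
  have hA0 : (0:ℝ) < A := by linarith
  set n : ℝ := (S.card : ℝ) with hn
  set K : ℝ := (H:ℝ)/A + 1 with hK
  have hK0 : 0 ≤ K := by positivity
  set T := Finset.range (H/A + 1) with hT
  have hmaps : ∀ x ∈ S, (fun x : ℕ => (x - a)/A) x ∈ T := by
    intro x hx
    rw [hT, Finset.mem_range, Nat.lt_succ_iff]
    apply Nat.div_le_div_right
    have := hS x hx
    omega
  have hTc : (T.card : ℝ) ≤ K := by
    rw [hT, Finset.card_range, hK]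
    push_cast
    have := Nat.cast_div_le (α := ℝ) (m := H) (n := A)
    linarith
  have h1 : n = ∑ c ∈ T, ((S.filter (fun x : ℕ => (x - a)/A = c)).card : ℝ) := by
    rw [hn, Finset.card_eq_sum_card_fiberwise hmaps]
    push_cast; rfl
  have h2 : n^2 ≤ K * ∑ c ∈ T, ((S.filter (fun x : ℕ => (x - a)/A = c)).card : ℝ)^2 := by
    rw [h1]
    refine (sq_sum_le_card_mul_sum_sq).trans ?_
    apply mul_le_mul_of_nonneg_right hTc
    exact Finset.sum_nonneg (fun _ _ => sq_nonneg _)
  -- expand the squares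
  have h3 : ∑ c ∈ T, ((S.filter (fun x : ℕ => (x - a)/A = c)).card : ℝ)^2 =
      ∑ x ∈ S, ∑ y ∈ S, (if (x - a)/A = (y - a)/A then (1:ℝ) else 0) := by
    have e1 : ∀ c ∈ T, ((S.filter (fun x : ℕ => (x - a)/A = c)).card : ℝ)^2 =
        ∑ x ∈ S, ∑ y ∈ S, (if (x - a)/A = c ∧ (y - a)/A = c then (1:ℝ) else 0) := by
      intro c _
      rw [sq, Finset.card_filter]
      push_cast
      rw [Finset.sum_mul_sum]
      apply Finset.sum_congr rfl
      intro x _
      apply Finset.sum_congr rfl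
      intro y _
      split_ifs <;> simp_all
    rw [Finset.sum_congr rfl e1, Finset.sum_comm]
    apply Finset.sum_congr rfl
    intro x hx
    rw [Finset.sum_comm]
    apply Finset.sum_congr rfl
    intro y hy
    by_cases hxy : (x - a)/A = (y - a)/A
    · rw [if_pos hxy, Finset.sum_eq_single ((x-a)/A)]
      · rw [if_pos ⟨rfl, hxy.symm⟩]
      · intro c _ hc
        rw [if_neg]
        rintro ⟨h, _⟩
        exact hc h.symm
      · intro hc
        exact absurd (hmaps x hx) hc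
    · rw [if_neg hxy]
      apply Finset.sum_eq_zero
      intro c _
      rw [if_neg]
      rintro ⟨h, h'⟩
      exact hxy (h.trans h'.symm)
  have h4 : ∑ x ∈ S, ∑ y ∈ S, (if (x - a)/A = (y - a)/A then (1:ℝ) else 0) ≤ n + 2 * P := by
    have e2 : ∀ x ∈ S, ∀ y ∈ S, (if (x - a)/A = (y - a)/A then (1:ℝ) else 0) ≤
        (if x = y then 1 else 0) + ∑ h ∈ Finset.Icc 1 A, ((if y = x + h then (1:ℝ) else 0) + (if x = y + h then 1 else 0)) := by
      intro x hx y hy
      have hnn : 0 ≤ ∑ h ∈ Finset.Icc 1 A, ((if y = x + h then (1:ℝ) else 0) + (if x = y + h then 1 else 0)) :=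
        Finset.sum_nonneg (fun h _ => by positivity)
      have hd : (0:ℝ) ≤ if x = y then 1 else 0 := by split_ifs <;> norm_num
      by_cases hc : (x - a)/A = (y - a)/A
      · rw [if_pos hc]
        have hx' := hS x hx
        have hy' := hS y hy
        have m1 := Nat.div_add_mod (x - a) A
        have m2 := Nat.div_add_mod (y - a) A
        have r1 := Nat.mod_lt (x - a) (by omega : 0 < A)
        have r2 := Nat.mod_lt (y - a) (by omega : 0 < A)
        rw [hc] at m1
        rcases lt_trichotomy x y with h | h | h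
        · have hin : y - x ∈ Finset.Icc 1 A := by
            rw [Finset.mem_Icc]; omega
          have h5 := Finset.single_le_sum (f := fun h => ((if y = x + h then (1:ℝ) else 0) + (if x = y + h then 1 else 0)))
            (fun h _ => by positivity) hin
          have h6 : y = x + (y - x) := by omega
          have h7 : (if y = x + (y - x) then (1:ℝ) else 0) = 1 := if_pos h6
          have h8 : (0:ℝ) ≤ (if x = y + (y - x) then (1:ℝ) else 0) := by split_ifs <;> norm_num
          simp only [h7] at h5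
          linarith
        · rw [if_pos h]; linarith
        · have hin : x - y ∈ Finset.Icc 1 A := by
            rw [Finset.mem_Icc]; omega
          have h5 := Finset.single_le_sum (f := fun h => ((if y = x + h then (1:ℝ) else 0) + (if x = y + h then 1 else 0)))
            (fun h _ => by positivity) hin
          have h6 : x = y + (x - y) := by omega
          have h7 : (if x = y + (x - y) then (1:ℝ) else 0) = 1 := if_pos h6
          have h8 : (0:ℝ) ≤ (if y = x + (x - y) then (1:ℝ) else 0) := by split_ifs <;> norm_num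
          simp only [h7] at h5
          linarith
      · rw [if_neg hc]; linarith
    have e3 : ∑ x ∈ S, ∑ y ∈ S, ((if x = y then (1:ℝ) else 0) +
        ∑ h ∈ Finset.Icc 1 A, ((if y = x + h then (1:ℝ) else 0) + (if x = y + h then 1 else 0))) =
        n + 2 * ∑ h ∈ Finset.Icc 1 A, ((S.filter (fun x => x + h ∈ S)).card : ℝ) := by
      have e4 : ∑ x ∈ S, ∑ y ∈ S, (if x = y then (1:ℝ) else 0) = n := by
        have : ∀ x ∈ S, ∑ y ∈ S, (if x = y then (1:ℝ) else 0) = 1 := by
          intro x hx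
          rw [Finset.sum_ite_eq, if_pos hx]
        rw [Finset.sum_congr rfl this, Finset.sum_const, nsmul_eq_mul, mul_one]
      have e5 : ∀ h : ℕ, ∑ x ∈ S, ∑ y ∈ S, (if y = x + h then (1:ℝ) else 0) = ((S.filter (fun x => x + h ∈ S)).card : ℝ) := by
        intro h
        rw [Finset.card_filter]
        push_cast
        apply Finset.sum_congr rfl
        intro x _
        rw [Finset.sum_ite_eq']
      have e6 : ∀ h : ℕ, ∑ x ∈ S, ∑ y ∈ S, (if x = y + h then (1:ℝ) else 0) = ((S.filter (fun x => x + h ∈ S)).card : ℝ) := by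
        intro h
        rw [Finset.sum_comm]
        exact e5 h
      simp only [Finset.sum_add_distrib]
      rw [e4]
      congr 1
      have e7 : ∑ x ∈ S, ∑ y ∈ S, ∑ h ∈ Finset.Icc 1 A, (if y = x + h then (1:ℝ) else 0) =
          ∑ h ∈ Finset.Icc 1 A, ((S.filter (fun x => x + h ∈ S)).card : ℝ) := by
        rw [Finset.sum_congr rfl (fun x _ => Finset.sum_comm), Finset.sum_comm]
        exact Finset.sum_congr rfl (fun h _ => e5 h)
      have e8 : ∑ x ∈ S, ∑ y ∈ S, ∑ h ∈ Finset.Icc 1 A, (if x = y + h then (1:ℝ) else 0) =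
          ∑ h ∈ Finset.Icc 1 A, ((S.filter (fun x => x + h ∈ S)).card : ℝ) := by
        rw [Finset.sum_congr rfl (fun x _ => Finset.sum_comm), Finset.sum_comm]
        exact Finset.sum_congr rfl (fun h _ => e6 h)
      rw [e7, e8]; ring
    calc _ ≤ ∑ x ∈ S, ∑ y ∈ S, ((if x = y then (1:ℝ) else 0) +
        ∑ h ∈ Finset.Icc 1 A, ((if y = x + h then (1:ℝ) else 0) + (if x = y + h then 1 else 0))) := by
          apply Finset.sum_le_sum
          intro x hx
          apply Finset.sum_le_sum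
          intro y hy
          exact e2 x hx y hy
      _ = _ := e3
      _ ≤ _ := by linarith
  have h5 : n^2 ≤ K * (n + 2 * P) := by
    rw [h3] at h2
    exact h2.trans (mul_le_mul_of_nonneg_left h4 hK0)
  nlinarith [sq_nonneg (n - K)]

/-- number of `x` in the block with a given difference `h` close to an integer -/
lemma diff_count {κ θ : ℝ} (hκ : 0 < κ) (hθ : 0 < θ) (hθ1 : θ ≤ 1/4) {q h : ℕ} (hq : 1 ≤ q) (hh : 1 ≤ h)
    (T : Finset ℕ) (hT : ∀ x ∈ T, q^2 ≤ x ∧ x + h < (q+1)^2 ∧ (∃ y : ℤ, |κ^2 + 2 * κ * √(x:ℝ) - y| ≤ θ) ∧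
      ∃ y : ℤ, |κ^2 + 2 * κ * √((x + h : ℕ):ℝ) - y| ≤ θ) :
    (T.card : ℝ) ≤ κ * h / q^2 + 2 + 64 * θ * q + 128 * θ * q^3 / (κ * h) := by
  classical
  have hq' : (1:ℝ) ≤ q := by exact_mod_cast hq
  have hq0 : (0:ℝ) < q := by linarith
  have hh' : (1:ℝ) ≤ h := by exact_mod_cast hh
  have hh0 : (0:ℝ) < h := by linarith
  set g : ℕ → ℝ := fun x => 2 * κ * (√((x + h : ℕ):ℝ) - √(x:ℝ)) with hg
  have sb : ∀ x ∈ T, ((q:ℝ) ≤ √(x:ℝ) ∧ √(x:ℝ) ≤ q + 1) ∧ ((q:ℝ) ≤ √((x + h : ℕ):ℝ) ∧ √((x + h : ℕ):ℝ) ≤ q + 1) := by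
    intro x hx
    obtain ⟨h1, h2, _, _⟩ := hT x hx
    refine ⟨⟨?_, ?_⟩, ⟨?_, ?_⟩⟩
    · apply Real.le_sqrt_of_sq_le; exact_mod_cast h1
    · rw [Real.sqrt_le_left (by positivity)]
      have : x ≤ (q+1)^2 := by omega
      exact_mod_cast this
    · apply Real.le_sqrt_of_sq_le
      have : q^2 ≤ x + h := by omega
      exact_mod_cast this
    · rw [Real.sqrt_le_left (by positivity)]
      exact_mod_cast h2.le
  -- formula for g
  have hgf : ∀ x ∈ T, g x * (√((x + h : ℕ):ℝ) + √(x:ℝ)) = 2 * κ * h := by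
    intro x hx
    have e1 : √((x + h : ℕ):ℝ)^2 = ((x + h : ℕ):ℝ) := Real.sq_sqrt (Nat.cast_nonneg _)
    have e2 : √(x:ℝ)^2 = x := Real.sq_sqrt (Nat.cast_nonneg _)
    push_cast at e1
    simp only [hg]
    push_cast
    linear_combination (2 * κ) * e1 - (2 * κ) * e2
  have hglow : ∀ x ∈ T, κ * h / (q+1) ≤ g x := by
    intro x hx
    obtain ⟨⟨a1, a2⟩, ⟨a3, a4⟩⟩ := sb x hx
    have h1 := hgf x hx
    rw [div_le_iff₀ (by positivity)]
    have hs : 0 < √((x + h : ℕ):ℝ) + √(x:ℝ) := by linarith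
    have hg0 : 0 < g x := by
      by_contra hcon
      push Not at hcon
      have : g x * (√((x + h : ℕ):ℝ) + √(x:ℝ)) ≤ 0 := mul_nonpos_of_nonpos_of_nonneg hcon hs.le
      have h3 : 0 < 2 * κ * h := by positivity
      linarith
    nlinarith
  have hgup : ∀ x ∈ T, g x ≤ κ * h / q := by
    intro x hx
    obtain ⟨⟨a1, a2⟩, ⟨a3, a4⟩⟩ := sb x hx
    have h1 := hgf x hx
    rw [le_div_iff₀ hq0]
    have hg0 : 0 < g x := lt_of_lt_of_le (by positivity) (hglow x hx)
    nlinarith
  -- spacing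
  have hsp : ∀ x ∈ T, ∀ y ∈ T, x < y → κ * h * ((y:ℝ) - x) / (2 * (q+1)^3) ≤ g x - g y := by
    intro x hx y hy hxy
    obtain ⟨⟨a1, a2⟩, ⟨a3, a4⟩⟩ := sb x hx
    obtain ⟨⟨b1, b2⟩, ⟨b3, b4⟩⟩ := sb y hy
    have h1 := hgf x hx
    have h2 := hgf y hy
    set sx := √(x:ℝ) with hsx
    set sx' := √((x + h : ℕ):ℝ) with hsx'
    set sy := √(y:ℝ) with hsy
    set sy' := √((y + h : ℕ):ℝ) with hsy'
    have ex : sx^2 = x := Real.sq_sqrt (Nat.cast_nonneg _)
    have ey : sy^2 = y := Real.sq_sqrt (Nat.cast_nonneg _)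
    have ex' : sx'^2 = x + h := by
      have := Real.sq_sqrt (Nat.cast_nonneg (α := ℝ) (x + h)); push_cast at this; rw [hsx']; push_cast; exact this
    have ey' : sy'^2 = y + h := by
      have := Real.sq_sqrt (Nat.cast_nonneg (α := ℝ) (y + h)); push_cast at this; rw [hsy']; push_cast; exact this
    have hxy' : (x:ℝ) < y := by exact_mod_cast hxy
    set d : ℝ := (y:ℝ) - x with hd
    have hd0 : 0 < d := by linarith
    have d1 : d / (2 * (q+1)) ≤ sy - sx := by
      rw [div_le_iff₀ (by positivity)]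
      have e : (sy - sx) * (sy + sx) = d := by rw [hd, ← ex, ← ey]; ring
      have hpos : 0 ≤ sy - sx := by
        have : sx ≤ sy := Real.sqrt_le_sqrt hxy'.le
        linarith
      rw [← e]
      apply mul_le_mul_of_nonneg_left _ hpos
      linarith
    have d2 : d / (2 * (q+1)) ≤ sy' - sx' := by
      rw [div_le_iff₀ (by positivity)]
      have e : (sy' - sx') * (sy' + sx') = d := by
        have : (sy' - sx') * (sy' + sx') = sy'^2 - sx'^2 := by ring
        rw [this, ex', ey', hd]; ring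
      have hpos : 0 ≤ sy' - sx' := by
        have : sx' ≤ sy' := Real.sqrt_le_sqrt (by push_cast; linarith)
        linarith
      rw [← e]
      apply mul_le_mul_of_nonneg_left _ hpos
      linarith
    set A := sx' + sx with hA
    set B := sy' + sy with hB
    have hA0 : 0 < A := by linarith
    have hB0 : 0 < B := by linarith
    have hAup : A ≤ 2 * (q+1) := by linarith
    have hBup : B ≤ 2 * (q+1) := by linarith
    have gx : g x = 2 * κ * h / A := by rw [eq_div_iff hA0.ne']; exact h1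
    have gy : g y = 2 * κ * h / B := by rw [eq_div_iff hB0.ne']; exact h2
    have hBA : d / (q+1) ≤ B - A := by
      have : d / (q+1) = d / (2 * (q+1)) + d / (2 * (q+1)) := by field_simp; ring
      rw [this, hA, hB]; linarith
    rw [gx, gy, div_sub_div _ _ hA0.ne' hB0.ne', div_le_div_iff₀ (by positivity) (by positivity)]
    have e : 2 * κ * h * B - A * (2 * κ * h) = 2 * κ * h * (B - A) := by ring
    rw [e]
    have hAB : A * B ≤ (2 * (q+1)) * (2 * (q+1)) := mul_le_mul hAup hBup hB0.le (by positivity)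
    have hc : d ≤ (B - A) * (q+1) := by rwa [div_le_iff₀ (by positivity)] at hBA
    calc κ * h * d * (A * B) ≤ κ * h * ((B - A) * (q+1)) * ((2 * (q+1)) * (2 * (q+1))) := by
          have : 0 ≤ (B - A) * (q+1) := hd0.le.trans hc
          gcongr
      _ = 2 * κ * h * (B - A) * (2 * (q+1)^3) := by ring
  -- near integer
  have hni : ∀ x ∈ T, ∃ k : ℤ, |g x - k| ≤ 2 * θ := by
    intro x hx
    obtain ⟨_, _, ⟨y1, h1⟩, ⟨y2, h2⟩⟩ := hT x hx
    refine ⟨y2 - y1, ?_⟩
    have e : g x - ((y2 - y1 : ℤ) : ℝ) = (κ^2 + 2 * κ * √((x + h : ℕ):ℝ) - y2) - (κ^2 + 2 * κ * √(x:ℝ) - y1) := by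
      simp only [hg]; push_cast; ring
    rw [e]
    refine (abs_sub _ _).trans ?_
    linarith
  -- range of k
  set Ks := Finset.Icc ⌈κ * h / (q+1) - 1/2⌉ ⌊κ * h / q + 1/2⌋ with hKs
  have hKcard : (Ks.card : ℝ) ≤ κ * h / q^2 + 2 := by
    rw [hKs, Int.card_Icc]
    have h1 := Int.le_ceil (κ * h / (q+1) - 1/2)
    have h2 := Int.floor_le (κ * h / q + 1/2)
    have h3 : (((⌊κ * h / q + 1/2⌋ + 1 - ⌈κ * h / (q+1) - 1/2⌉).toNat : ℤ) : ℝ) ≤
        max ((⌊κ * h / q + 1/2⌋ + 1 - ⌈κ * h / (q+1) - 1/2⌉ : ℤ) : ℝ) 0 := by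
      rw [Int.toNat_eq_max]; push_cast; rfl
    have h4 : (((⌊κ * h / q + 1/2⌋ + 1 - ⌈κ * h / (q+1) - 1/2⌉).toNat : ℕ) : ℝ) ≤
        max ((⌊κ * h / q + 1/2⌋ + 1 - ⌈κ * h / (q+1) - 1/2⌉ : ℤ) : ℝ) 0 := by
      exact_mod_cast h3
    refine h4.trans ?_
    have h5 : κ * h / q - κ * h / (q+1) ≤ κ * h / q^2 := by
      have : κ * h / q - κ * h / (q+1) = κ * h / (q * (q+1)) := by field_simp; ring
      rw [this]
      apply div_le_div_of_nonneg_left (by positivity) (by positivity)
      nlinarith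
    apply max_le
    · push_cast; linarith
    · positivity
  have hfib : ∀ k : ℤ, ((T.filter (fun x : ℕ => |g x - k| ≤ 2 * θ)).card : ℝ) ≤ 64 * θ * q^3 / (κ * h) + 1 := by
    intro k
    apply card_le_of_spread _ (by positivity)
    intro x hx y hy
    rw [Finset.mem_filter] at hx hy
    have h64 : 0 ≤ 64 * θ * q^3 / (κ * h) := by positivity
    rcases le_or_gt y x with hyx | hxy
    · have : (y:ℝ) ≤ x := by exact_mod_cast hyx
      linarith
    · have h1 := hsp x hx.1 y hy.1 hxy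
      have h2 := abs_le.mp hx.2
      have h3 := abs_le.mp hy.2
      have h4 : κ * h * ((y:ℝ) - x) / (2 * (q+1)^3) ≤ 4 * θ := by linarith
      rw [div_le_iff₀ (by positivity)] at h4
      rw [le_div_iff₀ (by positivity)]
      have h5 : ((q:ℝ)+1)^3 ≤ 8 * q^3 := by
        have : (q:ℝ) + 1 ≤ 2 * q := by linarith
        calc ((q:ℝ)+1)^3 ≤ (2*q)^3 := pow_le_pow_left₀ (by positivity) this 3
          _ = 8 * q^3 := by ring
      calc ((y:ℝ) - x) * (κ * h) = κ * h * ((y:ℝ) - x) := by ring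
        _ ≤ 4 * θ * (2 * (q+1)^3) := h4
        _ ≤ 4 * θ * (2 * (8 * q^3)) := by gcongr
        _ = _ := by ring
  have hcover : (T.card : ℝ) ≤ ∑ k ∈ Ks, ((T.filter (fun x : ℕ => |g x - k| ≤ 2 * θ)).card : ℝ) := by
    have e1 : (T.card : ℝ) = ∑ x ∈ T, (1:ℝ) := by rw [Finset.sum_const, nsmul_eq_mul, mul_one]
    have e2 : ∑ k ∈ Ks, ((T.filter (fun x : ℕ => |g x - k| ≤ 2 * θ)).card : ℝ) =
        ∑ x ∈ T, ∑ k ∈ Ks, (if |g x - k| ≤ 2 * θ then (1:ℝ) else 0) := by
      rw [Finset.sum_comm]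
      apply Finset.sum_congr rfl
      intro k _
      rw [Finset.card_filter]; push_cast; rfl
    rw [e1, e2]
    apply Finset.sum_le_sum
    intro x hx
    obtain ⟨k, hk⟩ := hni x hx
    have hkm : k ∈ Ks := by
      rw [hKs, Finset.mem_Icc]
      have h1 := abs_le.mp hk
      have h2 := hglow x hx
      have h3 := hgup x hx
      constructor
      · apply Int.ceil_le.mpr; linarith
      · apply Int.le_floor.mpr; linarith
    calc (1:ℝ) = if |g x - k| ≤ 2 * θ then (1:ℝ) else 0 := by rw [if_pos hk]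
      _ ≤ _ := Finset.single_le_sum (f := fun k : ℤ => if |g x - k| ≤ 2 * θ then (1:ℝ) else 0)
          (fun k _ => by split_ifs <;> norm_num) hkm
  calc (T.card : ℝ) ≤ ∑ k ∈ Ks, ((T.filter (fun x : ℕ => |g x - k| ≤ 2 * θ)).card : ℝ) := hcover
    _ ≤ ∑ k ∈ Ks, (64 * θ * q^3 / (κ * h) + 1) := Finset.sum_le_sum (fun k _ => hfib k)
    _ = Ks.card * (64 * θ * q^3 / (κ * h) + 1) := by rw [Finset.sum_const, nsmul_eq_mul]
    _ ≤ (κ * h / q^2 + 2) * (64 * θ * q^3 / (κ * h) + 1) := by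
        apply mul_le_mul_of_nonneg_right hKcard (by positivity)
    _ = _ := by field_simp; ring

end Pool.Agent.H452R2.Win
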