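import Mathlib
import Pool.Agent.H452R2.Win.W1
import Pool.Agent.H383.QTail

open Set Filter Topology
open Pool.Agent.H383.Gauss

namespace Pool.Agent.H452R2.Win

/-- the points near the curve in the block of `q` -/
noncomputable def NS (κ θ : ℝ) (q : ℕ) : Finset ℕ := by
  classical
  exact (Finset.Ico (q^2) ((q+1)^2)).filter (fun x : ℕ => ∃ y : ℤ, |κ^2 + 2 * κ * √(x:ℝ) - y| ≤ θ)

lemma NS_card_le (κ θ : ℝ) {q : ℕ} (hq : 1 ≤ q) : ((NS κ θ q).card : ℝ) ≤ 3 * q := by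
  classical
  have h1 : (NS κ θ q).card ≤ (Finset.Ico (q^2) ((q+1)^2)).card := Finset.card_filter_le _ _
  rw [Nat.card_Ico] at h1
  have h2 : (q+1)^2 - q^2 = 2 * q + 1 := by
    have : (q+1)^2 = q^2 + (2 * q + 1) := by ring
    omega
  rw [h2] at h1
  have : (NS κ θ q).card ≤ 3 * q := by omega
  exact_mod_cast this

lemma sum_h_le (A : ℕ) : ∑ h ∈ Finset.Icc 1 A, (h:ℝ) ≤ (A:ℝ)^2 := by
  calc ∑ h ∈ Finset.Icc 1 A, (h:ℝ) ≤ ∑ h ∈ Finset.Icc 1 A, (A:ℝ) := by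
        apply Finset.sum_le_sum
        intro h hh
        rw [Finset.mem_Icc] at hh
        exact_mod_cast hh.2
    _ = (A:ℝ)^2 := by
        rw [Finset.sum_const, Nat.card_Icc, nsmul_eq_mul]
        simp; ring

theorem near_curve2 {c : ℝ} (hc : 0 < c) (hc3 : c ≤ 1/3) {κ θ : ℝ} (hκ : 0 < κ) (hθ : 0 < θ) {q : ℕ} (hq : 1 ≤ q) :
    ((NS κ θ q).card : ℝ)^2 ≤ 80 * (max κ 1) ^ (1 - c) + 32 * q + 1024 * θ * q^2 +
      4096 * (1 + 1/c) * θ * (q^3 / κ) * (max κ 1) ^ c * (q:ℝ) ^ c := by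
  classical
  have hq' : (1:ℝ) ≤ q := by exact_mod_cast hq
  have hq0 : (0:ℝ) < q := by linarith
  set κ1 := max κ 1 with hκ1
  have hk1 : 1 ≤ κ1 := le_max_right _ _
  have hk0 : 0 < κ1 := by linarith
  have hkκ : κ ≤ κ1 := le_max_left _ _
  have htriv := NS_card_le κ θ hq
  set n : ℝ := ((NS κ θ q).card : ℝ) with hn
  have hn0 : 0 ≤ n := Nat.cast_nonneg _
  have htriv2 : n^2 ≤ 9 * q^2 := by nlinarith
  have p1 : 0 ≤ 80 * κ1 ^ (1 - c) := by positivity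
  have p2 : (0:ℝ) ≤ 32 * q := by positivity
  have p3 : 0 ≤ 1024 * θ * q^2 := by positivity
  have p4 : 0 ≤ 4096 * (1 + 1/c) * θ * (q^3 / κ) * κ1 ^ c * (q:ℝ) ^ c := by positivity
  rcases lt_or_ge (1/4) θ with hθ1 | hθ1
  · have : 9 * (q:ℝ)^2 ≤ 1024 * θ * q^2 := by
      have : 0 < (q:ℝ)^2 := by positivity
      nlinarith
    linarith
  rcases lt_or_ge (q:ℝ) (κ1 ^ c) with hqc | hqc
  · have h1 : (q:ℝ)^2 ≤ κ1 ^ (1 - c) := by
      calc (q:ℝ)^2 ≤ (κ1 ^ c)^2 := pow_le_pow_left₀ hq0.le hqc.le 2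
        _ = κ1 ^ (2 * c) := by rw [← Real.rpow_natCast, ← Real.rpow_mul hk0.le]; congr 1; push_cast; ring
        _ ≤ κ1 ^ (1 - c) := Real.rpow_le_rpow_of_exponent_le hk1 (by linarith)
    linarith
  -- main case
  set w := κ1 ^ c with hw
  have hw1 : 1 ≤ w := Real.one_le_rpow hk1 hc.le
  have hw0 : 0 < w := by linarith
  set A : ℕ := ⌊(q:ℝ) / w⌋₊ with hA
  have hqw : 1 ≤ (q:ℝ)/w := by rw [le_div_iff₀ hw0]; linarith
  have hA1 : 1 ≤ A := Nat.le_floor (by exact_mod_cast hqw)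
  have hA1' : (1:ℝ) ≤ A := by exact_mod_cast hA1
  have hA0 : (0:ℝ) < A := by linarith
  have hAup : (A:ℝ) ≤ q / w := Nat.floor_le (by positivity)
  have hAlow : (q:ℝ) / w ≤ 2 * A := by
    have := Nat.lt_floor_add_one ((q:ℝ)/w)
    rw [← hA] at this
    linarith
  have hAq : (A:ℝ) ≤ q := hAup.trans (div_le_self hq0.le hw1)
  have hAw : (A:ℝ) * w ≤ q := by rwa [le_div_iff₀ hw0] at hAup
  have hqA : (q:ℝ) / A ≤ 2 * w := by
    rw [div_le_iff₀ hA0]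
    rw [div_le_iff₀ hw0] at hAlow
    linarith
  set P : ℝ := κ * A^2 / q^2 + 2 * A + 64 * θ * q * A + 128 * θ * (q^3 / κ) * (1 + Real.log A) with hP
  have hlogA : 0 ≤ Real.log A := Real.log_nonneg hA1'
  have hcell := cell_count (NS κ θ q) (q^2) (2*q+1) A hA1 (by
    intro x hx
    unfold NS at hx
    rw [Finset.mem_filter, Finset.mem_Ico] at hx
    have : (q+1)^2 = q^2 + (2 * q + 1) := by ring
    omega) (P := P) (by
    have h1 : ∀ h ∈ Finset.Icc 1 A, (((NS κ θ q).filter (fun x => x + h ∈ NS κ θ q)).card : ℝ) ≤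
        κ / q^2 * h + (2 + 64 * θ * q) + 128 * θ * (q^3 / κ) * (1 / h) := by
      intro h hh
      rw [Finset.mem_Icc] at hh
      have h2 := diff_count hκ hθ hθ1 hq hh.1 ((NS κ θ q).filter (fun x => x + h ∈ NS κ θ q)) (by
        intro x hx
        rw [Finset.mem_filter] at hx
        obtain ⟨hx1, hx2⟩ := hx
        unfold NS at hx1 hx2
        rw [Finset.mem_filter, Finset.mem_Ico] at hx1 hx2
        exact ⟨hx1.1.1, hx2.1.2, hx1.2, hx2.2⟩)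
      refine h2.trans (le_of_eq ?_)
      have hh0 : (0:ℝ) < h := by exact_mod_cast hh.1
      field_simp
      ring
    refine (Finset.sum_le_sum h1).trans ?_
    rw [Finset.sum_add_distrib, Finset.sum_add_distrib, ← Finset.mul_sum, ← Finset.mul_sum, Finset.sum_const,
      Nat.card_Icc, nsmul_eq_mul]
    have s1 := sum_h_le A
    have s2 := sum_inv_le A
    have s3 : κ / q^2 * ∑ h ∈ Finset.Icc 1 A, (h:ℝ) ≤ κ / q^2 * A^2 := mul_le_mul_of_nonneg_left s1 (by positivity)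
    have s4 : 128 * θ * (q^3 / κ) * ∑ h ∈ Finset.Icc 1 A, (1:ℝ) / h ≤ 128 * θ * (q^3 / κ) * (1 + Real.log A) :=
      mul_le_mul_of_nonneg_left s2 (by positivity)
    have s5 : (((A + 1 - 1 : ℕ) : ℝ)) * (2 + 64 * θ * q) = 2 * A + 64 * θ * q * A := by
      simp; ring
    have s6 : κ / q^2 * (A:ℝ)^2 = κ * A^2 / q^2 := by ring
    rw [s5, hP]
    linarith)
  rw [← hn] at hcell
  have hK : ((2*q+1 : ℕ):ℝ)/A + 1 ≤ 4 * (q / A) := by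
    have h1 : ((2*q+1 : ℕ):ℝ)/A ≤ 3 * (q/A) := by
      rw [mul_div_assoc']
      apply div_le_div_of_nonneg_right _ hA0.le
      push_cast; linarith
    have h2 : 1 ≤ (q:ℝ)/A := by rw [le_div_iff₀ hA0]; linarith
    linarith
  have hP0 : 0 ≤ P := by positivity
  have hK0 : 0 ≤ ((2*q+1 : ℕ):ℝ)/A + 1 := by positivity
  set B : ℝ := (q:ℝ)/A with hB
  have hB0 : 0 < B := by positivity
  have hBA : B * A = q := by rw [hB]; field_simp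
  have h1 : n^2 ≤ 16 * B^2 + 16 * (B * P) := by
    calc n^2 ≤ _ := hcell
      _ ≤ (4 * B)^2 + 4 * (4 * B) * P := by gcongr
      _ = _ := by ring
  have h2 : B^2 ≤ 4 * κ1 ^ (1 - c) := by
    calc B^2 ≤ (2 * w)^2 := pow_le_pow_left₀ hB0.le hqA 2
      _ = 4 * κ1 ^ (2 * c) := by
          rw [mul_pow, hw, ← Real.rpow_natCast (κ1 ^ c), ← Real.rpow_mul hk0.le,
            show (c * ((2:ℕ):ℝ)) = 2 * c by push_cast; ring]
          norm_num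
      _ ≤ 4 * κ1 ^ (1 - c) := by
          apply mul_le_mul_of_nonneg_left _ (by norm_num)
          exact Real.rpow_le_rpow_of_exponent_le hk1 (by linarith)
  have h3 : B * (κ * A^2 / q^2) ≤ κ1 ^ (1 - c) := by
    have e : B * (κ * A^2 / q^2) = κ * (A / q) := by
      rw [hB]; field_simp
    rw [e]
    have e2 : (A:ℝ) / q ≤ 1 / w := by
      rw [div_le_div_iff₀ hq0 hw0]; linarith
    calc κ * (A / q) ≤ κ1 * (1 / w) := mul_le_mul hkκ e2 (by positivity) hk0.le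
      _ = κ1 ^ (1 - c) := by
          rw [hw, Real.rpow_sub hk0, Real.rpow_one]; ring
  have h4 : B * (2 * A) = 2 * q := by rw [← hBA]; ring
  have h5 : B * (64 * θ * q * A) = 64 * θ * q^2 := by
    calc B * (64 * θ * q * A) = 64 * θ * q * (B * A) := by ring
      _ = _ := by rw [hBA]; ring
  have h6 : 1 + Real.log A ≤ (1 + 1/c) * (q:ℝ) ^ c := by
    have a1 : Real.log A ≤ Real.log q := Real.log_le_log hA0 hAq
    have a2 := Real.log_le_rpow_div hq0.le hc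
    have a3 : 1 ≤ (q:ℝ) ^ c := Real.one_le_rpow hq' hc.le
    have a4 : (q:ℝ) ^ c / c = 1/c * (q:ℝ) ^ c := by ring
    rw [a4] at a2
    linarith
  have h7 : B * (128 * θ * (q^3 / κ) * (1 + Real.log A)) ≤ 256 * (1 + 1/c) * θ * (q^3 / κ) * w * (q:ℝ) ^ c := by
    calc B * (128 * θ * (q^3 / κ) * (1 + Real.log A)) ≤ (2 * w) * (128 * θ * (q^3 / κ) * ((1 + 1/c) * (q:ℝ) ^ c)) := by
          gcongr
      _ = _ := by ring
  have h8 : B * P = B * (κ * A^2 / q^2) + B * (2 * A) + B * (64 * θ * q * A) + B * (128 * θ * (q^3 / κ) * (1 + Real.log A)) := by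
    rw [hP]; ring
  rw [h8, h4, h5] at h1
  nlinarith

/-- majorant of the coefficients -/
noncomputable def hw (ω δ x : ℝ) : ℝ := x ^ (-(3/2) + ω) * min 1 ((δ * x) ^ (-(3/2):ℝ))

variable {ω : ℝ}

lemma hw_nonneg {δ x : ℝ} (hδ : 0 < δ) (hx : 0 < x) : 0 ≤ hw ω δ x := by unfold hw; positivity

lemma hw_anti (hω : ω ≤ 1) {δ x y : ℝ} (hδ : 0 < δ) (hx : 0 < x) (hxy : x ≤ y) : hw ω δ y ≤ hw ω δ x := by
  unfold hw
  have h1 : y ^ (-(3/2) + ω) ≤ x ^ (-(3/2) + ω) := Real.rpow_le_rpow_of_nonpos hx hxy (by linarith)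
  have h2 : (δ * y) ^ (-(3/2):ℝ) ≤ (δ * x) ^ (-(3/2):ℝ) :=
    Real.rpow_le_rpow_of_nonpos (by positivity) (by gcongr) (by norm_num)
  have hy : 0 < y := by linarith
  have h3 : min 1 ((δ * y) ^ (-(3/2):ℝ)) ≤ min 1 ((δ * x) ^ (-(3/2):ℝ)) := min_le_min_left _ h2
  apply mul_le_mul h1 h3 (by positivity) (by positivity)

lemma hw_half (hω : 0 ≤ ω) {δ x : ℝ} (hδ : 0 < δ) (hx : 0 < x) : hw ω δ (x/2) ≤ 8 * hw ω δ x := by
  unfold hw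
  have e0 : (1/2:ℝ) ^ (-(3/2):ℝ) * (1/2:ℝ) ^ (-(3/2):ℝ) = 8 := by
    rw [← Real.rpow_add (by norm_num), one_div, Real.inv_rpow (by norm_num), ← Real.rpow_neg (by norm_num)]
    norm_num
  have e1 : (x/2) ^ (-(3/2) + ω) ≤ (1/2:ℝ) ^ (-(3/2):ℝ) * x ^ (-(3/2) + ω) := by
    rw [show x/2 = (1/2) * x by ring, Real.mul_rpow (by norm_num) hx.le]
    apply mul_le_mul_of_nonneg_right _ (by positivity)
    apply Real.rpow_le_rpow_of_exponent_ge (by norm_num) (by norm_num) (by linarith)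
  have e2 : (δ * (x/2)) ^ (-(3/2):ℝ) = (1/2:ℝ) ^ (-(3/2):ℝ) * (δ * x) ^ (-(3/2):ℝ) := by
    rw [show δ * (x/2) = (1/2) * (δ * x) by ring, Real.mul_rpow (by norm_num) (by positivity)]
  have e3 : (1:ℝ) ≤ (1/2:ℝ) ^ (-(3/2):ℝ) :=
    Real.one_le_rpow_of_pos_of_le_one_of_nonpos (by norm_num) (by norm_num) (by norm_num)
  have e4 : min 1 ((δ * (x/2)) ^ (-(3/2):ℝ)) ≤ (1/2:ℝ) ^ (-(3/2):ℝ) * min 1 ((δ * x) ^ (-(3/2):ℝ)) := by
    rw [e2, mul_min_of_nonneg _ _ (by positivity)]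
    apply min_le_min_right
    linarith
  calc (x/2) ^ (-(3/2) + ω) * min 1 ((δ * (x/2)) ^ (-(3/2):ℝ))
      ≤ ((1/2:ℝ) ^ (-(3/2):ℝ) * x ^ (-(3/2) + ω)) * ((1/2:ℝ) ^ (-(3/2):ℝ) * min 1 ((δ * x) ^ (-(3/2):ℝ))) := by
        apply mul_le_mul e1 e4 (by positivity) (by positivity)
    _ = ((1/2:ℝ) ^ (-(3/2):ℝ) * (1/2:ℝ) ^ (-(3/2):ℝ)) * (x ^ (-(3/2) + ω) * min 1 ((δ * x) ^ (-(3/2):ℝ))) := by ring
    _ = _ := by rw [e0]

lemma hw_prod {δ q U s : ℝ} (hδ : 0 < δ) (hq : 0 < q) (hU : 0 < U) (h0 : 0 ≤ s) (h1 : s ≤ 3/2) :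
    hw ω δ q * hw ω δ U ≤ δ ^ (-s) * (q ^ (-(3/2) + ω) * U ^ (-(3/2) + ω - s)) := by
  have e2 := min_le_pow (x := δ * U) (by positivity) h0 h1
  have e1 : min 1 ((δ * q) ^ (-(3/2):ℝ)) ≤ 1 := min_le_left _ _
  unfold hw
  calc q ^ (-(3/2) + ω) * min 1 ((δ * q) ^ (-(3/2):ℝ)) * (U ^ (-(3/2) + ω) * min 1 ((δ * U) ^ (-(3/2):ℝ)))
      ≤ q ^ (-(3/2) + ω) * 1 * (U ^ (-(3/2) + ω) * (δ * U) ^ (-s)) := by gcongr
    _ = δ ^ (-s) * (q ^ (-(3/2) + ω) * (U ^ (-(3/2) + ω) * U ^ (-s))) := by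
        rw [Real.mul_rpow hδ.le hU.le]; ring
    _ = _ := by
        rw [← Real.rpow_add hU]
        ring_nf

/-- the pointwise estimate which makes the off-diagonal sum converge -/
lemma pw2 (hω : 0 < ω) (hω1 : ω ≤ 1/100) {N δ q κ : ℝ} (hN : 0 < N) (hδ : 0 < δ) (hδ1 : δ ≤ 1)
    (hδN : δ ^ (-(1/2 + 8 * ω)) ≤ N ^ (1/2:ℝ)) (hq : 1 ≤ q) (hκ : 0 < κ) :
    (κ ^ ((1 - 4 * ω)/2) + q ^ (1/2:ℝ) + q * (q + κ) ^ (1/2:ℝ) * N ^ (-(1/2):ℝ) +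
      (q + κ) ^ (1/2:ℝ) * q ^ ((3 + 4 * ω)/2) * κ ^ ((4 * ω - 1)/2) * N ^ (-(1/2):ℝ)) *
      (hw ω δ q * hw ω δ (q + κ)) ≤
      4 * (κ ^ (-(1 + ω)) * q ^ (-(1 + ω))) := by
  have hq0 : 0 < q := by linarith
  have hU : 0 < q + κ := by linarith
  set U := q + κ with hUd
  set H := hw ω δ q * hw ω δ U with hH
  have hH0 : 0 ≤ H := mul_nonneg (hw_nonneg hδ hq0) (hw_nonneg hδ hU)
  set R := κ ^ (-(1 + ω)) * q ^ (-(1 + ω)) with hR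
  have hR0 : 0 ≤ R := by positivity
  have hqp : ∀ a : ℝ, a ≤ -(1 + ω) → q ^ a ≤ q ^ (-(1 + ω)) := fun a ha =>
    Real.rpow_le_rpow_of_exponent_le hq ha
  have hNN : N ^ (-(1/2):ℝ) * N ^ (1/2:ℝ) = 1 := by rw [← Real.rpow_add hN]; norm_num
  have hδs : ∀ s : ℝ, s ≤ 1/2 + 8 * ω → δ ^ (-s) * N ^ (-(1/2):ℝ) ≤ 1 := by
    intro s hs
    have h1 : δ ^ (-s) ≤ δ ^ (-(1/2 + 8 * ω)) := Real.rpow_le_rpow_of_exponent_ge hδ hδ1 (by linarith)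
    calc δ ^ (-s) * N ^ (-(1/2):ℝ) ≤ N ^ (1/2:ℝ) * N ^ (-(1/2):ℝ) := by
          apply mul_le_mul_of_nonneg_right (h1.trans hδN) (by positivity)
      _ = 1 := by rw [mul_comm]; exact hNN
  -- term 1
  have t1 : κ ^ ((1 - 4 * ω)/2) * H ≤ R := by
    have h := hw_prod (ω := ω) (s := 0) hδ hq0 hU le_rfl (by norm_num)
    simp only [neg_zero, Real.rpow_zero, one_mul, sub_zero] at h
    have hu := U_pow (a1 := 0) (a2 := 3/2 - ω) hq0 hκ le_rfl (by linarith)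
    rw [show (-(0 + (3/2 - ω)) : ℝ) = -(3/2) + ω by ring, ← hUd] at hu
    calc κ ^ ((1 - 4 * ω)/2) * H ≤ κ ^ ((1 - 4 * ω)/2) * (q ^ (-(3/2) + ω) * (q ^ (-0:ℝ) * κ ^ (-(3/2 - ω)))) := by
          gcongr
          exact h.trans (by gcongr)
      _ = (κ ^ ((1 - 4 * ω)/2) * κ ^ (-(3/2 - ω))) * q ^ (-(3/2) + ω) := by
          rw [neg_zero, Real.rpow_zero]; ring
      _ = κ ^ (-(1 + ω)) * q ^ (-(3/2) + ω) := by
          rw [← Real.rpow_add hκ]; ring_nf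
      _ ≤ R := by
          rw [hR]; exact mul_le_mul_of_nonneg_left (hqp _ (by linarith)) (by positivity)
  -- term 2
  have t2 : q ^ (1/2:ℝ) * H ≤ R := by
    have h := hw_prod (ω := ω) (s := 0) hδ hq0 hU le_rfl (by norm_num)
    simp only [neg_zero, Real.rpow_zero, one_mul, sub_zero] at h
    have hu := U_pow (a1 := 1/2 - 2 * ω) (a2 := 1 + ω) hq0 hκ (by linarith) (by linarith)
    rw [show (-(1/2 - 2 * ω + (1 + ω)) : ℝ) = -(3/2) + ω by ring, ← hUd] at hu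
    calc q ^ (1/2:ℝ) * H ≤ q ^ (1/2:ℝ) * (q ^ (-(3/2) + ω) * (q ^ (-(1/2 - 2 * ω)) * κ ^ (-(1 + ω)))) := by
          gcongr
          exact h.trans (by gcongr)
      _ = κ ^ (-(1 + ω)) * (q ^ (1/2:ℝ) * q ^ (-(3/2) + ω) * q ^ (-(1/2 - 2 * ω))) := by ring
      _ = κ ^ (-(1 + ω)) * q ^ (-(3/2) + 3 * ω) := by
          rw [← Real.rpow_add hq0, ← Real.rpow_add hq0]; ring_nf
      _ ≤ R := by
          rw [hR]; exact mul_le_mul_of_nonneg_left (hqp _ (by linarith)) (by positivity)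
  -- term 3
  have t3 : q * U ^ (1/2:ℝ) * N ^ (-(1/2):ℝ) * H ≤ R := by
    have h := hw_prod (ω := ω) (s := 1/2 + 4 * ω) hδ hq0 hU (by linarith) (by linarith)
    have hu := U_pow (a1 := 1/2 + 2 * ω) (a2 := 1 + ω) hq0 hκ (by linarith) (by linarith)
    rw [show (-(1/2 + 2 * ω + (1 + ω)) : ℝ) = 1/2 + (-(3/2) + ω - (1/2 + 4 * ω)) by ring, ← hUd] at hu
    have hs := hδs (1/2 + 4 * ω) (by linarith)
    calc q * U ^ (1/2:ℝ) * N ^ (-(1/2):ℝ) * H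
        ≤ q ^ (1:ℝ) * U ^ (1/2:ℝ) * N ^ (-(1/2):ℝ) * (δ ^ (-(1/2 + 4 * ω)) * (q ^ (-(3/2) + ω) * U ^ (-(3/2) + ω - (1/2 + 4 * ω)))) := by
          rw [Real.rpow_one]; gcongr
      _ = (δ ^ (-(1/2 + 4 * ω)) * N ^ (-(1/2):ℝ)) * (q ^ (1:ℝ) * q ^ (-(3/2) + ω)) *
          (U ^ (1/2:ℝ) * U ^ (-(3/2) + ω - (1/2 + 4 * ω))) := by ring
      _ ≤ 1 * (q ^ (1:ℝ) * q ^ (-(3/2) + ω)) * (q ^ (-(1/2 + 2 * ω)) * κ ^ (-(1 + ω))) := by
          rw [← Real.rpow_add hU]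
          gcongr
      _ = κ ^ (-(1 + ω)) * (q ^ (1:ℝ) * q ^ (-(3/2) + ω) * q ^ (-(1/2 + 2 * ω))) := by ring
      _ = κ ^ (-(1 + ω)) * q ^ (-(1 + ω)) := by
          rw [← Real.rpow_add hq0, ← Real.rpow_add hq0]; ring_nf
      _ = R := hR.symm
  -- term 4
  have t4 : U ^ (1/2:ℝ) * q ^ ((3 + 4 * ω)/2) * κ ^ ((4 * ω - 1)/2) * N ^ (-(1/2):ℝ) * H ≤ R := by
    have h := hw_prod (ω := ω) (s := 1/2 + 8 * ω) hδ hq0 hU (by linarith) (by linarith)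
    have hu := U_pow (a1 := 1 + 4 * ω) (a2 := 1/2 + 3 * ω) hq0 hκ (by linarith) (by linarith)
    rw [show (-(1 + 4 * ω + (1/2 + 3 * ω)) : ℝ) = 1/2 + (-(3/2) + ω - (1/2 + 8 * ω)) by ring, ← hUd] at hu
    have hs := hδs (1/2 + 8 * ω) le_rfl
    calc U ^ (1/2:ℝ) * q ^ ((3 + 4 * ω)/2) * κ ^ ((4 * ω - 1)/2) * N ^ (-(1/2):ℝ) * H
        ≤ U ^ (1/2:ℝ) * q ^ ((3 + 4 * ω)/2) * κ ^ ((4 * ω - 1)/2) * N ^ (-(1/2):ℝ) *
          (δ ^ (-(1/2 + 8 * ω)) * (q ^ (-(3/2) + ω) * U ^ (-(3/2) + ω - (1/2 + 8 * ω)))) := by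
          gcongr
      _ = (δ ^ (-(1/2 + 8 * ω)) * N ^ (-(1/2):ℝ)) * κ ^ ((4 * ω - 1)/2) * (q ^ ((3 + 4 * ω)/2) * q ^ (-(3/2) + ω)) *
          (U ^ (1/2:ℝ) * U ^ (-(3/2) + ω - (1/2 + 8 * ω))) := by ring
      _ ≤ 1 * κ ^ ((4 * ω - 1)/2) * (q ^ ((3 + 4 * ω)/2) * q ^ (-(3/2) + ω)) *
          (q ^ (-(1 + 4 * ω)) * κ ^ (-(1/2 + 3 * ω))) := by
          rw [← Real.rpow_add hU]
          gcongr
      _ = (κ ^ ((4 * ω - 1)/2) * κ ^ (-(1/2 + 3 * ω))) * (q ^ ((3 + 4 * ω)/2) * q ^ (-(3/2) + ω) * q ^ (-(1 + 4 * ω))) := by ring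
      _ = κ ^ (-(1 + ω)) * q ^ (-(1 + ω)) := by
          rw [← Real.rpow_add hq0, ← Real.rpow_add hq0, ← Real.rpow_add hκ]; ring_nf
      _ = R := hR.symm
  calc _ = κ ^ ((1 - 4 * ω)/2) * H + q ^ (1/2:ℝ) * H + q * U ^ (1/2:ℝ) * N ^ (-(1/2):ℝ) * H +
        U ^ (1/2:ℝ) * q ^ ((3 + 4 * ω)/2) * κ ^ ((4 * ω - 1)/2) * N ^ (-(1/2):ℝ) * H := by ring
    _ ≤ R + R + R + R := by gcongr
    _ = _ := by ring

/-- the counting function in the form used below -/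
lemma NS_card {α : ℝ} (hα : 0 < α) (hω : 0 < ω) (hω1 : ω ≤ 1/100) : ∃ C : ℝ, 0 < C ∧ ∀ (N k q : ℕ), 1 ≤ N → 1 ≤ k → 1 ≤ q →
    ((NS (k/α) (3 * (q + k/α) / (α * N)) q).card : ℝ) ≤
    C * ((k/α) ^ ((1 - 4 * ω)/2) + (q:ℝ) ^ (1/2:ℝ) + q * (q + k/α) ^ (1/2:ℝ) * (N:ℝ) ^ (-(1/2):ℝ) +
      (q + k/α) ^ (1/2:ℝ) * (q:ℝ) ^ ((3 + 4 * ω)/2) * (k/α) ^ ((4 * ω - 1)/2) * (N:ℝ) ^ (-(1/2):ℝ)) := by
  set a1 : ℝ := max α 1 with ha1
  have ha10 : 0 < a1 := by positivity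
  set D : ℝ := 80 * a1 + 32 + 1024 * (3/α) + 4096 * (1 + 1/(4 * ω)) * (3/α) * a1 with hD
  have hD0 : 0 < D := by positivity
  refine ⟨D + 1, by positivity, ?_⟩
  intro N k q hN hk hq
  have hN' : (0:ℝ) < N := by exact_mod_cast hN
  have hk' : (1:ℝ) ≤ k := by exact_mod_cast hk
  have hq' : (1:ℝ) ≤ q := by exact_mod_cast hq
  have hq0 : (0:ℝ) < q := by linarith
  have hκ : (0:ℝ) < k/α := by positivity
  set κ : ℝ := k/α with hκd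
  have hακ : 1 ≤ α * κ := by rw [hκd]; field_simp; exact hk'
  have ha11 : 1 ≤ a1 := le_max_right _ _
  have hκ1 : max κ 1 ≤ a1 * κ := by
    apply max_le
    · nlinarith
    · exact hακ.trans (mul_le_mul_of_nonneg_right (le_max_left _ _) hκ.le)
  have hm0 : 0 < max κ 1 := by positivity
  have h := near_curve2 (c := 4 * ω) (by positivity) (by linarith) hκ (θ := 3 * (q + κ) / (α * N)) (by positivity) hq
  set n : ℝ := ((NS κ (3 * (q + κ) / (α * N)) q).card : ℝ) with hn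
  have hn0 : 0 ≤ n := Nat.cast_nonneg _
  set x1 := κ ^ ((1 - 4 * ω)/2) with hx1
  set x2 := (q:ℝ) ^ (1/2:ℝ) with hx2
  set x3 := q * (q + κ) ^ (1/2:ℝ) * (N:ℝ) ^ (-(1/2):ℝ) with hx3
  set x4 := (q + κ) ^ (1/2:ℝ) * (q:ℝ) ^ ((3 + 4 * ω)/2) * κ ^ ((4 * ω - 1)/2) * (N:ℝ) ^ (-(1/2):ℝ) with hx4
  have y1 : 0 ≤ x1 := by positivity
  have y2 : 0 ≤ x2 := by positivity
  have y3 : 0 ≤ x3 := by positivity
  have y4 : 0 ≤ x4 := by positivity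
  have e1 : (max κ 1) ^ (1 - 4 * ω) ≤ a1 * x1^2 := by
    calc (max κ 1) ^ (1 - 4 * ω) ≤ (a1 * κ) ^ (1 - 4 * ω) := Real.rpow_le_rpow hm0.le hκ1 (by linarith)
      _ = a1 ^ (1 - 4 * ω) * κ ^ (1 - 4 * ω) := Real.mul_rpow ha10.le hκ.le
      _ ≤ a1 * κ ^ (1 - 4 * ω) := by
          apply mul_le_mul_of_nonneg_right _ (by positivity)
          calc a1 ^ (1 - 4 * ω) ≤ a1 ^ (1:ℝ) := Real.rpow_le_rpow_of_exponent_le ha11 (by linarith)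
            _ = a1 := Real.rpow_one _
      _ = a1 * x1^2 := by
          rw [hx1, ← Real.rpow_natCast, ← Real.rpow_mul hκ.le]; congr 2; push_cast; ring
  have e2 : (q:ℝ) = x2^2 := by
    rw [hx2, ← Real.rpow_natCast, ← Real.rpow_mul hq0.le]; norm_num
  have eN : ((N:ℝ) ^ (-(1/2):ℝ))^2 = (N:ℝ)⁻¹ := by
    rw [← Real.rpow_natCast, ← Real.rpow_mul hN'.le, show (-(1/2):ℝ) * ((2:ℕ):ℝ) = -1 by norm_num, Real.rpow_neg_one]
  have eU : ((q + κ) ^ (1/2:ℝ))^2 = q + κ := by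
    rw [← Real.rpow_natCast, ← Real.rpow_mul (by positivity)]; norm_num
  have e3 : (3 * (q + κ) / (α * N)) * (q:ℝ)^2 = (3/α) * x3^2 := by
    rw [hx3, mul_pow, mul_pow, eN, eU]
    field_simp
  have e4 : (3 * (q + κ) / (α * N)) * (q^3 / κ) * (max κ 1) ^ (4 * ω) * (q:ℝ) ^ (4 * ω) ≤ (3/α) * a1 * x4^2 := by
    have e5 : (max κ 1) ^ (4 * ω) ≤ a1 * κ ^ (4 * ω) := by
      calc (max κ 1) ^ (4 * ω) ≤ (a1 * κ) ^ (4 * ω) := Real.rpow_le_rpow hm0.le hκ1 (by positivity)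
        _ = a1 ^ (4 * ω) * κ ^ (4 * ω) := Real.mul_rpow ha10.le hκ.le
        _ ≤ a1 * κ ^ (4 * ω) := by
            apply mul_le_mul_of_nonneg_right _ (by positivity)
            calc a1 ^ (4 * ω) ≤ a1 ^ (1:ℝ) := Real.rpow_le_rpow_of_exponent_le ha11 (by linarith)
              _ = a1 := Real.rpow_one _
    have e6 : x4^2 = (q + κ) * (q:ℝ) ^ (3 + 4 * ω) * κ ^ (4 * ω - 1) * (N:ℝ)⁻¹ := by
      rw [hx4, mul_pow, mul_pow, mul_pow, eN, eU, ← Real.rpow_natCast ((q:ℝ) ^ ((3 + 4 * ω)/2)),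
        ← Real.rpow_mul hq0.le, ← Real.rpow_natCast (κ ^ ((4 * ω - 1)/2)), ← Real.rpow_mul hκ.le]
      congr 1
      congr 1
      · congr 2
        push_cast; ring
      · congr 1
        push_cast; ring
    have e7 : (q:ℝ)^3 * (q:ℝ) ^ (4 * ω) = (q:ℝ) ^ (3 + 4 * ω) := by
      rw [Real.rpow_add hq0]; norm_num
    have e8 : κ ^ (4 * ω) / κ = κ ^ (4 * ω - 1) := by
      rw [Real.rpow_sub hκ, Real.rpow_one]
    calc (3 * (q + κ) / (α * N)) * (q^3 / κ) * (max κ 1) ^ (4 * ω) * (q:ℝ) ^ (4 * ω)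
        ≤ (3 * (q + κ) / (α * N)) * (q^3 / κ) * (a1 * κ ^ (4 * ω)) * (q:ℝ) ^ (4 * ω) := by gcongr
      _ = (3/α) * a1 * ((q + κ) * ((q:ℝ)^3 * (q:ℝ) ^ (4 * ω)) * (κ ^ (4 * ω) / κ) * (N:ℝ)⁻¹) := by
          field_simp
      _ = _ := by rw [e7, e8, e6]
  have hbd : n^2 ≤ D * (x1^2 + x2^2 + x3^2 + x4^2) := by
    have g1 : 80 * (max κ 1) ^ (1 - 4 * ω) ≤ 80 * a1 * x1^2 := by linarith
    have g2 : 32 * (q:ℝ) = 32 * x2^2 := by rw [← e2]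
    have g3 : 1024 * (3 * (q + κ) / (α * N)) * (q:ℝ)^2 = 1024 * (3/α) * x3^2 := by
      rw [mul_assoc, e3]; ring
    have g4 : 4096 * (1 + 1/(4 * ω)) * (3 * (q + κ) / (α * N)) * (q^3 / κ) * (max κ 1) ^ (4 * ω) * (q:ℝ) ^ (4 * ω) ≤
        4096 * (1 + 1/(4 * ω)) * (3/α) * a1 * x4^2 := by
      calc 4096 * (1 + 1/(4 * ω)) * (3 * (q + κ) / (α * N)) * (q^3 / κ) * (max κ 1) ^ (4 * ω) * (q:ℝ) ^ (4 * ω)
          = 4096 * (1 + 1/(4 * ω)) * ((3 * (q + κ) / (α * N)) * (q^3 / κ) * (max κ 1) ^ (4 * ω) * (q:ℝ) ^ (4 * ω)) := by ring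
        _ ≤ 4096 * (1 + 1/(4 * ω)) * ((3/α) * a1 * x4^2) := mul_le_mul_of_nonneg_left e4 (by positivity)
        _ = _ := by ring
    have z1 : 80 * a1 * x1^2 ≤ D * x1^2 := by
      apply mul_le_mul_of_nonneg_right _ (sq_nonneg _)
      rw [hD]
      have : 0 ≤ 1024 * (3/α) + 4096 * (1 + 1/(4 * ω)) * (3/α) * a1 := by positivity
      linarith
    have z2 : 32 * x2^2 ≤ D * x2^2 := by
      apply mul_le_mul_of_nonneg_right _ (sq_nonneg _)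
      rw [hD]
      have : 0 ≤ 80 * a1 + 1024 * (3/α) + 4096 * (1 + 1/(4 * ω)) * (3/α) * a1 := by positivity
      linarith
    have z3 : 1024 * (3/α) * x3^2 ≤ D * x3^2 := by
      apply mul_le_mul_of_nonneg_right _ (sq_nonneg _)
      rw [hD]
      have : 0 ≤ 80 * a1 + 4096 * (1 + 1/(4 * ω)) * (3/α) * a1 := by positivity
      linarith
    have z4 : 4096 * (1 + 1/(4 * ω)) * (3/α) * a1 * x4^2 ≤ D * x4^2 := by
      apply mul_le_mul_of_nonneg_right _ (sq_nonneg _)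
      rw [hD]
      have : 0 ≤ 80 * a1 + 1024 * (3/α) := by positivity
      linarith
    linarith
  have hS0 : 0 ≤ x1 + x2 + x3 + x4 := by positivity
  have hsq : x1^2 + x2^2 + x3^2 + x4^2 ≤ (x1 + x2 + x3 + x4)^2 := by
    nlinarith [mul_nonneg y1 y2, mul_nonneg y1 y3, mul_nonneg y1 y4, mul_nonneg y2 y3, mul_nonneg y2 y4, mul_nonneg y3 y4]
  have hfin : n^2 ≤ ((D + 1) * (x1 + x2 + x3 + x4))^2 := by
    calc n^2 ≤ D * (x1^2 + x2^2 + x3^2 + x4^2) := hbd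
      _ ≤ D * (x1 + x2 + x3 + x4)^2 := mul_le_mul_of_nonneg_left hsq hD0.le
      _ ≤ (D + 1)^2 * (x1 + x2 + x3 + x4)^2 := by
          apply mul_le_mul_of_nonneg_right _ (sq_nonneg _)
          nlinarith
      _ = _ := by ring
  exact le_of_sq_le_sq hfin (by positivity)

end Pool.Agent.H452R2.Win
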