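import Mathlib
import Pool.Agent.H452R2.Win.W2
import Pool.Agent.H383.QT2

open Set Filter Topology
open Pool.Agent.H383.Gauss

namespace Pool.Agent.H452R2.Win

variable {ω : ℝ}

lemma hw_zero (hω : ω < 3/2) (δ : ℝ) : hw ω δ 0 = 0 := by
  unfold hw
  rw [Real.zero_rpow (by linarith), zero_mul]

lemma hw_nonneg' (hω : ω < 3/2) {δ : ℝ} (hδ : 0 < δ) (j : ℕ) : 0 ≤ hw ω δ (√(j:ℝ)) := by
  rcases Nat.eq_zero_or_pos j with rfl | hj
  · simp [hw_zero hω]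
  · exact hw_nonneg hδ (Real.sqrt_pos.mpr (by exact_mod_cast hj))

lemma nr_hw (hω : 0 < ω) (hω1 : ω ≤ 1) {α : ℝ} (hα : 0 < α) {N k i j q : ℕ} {δ : ℝ} (hδ : 0 < δ) (hN : 1 ≤ N) (hN2 : 1 ≤ α * N) (hq : 1 ≤ q)
    (hj : j ∈ Finset.Ico (q^2) ((q+1)^2)) (h : nr α N k i j) : hw ω δ (√(i:ℝ)) ≤ 8 * hw ω δ (q + k/α) := by
  have hN' : (0:ℝ) < N := by exact_mod_cast hN
  have hq' : (1:ℝ) ≤ q := by exact_mod_cast hq
  obtain ⟨h1, h2⟩ := sqrt_block hj
  have h3 := nr_dist hα hN h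
  have hk : (0:ℝ) ≤ k/α := by positivity
  have h4 : 1 / (2 * α * N) ≤ 1/2 := by
    rw [div_le_div_iff₀ (by positivity) (by norm_num)]; linarith
  have h5 : (q + k/α)/2 ≤ √(i:ℝ) := by
    have := (abs_le.mp (h3.trans h4)).1
    linarith
  refine (hw_anti hω1 hδ (by positivity) h5).trans ?_
  exact hw_half hω.le hδ (by positivity)

open Classical in
/-- the contribution of a single `k` -/
lemma one_k2 (hω : 0 < ω) (hω1 : ω ≤ 1) {α : ℝ} (hα : 0 < α) {N k : ℕ} (hN : 1 ≤ N) (hN2 : 1 ≤ α * N) {M Y : ℕ} (hM : 1 ≤ M)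
    (hY : 2 * (Y:ℝ) ≤ α * N) {δ : ℝ} (hδ : 0 < δ) :
    ∑ j ∈ Finset.Ioc (M^2) (Y^2), ∑ i ∈ Finset.Ioc (M^2) (Y^2),
      hw ω δ (√(i:ℝ)) * hw ω δ (√(j:ℝ)) * (if nr α N k i j then 1 else 0) ≤
    ∑ q ∈ Finset.Icc M Y, 16 * (hw ω δ q * hw ω δ (q + k/α)) * ((NS (k/α) (3 * (q + k/α) / (α * N)) q).card : ℝ) := by
  have hN' : (0:ℝ) < N := by exact_mod_cast hN
  have hfn' : ∀ j : ℕ, 0 ≤ hw ω δ (√(j:ℝ)) := hw_nonneg' (by linarith) hδ
  refine (block_sum M Y _ ?_).trans ?_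
  · intro j
    apply Finset.sum_nonneg
    intro i _
    have := hfn' i
    have := hfn' j
    split_ifs <;> [skip; simp]
    positivity
  · apply Finset.sum_le_sum
    intro q hq
    rw [Finset.mem_Icc] at hq
    have hq1 : 1 ≤ q := by omega
    have hq' : (1:ℝ) ≤ q := by exact_mod_cast hq1
    have hq0 : (0:ℝ) < q := by linarith
    have hfq0 : 0 ≤ hw ω δ (q:ℝ) := hw_nonneg hδ hq0
    have hfU0 : 0 ≤ hw ω δ (q + k/α) := hw_nonneg hδ (by positivity)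
    have hj1 : ∀ j ∈ Finset.Ico (q^2) ((q+1)^2), ∑ i ∈ Finset.Ioc (M^2) (Y^2),
        hw ω δ (√(i:ℝ)) * hw ω δ (√(j:ℝ)) * (if nr α N k i j then 1 else 0) ≤
        if nc α N k q j then 16 * (hw ω δ q * hw ω δ (q + k/α)) else 0 := by
      intro j hj
      have hjq := (sqrt_block hj).1
      have hfj : hw ω δ (√(j:ℝ)) ≤ hw ω δ q := hw_anti hω1 hδ hq0 hjq
      have e1 : ∑ i ∈ Finset.Ioc (M^2) (Y^2),
        hw ω δ (√(i:ℝ)) * hw ω δ (√(j:ℝ)) * (if nr α N k i j then 1 else 0) =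
        ∑ i ∈ (Finset.Ioc (M^2) (Y^2)).filter (fun i => nr α N k i j),
          hw ω δ (√(i:ℝ)) * hw ω δ (√(j:ℝ)) := by
        rw [Finset.sum_filter]
        apply Finset.sum_congr rfl
        intro i _
        split_ifs <;> simp
      rw [e1]
      by_cases hne : ((Finset.Ioc (M^2) (Y^2)).filter (fun i => nr α N k i j)).Nonempty
      · obtain ⟨i0, hi0⟩ := hne
        rw [Finset.mem_filter] at hi0
        rw [if_pos (nr_nc hα hN (by linarith) hq1 hj hi0.2)]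
        have hc := nr_count (k := k) (j := j) hα hN hY (Finset.Ioc (M^2) (Y^2)) (fun i hi => (Finset.mem_Ioc.mp hi).2)
        calc ∑ i ∈ (Finset.Ioc (M^2) (Y^2)).filter (fun i => nr α N k i j), hw ω δ (√(i:ℝ)) * hw ω δ (√(j:ℝ))
            ≤ ∑ i ∈ (Finset.Ioc (M^2) (Y^2)).filter (fun i => nr α N k i j), (8 * hw ω δ (q + k/α)) * hw ω δ q := by
              apply Finset.sum_le_sum
              intro i hi
              rw [Finset.mem_filter] at hi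
              have a1 := nr_hw hω hω1 hα hδ hN hN2 hq1 hj hi.2
              exact mul_le_mul a1 hfj (hfn' j) (by positivity)
          _ = ((Finset.Ioc (M^2) (Y^2)).filter (fun i => nr α N k i j)).card * ((8 * hw ω δ (q + k/α)) * hw ω δ q) := by
              rw [Finset.sum_const, nsmul_eq_mul]
          _ ≤ 2 * ((8 * hw ω δ (q + k/α)) * hw ω δ q) := by
              apply mul_le_mul_of_nonneg_right hc (by positivity)
          _ = _ := by ring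
      · rw [Finset.not_nonempty_iff_eq_empty] at hne
        rw [hne, Finset.sum_empty]
        split_ifs
        · positivity
        · exact le_rfl
    refine (Finset.sum_le_sum hj1).trans ?_
    rw [← Finset.sum_filter, Finset.sum_const, nsmul_eq_mul, mul_comm]
    apply mul_le_mul_of_nonneg_left _ (by positivity)
    apply le_of_eq
    unfold NS nc
    congr 2

/-- the limiting tail -/
noncomputable def Tw (ω : ℝ) (M : ℕ) : ℝ := ∑' q : ℕ, ((M + q : ℕ):ℝ) ^ (-(1 + ω))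

lemma summable_w (hω : 0 < ω) : Summable (fun k : ℕ => (k:ℝ) ^ (-(1 + ω))) := by
  rw [Real.summable_nat_rpow]; linarith

lemma Tw_nonneg (ω : ℝ) (M : ℕ) : 0 ≤ Tw ω M := tsum_nonneg (fun q => by positivity)

lemma Tw_tendsto (hω : 0 < ω) : Tendsto (Tw ω) atTop (𝓝 0) := by
  have h := tendsto_sum_nat_add (fun k : ℕ => (k:ℝ) ^ (-(1 + ω)))
  refine h.congr ?_
  intro M
  unfold Tw
  apply tsum_congr
  intro q
  rw [add_comm]

lemma sum_le_Tw (hω : 0 < ω) (M Y : ℕ) : ∑ q ∈ Finset.Icc M Y, (q:ℝ) ^ (-(1 + ω)) ≤ Tw ω M := by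
  have hs : Summable (fun q : ℕ => ((M + q : ℕ):ℝ) ^ (-(1 + ω))) := by
    have := (summable_nat_add_iff M).mpr (summable_w hω)
    refine this.congr ?_
    intro q
    rw [add_comm]
  have h1 : ∑ q ∈ Finset.Icc M Y, (q:ℝ) ^ (-(1 + ω)) ≤
      ∑ q ∈ Finset.range (Y + 1 - M), ((M + q : ℕ):ℝ) ^ (-(1 + ω)) := by
    have h2 : Finset.Icc M Y = Finset.Ico M (Y + 1) := by
      ext x; simp only [Finset.mem_Icc, Finset.mem_Ico]; omega
    rw [h2, Finset.sum_Ico_eq_sum_range]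
  exact h1.trans (hs.sum_le_tsum _ (fun q _ => by positivity))

/-- the off-diagonal and diagonal contributions together -/
theorem quad_tail_win (hω : 0 < ω) (hω1 : ω ≤ 1/100) {α : ℝ} (hα : 0 < α) {C1 : ℝ} (hC1 : 0 < C1) : ∃ C : ℝ, 0 < C ∧ ∃ N0 : ℕ,
    ∀ (N : ℕ) (δ : ℝ) (b : ℕ → ℂ) (M Y : ℕ),
    N0 ≤ N → 0 < δ → δ ≤ 1 → δ ^ (-(1/2 + 8 * ω)) ≤ (N:ℝ) ^ (1/2:ℝ) →
    1 ≤ M → 2 * (Y:ℝ) ≤ α * N → (∀ m, 1 ≤ m → ‖b m‖ ≤ C1 * hw ω δ (√(m:ℝ))) →
    ∑ i ∈ Finset.Ioc (M^2) (Y^2), ∑ j ∈ Finset.Ioc (M^2) (Y^2),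
      ‖b i‖ * ‖b j‖ *
      near N (α * √(i:ℝ) - α * √(j:ℝ)) ≤ C * Tw ω M := by
  classical
  obtain ⟨C2, hC2, hnc⟩ := NS_card (ω := ω) hα hω hω1
  set Z : ℝ := ∑' k : ℕ, (k:ℝ) ^ (-(1 + ω)) with hZ
  have hZ0 : 0 ≤ Z := tsum_nonneg (fun k => by positivity)
  refine ⟨C1^2 * (3 + 2 * (64 * C2 * (α ^ (1 + ω) * Z))), by positivity, ⌈1/α⌉₊ + 1, ?_⟩
  intro N δ b M Y hN0 hδ0 hδ1 hδN hM hY hb
  have hN1 : 1 ≤ N := by omega
  have hN' : (1:ℝ) ≤ N := by exact_mod_cast hN1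
  have hNp : (0:ℝ) < N := by linarith
  have hN2 : 1 ≤ α * N := by
    have h1 : 1/α ≤ N := by
      refine (Nat.le_ceil _).trans ?_
      exact_mod_cast (by omega : ⌈1/α⌉₊ ≤ N)
    rw [div_le_iff₀ hα] at h1
    linarith
  set S := Finset.Ioc (M^2) (Y^2) with hS
  set h : ℕ → ℝ := fun j => hw ω δ (√(j:ℝ)) with hh
  have hh0 : ∀ j, 0 ≤ h j := fun j => hw_nonneg' (by linarith) hδ0 j
  set T := ∑ q ∈ Finset.Icc M Y, (q:ℝ) ^ (-(1 + ω)) with hT
  have hT0 : 0 ≤ T := Finset.sum_nonneg (fun q _ => by positivity)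
  -- step 1
  have s1 : ∑ i ∈ S, ∑ j ∈ S, ‖b i‖ * ‖b j‖ * near N (α * √(i:ℝ) - α * √(j:ℝ)) ≤
      ∑ i ∈ S, ∑ j ∈ S, (C1 * h i) * (C1 * h j) * ((if i = j then 1 else 0) +
      ∑ k ∈ Finset.Icc 1 (⌈α * Y⌉₊ + 1), ((if nr α N k i j then 1 else 0) + (if nr α N k j i then 1 else 0))) := by
    apply Finset.sum_le_sum
    intro i hi
    apply Finset.sum_le_sum
    intro j hj
    rw [hS, Finset.mem_Ioc] at hi hj
    have hi1 : 1 ≤ i := by omega
    have hj1 : 1 ≤ j := by omega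
    have a1 := hb i hi1
    have a2 := hb j hj1
    have a3 := near_le hα hN1 hY hi.2 hj.2
    have a4 := hh0 i
    have a5 := hh0 j
    apply mul_le_mul (mul_le_mul a1 a2 (norm_nonneg _) (by positivity)) a3 (near_nonneg _ _) (by positivity)
  -- step 2 : expand
  have s2 : ∑ i ∈ S, ∑ j ∈ S, (C1 * h i) * (C1 * h j) * ((if i = j then 1 else 0) +
      ∑ k ∈ Finset.Icc 1 (⌈α * Y⌉₊ + 1), ((if nr α N k i j then 1 else 0) + (if nr α N k j i then 1 else 0))) =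
      C1^2 * (∑ i ∈ S, (h i)^2 + 2 * ∑ k ∈ Finset.Icc 1 (⌈α * Y⌉₊ + 1),
        ∑ j ∈ S, ∑ i ∈ S, h i * h j * (if nr α N k i j then 1 else 0)) := by
    have e1 : ∀ i ∈ S, ∑ j ∈ S, (C1 * h i) * (C1 * h j) * ((if i = j then 1 else 0) +
      ∑ k ∈ Finset.Icc 1 (⌈α * Y⌉₊ + 1), ((if nr α N k i j then (1:ℝ) else 0) + (if nr α N k j i then 1 else 0))) =
      C1^2 * ((h i)^2 + ∑ j ∈ S, ∑ k ∈ Finset.Icc 1 (⌈α * Y⌉₊ + 1),
        (h i * h j * (if nr α N k i j then 1 else 0) + h i * h j * (if nr α N k j i then 1 else 0))) := by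
      intro i hi
      have e2 : (h i)^2 = ∑ j ∈ S, h i * h j * (if i = j then 1 else 0) := by
        simp only [mul_ite, mul_one, mul_zero]
        rw [Finset.sum_ite_eq, if_pos hi]; ring
      rw [e2, ← Finset.sum_add_distrib, Finset.mul_sum]
      apply Finset.sum_congr rfl
      intro j _
      rw [mul_add, Finset.mul_sum, mul_add, Finset.mul_sum]
      congr 1
      · ring
      · apply Finset.sum_congr rfl
        intro k _
        ring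
    rw [Finset.sum_congr rfl e1, ← Finset.mul_sum, Finset.sum_add_distrib]
    congr 2
    have e3 : ∑ i ∈ S, ∑ j ∈ S, ∑ k ∈ Finset.Icc 1 (⌈α * Y⌉₊ + 1),
        (h i * h j * (if nr α N k i j then 1 else 0) + h i * h j * (if nr α N k j i then 1 else 0)) =
        ∑ k ∈ Finset.Icc 1 (⌈α * Y⌉₊ + 1), (∑ i ∈ S, ∑ j ∈ S, h i * h j * (if nr α N k i j then 1 else 0) +
          ∑ i ∈ S, ∑ j ∈ S, h i * h j * (if nr α N k j i then 1 else 0)) := by
      rw [Finset.sum_congr rfl (fun i _ => Finset.sum_comm), Finset.sum_comm]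
      apply Finset.sum_congr rfl
      intro k _
      rw [← Finset.sum_add_distrib]
      apply Finset.sum_congr rfl
      intro i _
      rw [← Finset.sum_add_distrib]
    rw [e3, Finset.mul_sum]
    apply Finset.sum_congr rfl
    intro k _
    have e4 : ∑ i ∈ S, ∑ j ∈ S, h i * h j * (if nr α N k i j then (1:ℝ) else 0) =
        ∑ j ∈ S, ∑ i ∈ S, h i * h j * (if nr α N k i j then 1 else 0) := Finset.sum_comm
    have e5 : ∑ i ∈ S, ∑ j ∈ S, h i * h j * (if nr α N k j i then (1:ℝ) else 0) =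
        ∑ j ∈ S, ∑ i ∈ S, h i * h j * (if nr α N k i j then 1 else 0) := by
      apply Finset.sum_congr rfl
      intro i _
      apply Finset.sum_congr rfl
      intro j _
      ring
    rw [e4, e5]; ring
  -- diagonal
  have s3 : ∑ i ∈ S, (h i)^2 ≤ 3 * T := by
    refine (block_sum M Y _ (fun j => by positivity)).trans ?_
    rw [hT, Finset.mul_sum]
    apply Finset.sum_le_sum
    intro q hq
    rw [Finset.mem_Icc] at hq
    have hq1 : 1 ≤ q := by omega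
    have hq' : (1:ℝ) ≤ q := by exact_mod_cast hq1
    have hq0 : (0:ℝ) < q := by linarith
    have hb : ∀ j ∈ Finset.Ico (q^2) ((q+1)^2), (h j)^2 ≤ (q:ℝ) ^ (-3 + 2 * ω) := by
      intro j hj
      have hjq := (sqrt_block hj).1
      have h1 : h j ≤ (q:ℝ) ^ (-(3/2) + ω) := by
        refine (hw_anti (by linarith) hδ0 hq0 hjq).trans ?_
        unfold hw
        have : min 1 ((δ * q) ^ (-(3/2):ℝ)) ≤ 1 := min_le_left _ _
        have h2 : (0:ℝ) ≤ (q:ℝ) ^ (-(3/2) + ω) := by positivity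
        nlinarith
      calc (h j)^2 ≤ ((q:ℝ) ^ (-(3/2) + ω))^2 := pow_le_pow_left₀ (hh0 j) h1 2
        _ = _ := by rw [← Real.rpow_natCast, ← Real.rpow_mul hq0.le]; congr 1; push_cast; ring
    calc ∑ j ∈ Finset.Ico (q^2) ((q+1)^2), (h j)^2 ≤ ∑ j ∈ Finset.Ico (q^2) ((q+1)^2), (q:ℝ) ^ (-3 + 2 * ω) :=
          Finset.sum_le_sum hb
      _ = (2 * q + 1) * (q:ℝ) ^ (-3 + 2 * ω) := by
          rw [Finset.sum_const, Nat.card_Ico, nsmul_eq_mul]
          congr 1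
          have : (q+1)^2 - q^2 = 2 * q + 1 := by
            have : (q+1)^2 = q^2 + (2 * q + 1) := by ring
            omega
          rw [this]; push_cast; ring
      _ ≤ (3 * q) * (q:ℝ) ^ (-3 + 2 * ω) := by
          apply mul_le_mul_of_nonneg_right _ (by positivity); linarith
      _ = 3 * ((q:ℝ) ^ (1:ℝ) * (q:ℝ) ^ (-3 + 2 * ω)) := by rw [Real.rpow_one]; ring
      _ = 3 * (q:ℝ) ^ (1 + (-3 + 2 * ω)) := by rw [← Real.rpow_add hq0]
      _ ≤ 3 * (q:ℝ) ^ (-(1 + ω)) := by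
          apply mul_le_mul_of_nonneg_left _ (by norm_num)
          exact Real.rpow_le_rpow_of_exponent_le hq' (by linarith)
  -- off diagonal
  have s4 : ∀ k ∈ Finset.Icc 1 (⌈α * Y⌉₊ + 1), ∑ j ∈ S, ∑ i ∈ S, h i * h j * (if nr α N k i j then 1 else 0) ≤
      64 * C2 * (k/α : ℝ) ^ (-(1 + ω)) * T := by
    intro k hk
    rw [Finset.mem_Icc] at hk
    have hk' : (1:ℝ) ≤ k := by exact_mod_cast hk.1
    have hκ : (0:ℝ) < k/α := by positivity
    refine (one_k2 hω (by linarith) hα hN1 hN2 hM hY hδ0).trans ?_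
    rw [hT, Finset.mul_sum]
    apply Finset.sum_le_sum
    intro q hq
    rw [Finset.mem_Icc] at hq
    have hq1 : 1 ≤ q := by omega
    have hq' : (1:ℝ) ≤ q := by exact_mod_cast hq1
    have hq0 : (0:ℝ) < q := by linarith
    have h1 := hnc N k q hN1 hk.1 hq1
    have h2 := pw2 (N := N) (q := q) (κ := k/α) hω hω1 hNp hδ0 hδ1 hδN hq' hκ
    have hH0 : 0 ≤ hw ω δ (q:ℝ) * hw ω δ (q + k/α) :=
      mul_nonneg (hw_nonneg hδ0 hq0) (hw_nonneg hδ0 (by positivity))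
    set H := hw ω δ (q:ℝ) * hw ω δ (q + k/α) with hH
    set G := ((k/α) ^ ((1 - 4 * ω)/2) + (q:ℝ) ^ (1/2:ℝ) + q * (q + k/α) ^ (1/2:ℝ) * (N:ℝ) ^ (-(1/2):ℝ) +
      (q + k/α) ^ (1/2:ℝ) * (q:ℝ) ^ ((3 + 4 * ω)/2) * (k/α) ^ ((4 * ω - 1)/2) * (N:ℝ) ^ (-(1/2):ℝ)) with hG
    calc _ ≤ 16 * H * (C2 * G) :=
          mul_le_mul_of_nonneg_left h1 (by positivity)
      _ = 16 * C2 * (G * H) := by ring
      _ ≤ 16 * C2 * (4 * ((k/α) ^ (-(1 + ω)) * q ^ (-(1 + ω)))) :=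
          mul_le_mul_of_nonneg_left h2 (by positivity)
      _ = _ := by ring
  have s5 : ∑ k ∈ Finset.Icc 1 (⌈α * Y⌉₊ + 1), (k/α : ℝ) ^ (-(1 + ω)) ≤ α ^ (1 + ω) * Z := by
    have e : ∀ k ∈ Finset.Icc 1 (⌈α * Y⌉₊ + 1), (k/α : ℝ) ^ (-(1 + ω)) = α ^ (1 + ω) * (k:ℝ) ^ (-(1 + ω)) := by
      intro k _
      rw [Real.div_rpow (by positivity) hα.le, Real.rpow_neg hα.le, div_inv_eq_mul, mul_comm]
    rw [Finset.sum_congr rfl e, ← Finset.mul_sum]
    apply mul_le_mul_of_nonneg_left _ (by positivity)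
    exact (summable_w hω).sum_le_tsum _ (fun k _ => by positivity)
  calc _ ≤ _ := s1
    _ = _ := s2
    _ ≤ C1^2 * (3 * T + 2 * (64 * C2 * (α ^ (1 + ω) * Z) * T)) := by
        have a1 : ∑ k ∈ Finset.Icc 1 (⌈α * Y⌉₊ + 1), ∑ j ∈ S, ∑ i ∈ S, h i * h j * (if nr α N k i j then 1 else 0) ≤
            64 * C2 * (α ^ (1 + ω) * Z) * T := by
          calc _ ≤ ∑ k ∈ Finset.Icc 1 (⌈α * Y⌉₊ + 1), 64 * C2 * (k/α : ℝ) ^ (-(1 + ω)) * T :=
                Finset.sum_le_sum s4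
            _ = 64 * C2 * (∑ k ∈ Finset.Icc 1 (⌈α * Y⌉₊ + 1), (k/α : ℝ) ^ (-(1 + ω))) * T := by
                rw [← Finset.sum_mul, ← Finset.mul_sum]
            _ ≤ _ := by
                apply mul_le_mul_of_nonneg_right _ hT0
                apply mul_le_mul_of_nonneg_left s5 (by positivity)
        apply mul_le_mul_of_nonneg_left _ (by positivity)
        linarith
    _ = C1^2 * (3 + 2 * (64 * C2 * (α ^ (1 + ω) * Z))) * T := by ring
    _ ≤ _ := by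
        apply mul_le_mul_of_nonneg_left (sum_le_Tw hω M Y) (by positivity)

/-- mean square of the middle range -/
lemma mid_ms (hω : 0 < ω) (hω1 : ω ≤ 1/100) {α : ℝ} (hα : 0 < α) {C1 : ℝ} (hC1 : 0 < C1) : ∃ C : ℝ, 0 < C ∧ ∃ N0 : ℕ,
    ∀ (N : ℕ) (δ : ℝ) (b : ℕ → ℂ) (M Y : ℕ),
    N0 ≤ N → 0 < δ → δ ≤ 1 → δ ^ (-(1/2 + 8 * ω)) ≤ (N:ℝ) ^ (1/2:ℝ) →
    1 ≤ M → 2 * (Y:ℝ) ≤ α * N → (∀ m, 1 ≤ m → ‖b m‖ ≤ C1 * hw ω δ (√(m:ℝ))) →
    ∑ n ∈ Finset.range N, ‖∑ m ∈ Finset.Ioc (M^2) (Y^2), b m *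
      Complex.exp (((2 * Real.pi * (n * (α * √(m:ℝ))) : ℝ) : ℂ) * Complex.I)‖^2 ≤ C * N * Tw ω M := by
  obtain ⟨C, hC, N0, h⟩ := quad_tail_win hω hω1 hα hC1
  refine ⟨8 * C, by positivity, N0 + 1, ?_⟩
  intro N δ b M Y hN hδ0 hδ1 hδN hM hY hb
  have hN1 : 1 ≤ N := by omega
  have h1 := h N δ b M Y (by omega) hδ0 hδ1 hδN hM hY hb
  have h2 := ls (Finset.Ioc (M^2) (Y^2)) b (fun m => α * √(m:ℝ)) hN1
  calc ∑ n ∈ Finset.range N, ‖∑ m ∈ Finset.Ioc (M^2) (Y^2), b m *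
      Complex.exp (((2 * Real.pi * (n * (α * √(m:ℝ))) : ℝ) : ℂ) * Complex.I)‖^2
      ≤ ∑ n ∈ Finset.range (N+1), ‖∑ m ∈ Finset.Ioc (M^2) (Y^2), b m *
      Complex.exp (((2 * Real.pi * (n * (α * √(m:ℝ))) : ℝ) : ℂ) * Complex.I)‖^2 := by
        apply Finset.sum_le_sum_of_subset_of_nonneg
        · exact Finset.range_subset_range.mpr (by omega)
        · intro _ _ _; positivity
    _ ≤ _ := h2
    _ ≤ 8 * N * (C * Tw ω M) := by
        apply mul_le_mul_of_nonneg_left h1 (by positivity)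
    _ = _ := by ring

end Pool.Agent.H452R2.Win
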