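import Mathlib
import Pool.Agent.H452R2.Win.W3

open Set Filter Topology
open Pool.Agent.H383.Gauss

namespace Pool.Agent.H452R2.Win

/-- the inner sums in the Schur test -/
lemma inner_bound {α : ℝ} (hα : 0 < α) {δ : ℝ} (hδ : 0 < δ) {L Y : ℕ} (hL : 1 ≤ L) (t : ℝ) :
    ∑ j ∈ Finset.Icc 1 (Y^2), near L (t - α * √(j:ℝ)) * ((1/√(j:ℝ)) * min 1 (1/(δ * √(j:ℝ)))) ≤
      (α + 2) * ((1 + 4/α) * (1 + 1/(L*δ))) * (1 + Real.log Y) := by
  have hL' : (1:ℝ) ≤ L := by exact_mod_cast hL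
  set p : ℕ → ℝ := fun m => (1/√(m:ℝ)) * min 1 (1/(δ * √(m:ℝ))) with hp
  have h1 := sum_blocks (t := t) hα hL Y p (fun q => if q = 0 then 0 else (1/(q:ℝ)) * min 1 (1/(δ * q)))
    (fun q => by split_ifs; exact le_rfl; positivity) ?_
  · refine h1.trans ?_
    have h2 : ∀ q ∈ Finset.Icc 1 Y, (α + 2) * (1 + 2 * ((q:ℝ)+1) / (α * L)) * (if q = 0 then 0 else (1/(q:ℝ)) * min 1 (1/(δ * q))) ≤
        (α + 2) * ((1 + 4/α) * (1 + 1/(L*δ))) * (1/(q:ℝ)) := by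
      intro q hq
      rw [Finset.mem_Icc] at hq
      have hq' : (1:ℝ) ≤ q := by exact_mod_cast hq.1
      rw [if_neg (by omega), mul_assoc, mul_assoc]
      apply mul_le_mul_of_nonneg_left _ (by positivity)
      have e1 : (1 + 2 * ((q:ℝ)+1) / (α * L)) ≤ 1 + (4/α) * (q / L) := by
        have : 2 * ((q:ℝ)+1) / (α * L) ≤ (4/α) * (q / L) := by
          rw [div_mul_div_comm]
          apply div_le_div_of_nonneg_right _ (by positivity)
          linarith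
        linarith
      have e2 : (q / L) * min 1 (1/(δ * q)) ≤ 1/(L*δ) := by
        calc (q / L) * min 1 (1/(δ * q)) ≤ (q/L) * (1/(δ * q)) := by
              apply mul_le_mul_of_nonneg_left (min_le_right _ _) (by positivity)
          _ = 1/(L*δ) := by field_simp
      have e3 : min 1 (1/(δ * (q:ℝ))) ≤ 1 := min_le_left _ _
      have e4 : 0 ≤ min 1 (1/(δ * (q:ℝ))) := by positivity
      calc (1 + 2 * ((q:ℝ)+1) / (α * L)) * ((1/(q:ℝ)) * min 1 (1/(δ * q)))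
          ≤ (1 + (4/α) * (q / L)) * ((1/(q:ℝ)) * min 1 (1/(δ * q))) := by gcongr
        _ = (1/(q:ℝ)) * (min 1 (1/(δ * q)) + (4/α) * ((q / L) * min 1 (1/(δ * q)))) := by ring
        _ ≤ (1/(q:ℝ)) * (1 + (4/α) * (1/(L*δ))) := by gcongr
        _ ≤ (1/(q:ℝ)) * ((1 + 4/α) * (1 + 1/(L*δ))) := by
            apply mul_le_mul_of_nonneg_left _ (by positivity)
            have : 0 < 4/α := by positivity
            have : 0 < 1/(L*δ) := by positivity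
            nlinarith
        _ = _ := by ring
    refine (Finset.sum_le_sum h2).trans ?_
    rw [← Finset.mul_sum]
    exact mul_le_mul_of_nonneg_left (sum_inv_le Y) (by positivity)
  · intro m hm
    have hm0 : m ≠ 0 := by omega
    have h0 : Nat.sqrt m ≠ 0 := by
      intro h; rw [Nat.sqrt_eq_zero] at h; exact hm0 h
    simp only [hp]
    rw [if_neg h0]
    have h1 : (1:ℝ) ≤ Nat.sqrt m := by exact_mod_cast Nat.one_le_iff_ne_zero.mpr h0
    have h2 : (Nat.sqrt m : ℝ) ≤ √(m:ℝ) := Real.nat_sqrt_le_real_sqrt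
    gcongr

variable {ω : ℝ}

lemma high_quad (hω : 0 < ω) (hω1 : ω ≤ 1/100) {α : ℝ} (hα : 0 < α) {C1 : ℝ} (hC1 : 0 < C1) : ∃ C : ℝ, 0 < C ∧
    ∀ (N : ℕ) (δ : ℝ) (b : ℕ → ℂ) (Y1 Y : ℕ),
    1 ≤ N → 0 < δ → 1 ≤ Y1 → 1 ≤ Y → (∀ m, 1 ≤ m → ‖b m‖ ≤ C1 * hw ω δ (√(m:ℝ))) →
    ∑ i ∈ Finset.Ioc (Y1^2) (Y^2), ∑ j ∈ Finset.Ioc (Y1^2) (Y^2), ‖b i‖ * ‖b j‖ *
      near N (α * √(i:ℝ) - α * √(j:ℝ)) ≤
      C * (1 + 1/(N*δ)) * (1 + Real.log Y) * (δ ^ (-2:ℝ) * (Y1:ℝ) ^ (-2 + 4 * ω)) := by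
  set Z : ℝ := ∑' k : ℕ, (k:ℝ) ^ (-(1 + ω)) with hZ
  have hZ0 : 0 ≤ Z := tsum_nonneg (fun k => by positivity)
  refine ⟨(C1^2 * (Z + 1)) * ((α + 2) * (1 + 4/α)), by positivity, ?_⟩
  intro N δ b Y1 Y hN hδ hY1 hY hb
  have hN' : (1:ℝ) ≤ N := by exact_mod_cast hN
  have hY1' : (1:ℝ) ≤ Y1 := by exact_mod_cast hY1
  have hY' : (1:ℝ) ≤ Y := by exact_mod_cast hY
  have hlogY : 0 ≤ Real.log Y := Real.log_nonneg hY'
  set s := Finset.Ioc (Y1^2) (Y^2) with hs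
  set p : ℕ → ℝ := fun m => (1/√(m:ℝ)) * min 1 (1/(δ * √(m:ℝ))) with hp
  have hmem : ∀ m ∈ s, 1 ≤ m := by
    intro m hm
    rw [hs, Finset.mem_Ioc] at hm
    omega
  have hpos : ∀ m ∈ s, 0 < √(m:ℝ) := by
    intro m hm
    apply Real.sqrt_pos.mpr
    exact_mod_cast hmem m hm
  have hppos : ∀ m ∈ s, 0 < p m := by
    intro m hm
    have := hpos m hm
    simp only [hp]
    positivity
  have hsch := schur s (fun i => ‖b i‖) p (fun i j => near N (α * √(i:ℝ) - α * √(j:ℝ)))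
    hppos (fun i j => near_nonneg _ _) (fun i j => by
      rw [← near_symm]; congr 1; ring)
  refine hsch.trans ?_
  have hinner : ∀ i ∈ s, ∑ j ∈ s, near N (α * √(i:ℝ) - α * √(j:ℝ)) * p j ≤
      (α + 2) * ((1 + 4/α) * (1 + 1/(N*δ))) * (1 + Real.log Y) := by
    intro i _
    refine le_trans ?_ (inner_bound (Y := Y) hα hδ hN (α * √(i:ℝ)))
    apply Finset.sum_le_sum_of_subset_of_nonneg
    · intro m hm
      rw [hs, Finset.mem_Ioc] at hm
      rw [Finset.mem_Icc]; omega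
    · intro m _ _
      have := near_nonneg N (α * √(i:ℝ) - α * √(m:ℝ))
      positivity
  have houter : ∑ i ∈ s, ‖b i‖^2 / p i ≤ C1^2 * (δ ^ (-2:ℝ) * ((Y1:ℝ) ^ (-2 + 4 * ω) * (Z + 1))) := by
    have h1 : ∀ i ∈ s, ‖b i‖^2 / p i ≤ C1^2 * (δ ^ (-2:ℝ) * ((Y1:ℝ) ^ (-2 + 4 * ω) * (i:ℝ) ^ (-(1 + ω)))) := by
      intro i hi
      have hi1 := hmem i hi
      have hi0 : (0:ℝ) < i := by exact_mod_cast hi1
      have hsi := hpos i hi
      set x := √(i:ℝ) with hx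
      have hbi := hb i hi1
      rw [← hx] at hbi
      have hh0 : 0 ≤ hw ω δ x := hw_nonneg hδ hsi
      set y := δ * x with hy
      have hy0 : 0 < y := by positivity
      have hpi : p i = (1/x) * min 1 (1/y) := rfl
      -- bound for hw^2 / p
      have h2 : (hw ω δ x)^2 ≤ (x ^ (-4 + 2 * ω) * δ ^ (-2:ℝ)) * p i := by
        have e1 : (hw ω δ x)^2 = x ^ (-3 + 2 * ω) * (min 1 (y ^ (-(3/2):ℝ)))^2 := by
          unfold hw
          rw [mul_pow, ← Real.rpow_natCast (x ^ (-(3/2) + ω)), ← Real.rpow_mul hsi.le]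
          congr 2; push_cast; ring
        have e2 : (min 1 (y ^ (-(3/2):ℝ)))^2 ≤ y ^ (-2:ℝ) * min 1 (1/y) := by
          have hm0 : 0 ≤ min 1 (y ^ (-(3/2):ℝ)) := by positivity
          rcases le_or_gt y 1 with h | h
          · have a1 : min 1 (1/y) = 1 := min_eq_left (by rw [le_div_iff₀ hy0]; linarith)
            rw [a1, mul_one]
            have a2 : min 1 (y ^ (-(3/2):ℝ)) ≤ 1 := min_le_left _ _
            calc (min 1 (y ^ (-(3/2):ℝ)))^2 ≤ 1 := pow_le_one₀ hm0 a2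
              _ ≤ y ^ (-2:ℝ) := Real.one_le_rpow_of_pos_of_le_one_of_nonpos hy0 h (by norm_num)
          · have a1 : min 1 (1/y) = 1/y := min_eq_right (by rw [div_le_iff₀ hy0]; linarith)
            rw [a1]
            have a2 : min 1 (y ^ (-(3/2):ℝ)) ≤ y ^ (-(3/2):ℝ) := min_le_right _ _
            calc (min 1 (y ^ (-(3/2):ℝ)))^2 ≤ (y ^ (-(3/2):ℝ))^2 := pow_le_pow_left₀ hm0 a2 2
              _ = y ^ (-2:ℝ) * y ^ (-1:ℝ) := by
                  rw [← Real.rpow_natCast, ← Real.rpow_mul hy0.le, ← Real.rpow_add hy0]; norm_num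
              _ = _ := by rw [Real.rpow_neg_one]; ring
        rw [e1, hpi]
        calc x ^ (-3 + 2 * ω) * (min 1 (y ^ (-(3/2):ℝ)))^2 ≤ x ^ (-3 + 2 * ω) * (y ^ (-2:ℝ) * min 1 (1/y)) :=
              mul_le_mul_of_nonneg_left e2 (by positivity)
          _ = (x ^ (-3 + 2 * ω) * x ^ (-2:ℝ) * x ^ (1:ℝ)) * δ ^ (-2:ℝ) * ((1/x) * min 1 (1/y)) := by
              rw [hy, Real.mul_rpow hδ.le hsi.le, Real.rpow_one]
              field_simp
          _ = _ := by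
              rw [← Real.rpow_add hsi, ← Real.rpow_add hsi]
              ring_nf
      have h3 : ‖b i‖^2 / p i ≤ C1^2 * (x ^ (-4 + 2 * ω) * δ ^ (-2:ℝ)) := by
        rw [div_le_iff₀ (hppos i hi)]
        calc ‖b i‖^2 ≤ (C1 * hw ω δ x)^2 := pow_le_pow_left₀ (norm_nonneg _) hbi 2
          _ = C1^2 * (hw ω δ x)^2 := by ring
          _ ≤ C1^2 * ((x ^ (-4 + 2 * ω) * δ ^ (-2:ℝ)) * p i) := mul_le_mul_of_nonneg_left h2 (by positivity)
          _ = _ := by ring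
      refine h3.trans ?_
      apply mul_le_mul_of_nonneg_left _ (by positivity)
      rw [mul_comm]
      apply mul_le_mul_of_nonneg_left _ (by positivity)
      have hiY : (Y1:ℝ)^2 ≤ i := by
        rw [hs, Finset.mem_Ioc] at hi
        exact_mod_cast hi.1.le
      calc x ^ (-4 + 2 * ω) = (i:ℝ) ^ (-2 + ω) := by
            rw [hx, Real.sqrt_eq_rpow, ← Real.rpow_mul hi0.le]; congr 1; ring
        _ = (i:ℝ) ^ (-1 + 2 * ω) * (i:ℝ) ^ (-(1 + ω)) := by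
            rw [← Real.rpow_add hi0]; congr 1; ring
        _ ≤ ((Y1:ℝ)^2) ^ (-1 + 2 * ω) * (i:ℝ) ^ (-(1 + ω)) := by
            apply mul_le_mul_of_nonneg_right _ (by positivity)
            exact Real.rpow_le_rpow_of_nonpos (by positivity) hiY (by linarith)
        _ = _ := by
            rw [← Real.rpow_natCast, ← Real.rpow_mul (by positivity)]
            congr 2; push_cast; ring
    refine (Finset.sum_le_sum h1).trans ?_
    rw [← Finset.mul_sum, ← Finset.mul_sum, ← Finset.mul_sum]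
    apply mul_le_mul_of_nonneg_left _ (by positivity)
    apply mul_le_mul_of_nonneg_left _ (by positivity)
    apply mul_le_mul_of_nonneg_left _ (by positivity)
    have := (summable_w hω).sum_le_tsum s (fun k _ => by positivity)
    linarith
  calc ∑ i ∈ s, ‖b i‖^2 / p i * ∑ j ∈ s, near N (α * √(i:ℝ) - α * √(j:ℝ)) * p j
      ≤ ∑ i ∈ s, ‖b i‖^2 / p i * ((α + 2) * ((1 + 4/α) * (1 + 1/(N*δ))) * (1 + Real.log Y)) := by
        apply Finset.sum_le_sum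
        intro i hi
        have := hppos i hi
        exact mul_le_mul_of_nonneg_left (hinner i hi) (by positivity)
    _ = (∑ i ∈ s, ‖b i‖^2 / p i) * ((α + 2) * ((1 + 4/α) * (1 + 1/(N*δ))) * (1 + Real.log Y)) := by
        rw [Finset.sum_mul]
    _ ≤ (C1^2 * (δ ^ (-2:ℝ) * ((Y1:ℝ) ^ (-2 + 4 * ω) * (Z + 1)))) * ((α + 2) * ((1 + 4/α) * (1 + 1/(N*δ))) * (1 + Real.log Y)) := by
        apply mul_le_mul_of_nonneg_right houter (by positivity)
    _ = _ := by ring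

/-- mean square of the high range -/
lemma high_ms (hω : 0 < ω) (hω1 : ω ≤ 1/100) {α : ℝ} (hα : 0 < α) {C1 : ℝ} (hC1 : 0 < C1) : ∃ C : ℝ, 0 < C ∧
    ∀ (N : ℕ) (δ : ℝ) (b : ℕ → ℂ) (Y1 Y : ℕ),
    1 ≤ N → 0 < δ → 1 ≤ Y1 → 1 ≤ Y → (∀ m, 1 ≤ m → ‖b m‖ ≤ C1 * hw ω δ (√(m:ℝ))) →
    ∑ n ∈ Finset.range N, ‖∑ m ∈ Finset.Ioc (Y1^2) (Y^2), b m *
      Complex.exp (((2 * Real.pi * (n * (α * √(m:ℝ))) : ℝ) : ℂ) * Complex.I)‖^2 ≤
      C * N * ((1 + 1/(N*δ)) * (1 + Real.log Y) * (δ ^ (-2:ℝ) * (Y1:ℝ) ^ (-2 + 4 * ω))) := by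
  obtain ⟨C, hC, h⟩ := high_quad hω hω1 hα hC1
  refine ⟨8 * C, by positivity, ?_⟩
  intro N δ b Y1 Y hN hδ hY1 hY hb
  have h1 := h N δ b Y1 Y hN hδ hY1 hY hb
  have h2 := ls (Finset.Ioc (Y1^2) (Y^2)) b (fun m => α * √(m:ℝ)) hN
  calc ∑ n ∈ Finset.range N, ‖∑ m ∈ Finset.Ioc (Y1^2) (Y^2), b m *
      Complex.exp (((2 * Real.pi * (n * (α * √(m:ℝ))) : ℝ) : ℂ) * Complex.I)‖^2
      ≤ ∑ n ∈ Finset.range (N+1), ‖∑ m ∈ Finset.Ioc (Y1^2) (Y^2), b m *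
      Complex.exp (((2 * Real.pi * (n * (α * √(m:ℝ))) : ℝ) : ℂ) * Complex.I)‖^2 := by
        apply Finset.sum_le_sum_of_subset_of_nonneg
        · exact Finset.range_subset_range.mpr (by omega)
        · intro _ _ _; positivity
    _ ≤ _ := h2
    _ ≤ 8 * N * (C * (1 + 1/(N*δ)) * (1 + Real.log Y) * (δ ^ (-2:ℝ) * (Y1:ℝ) ^ (-2 + 4 * ω))) := by
        apply mul_le_mul_of_nonneg_left h1 (by positivity)
    _ = _ := by ring

end Pool.Agent.H452R2.Win
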