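import Mathlib
import Pool.Agent.H452R2.Win.W5
import Pool.Agent.H383.GenW

open MeasureTheory Set Filter Topology
open Pool.Agent.H383
open Pool.Agent.H383.Gauss Pool.Agent.H383.AP

namespace Pool.Agent.H452R2.Win

/-- the error terms allowed in the sandwich -/
noncomputable def erw (η R δ : ℝ) : ℝ := δ * R ^ (1/2 + η) + R ^ (-(12/25):ℝ) * δ ^ (-(13/25):ℝ) + δ ^ (2/5:ℝ)

/-- two-sided smooth approximation of `E`, stable under small shifts, with every exponent -/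
def SandW (E : ℝ → ℝ) (a : ℕ → ℝ) (φ : ℝ) (w : ℝ → ℂ) (κ₁ κ₂ : ℝ) : Prop := ∀ η : ℝ, 0 < η → ∃ C0 : ℝ, 0 < C0 ∧
  ∀ R R' δ : ℝ, 4 ≤ R → 0 < δ → δ ≤ 1/2 → |R' - R| ≤ δ →
    E R' ≤ GW.WS a φ w (R + κ₁ * δ) δ + C0 * erw η R δ ∧
    GW.WS a φ w (R + κ₂ * δ) δ - C0 * erw η R δ ≤ E R'

lemma SandW.sand {E : ℝ → ℝ} {a : ℕ → ℝ} {φ : ℝ} {w : ℝ → ℂ} {κ₁ κ₂ : ℝ} (h : SandW E a φ w κ₁ κ₂) :
    ∃ C0 : ℝ, 0 < C0 ∧ GW.Sand E a φ w κ₁ κ₂ C0 := by
  obtain ⟨C0, hC0, h⟩ := h (1/100) (by norm_num)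
  refine ⟨C0, hC0, ?_, ?_⟩
  · intro R R' δ h1 h2 h3 h4
    have h5 := (h R R' δ h1 h2 h3 h4).1
    unfold erw at h5
    unfold GW.er
    norm_num at h5 ⊢
    exact h5
  · intro R R' δ h1 h2 h3 h4
    have h5 := (h R R' δ h1 h2 h3 h4).2
    unfold erw at h5
    unfold GW.er
    norm_num at h5 ⊢
    exact h5

variable {E : ℝ → ℝ} {a : ℕ → ℝ} {φ : ℝ} {w : ℝ → ℂ}

/-- approximation in mean square by the model polynomials along perturbed progressions, uniform over short windows -/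
theorem ap_win2 (ha : Bdw a) (ha0 : a 0 = 0) (hw : GW.Wt w) {κ₁ κ₂ : ℝ} (hS : SandW E a φ w κ₁ κ₂)
    {α : ℝ} (hα : 0 < α) {ε : ℝ} (hε : 0 < ε) : ∃ T : ℕ → ℝ, Tendsto T atTop (𝓝 0) ∧
    ∀ M : ℕ, 1 ≤ M → ∀ η : ℝ, 0 < η → ∃ N0 : ℕ, ∀ N : ℕ, N0 ≤ N → ∀ X : ℝ, 4 ≤ X → X ^ (1/2 + ε) ≤ N →
    ∀ Rn : ℕ → ℝ, (∀ n : ℕ, n < N → |Rn n - (X + n * α)| ≤ (X + N) ^ (-(51/100):ℝ)) →
    (∑ n ∈ Finset.range N, (E (Rn n) - Gen.U a φ (X + n * α) M)^2) / N ≤ T M + η := by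
  set ε1 := min ε (1/2) with hε1
  have hε10 : 0 < ε1 := by positivity
  set ω := ε1 / 100 with hωd
  have hω : 0 < ω := by positivity
  have hε12 : ε1 ≤ 1/2 := min_le_right _ _
  have hω200 : ω ≤ 1/200 := by rw [hωd]; linarith
  have hω1 : ω ≤ 1/100 := by linarith
  have hε1ω : ε1 = 100 * ω := by rw [hωd]; ring
  obtain ⟨Ca, hCa, haC⟩ := ha (ω/2) (by positivity)
  obtain ⟨Cw, hCw, hwd⟩ := hw.dec
  obtain ⟨C1, hC1, N1, hD⟩ := mid_ms hω hω1 hα (show 0 < Ca * (Cw + 1) by positivity)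
  obtain ⟨C2, hC2, hH⟩ := high_ms hω hω1 hα (show 0 < Ca * (Cw + 1) by positivity)
  obtain ⟨C5, hC5, herr⟩ := err_avg hα hω hω200
  obtain ⟨Ct, hCt, htail⟩ := GW.WS_tail (a := a) (φ := φ) ha.Bd ha0 hw
  obtain ⟨C0, hC0, hS⟩ := hS (ω/2) (by positivity)
  refine ⟨fun M => 12 * C1 * Tw ω M, ?_, ?_⟩
  · have := (Tw_tendsto hω).const_mul (12 * C1)
    rwa [mul_zero] at this
  intro M hM η hη
  obtain ⟨K₁, hK₁, hlow₁⟩ := GW.WS_low a φ hw κ₁ M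
  obtain ⟨K₂, hK₂, hlow₂⟩ := GW.WS_low a φ hw κ₂ M
  set c := min 1 α with hc
  have hc0 : 0 < c := by positivity
  have hc1 : c ≤ 1 := min_le_left _ _
  have hcα : c ≤ α := min_le_right _ _
  set av : ℝ := 1 + α with hav
  have hav1 : 1 ≤ av := by linarith
  -- the small quantities
  set G : ℕ → ℝ := fun N => (K₁ + K₂) * (N:ℝ) ^ (-(1/2):ℝ) + 2 * Ct * (N:ℝ) ^ (-(1/5):ℝ) +
    C0 * av * (N:ℝ) ^ (-(ω/2)) + C0 * (N:ℝ) ^ (-(1/5):ℝ) with hG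
  have hGt : Tendsto G atTop (𝓝 0) := by
    have h1 := tend_nat_rpow (y := 1/2) (by norm_num) (K₁ + K₂)
    have h2 := tend_nat_rpow (y := 1/5) (by norm_num) (2 * Ct)
    have h3 := tend_nat_rpow (y := ω/2) (by positivity) (C0 * av)
    have h5 := tend_nat_rpow (y := 1/5) (by norm_num) C0
    have h4 := ((h1.add h2).add h3).add h5
    simp only [add_zero] at h4
    exact h4
  set C6 : ℝ := 3 * (3 + 2/ω) * (16 * (c/2) ^ (-2 + 4 * ω)) with hC6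
  have hC60 : 0 < C6 := by positivity
  set u : ℕ → ℝ := fun N => 6 * (G N)^2 + 6 * C0^2 * C5 * (N:ℝ) ^ (-(1/5):ℝ) + 12 * C2 * C6 * (N:ℝ) ^ (-(193 * ω)) with hu
  have hut : Tendsto u atTop (𝓝 0) := by
    have h1 := (hGt.pow 2).const_mul 6
    have h2 := tend_nat_rpow (y := 1/5) (by norm_num) (6 * C0^2 * C5)
    have h3 := tend_nat_rpow (y := 193 * ω) (by positivity) (12 * C2 * C6)
    have h4 := (h1.add h2).add h3
    simp only [ne_eq, OfNat.ofNat_ne_zero, not_false_eq_true, zero_pow, mul_zero, add_zero] at h4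
    exact h4
  have hev := (hut.eventually (gt_mem_nhds hη))
  rw [eventually_atTop] at hev
  obtain ⟨N2, hN2⟩ := hev
  obtain ⟨N3, hN3⟩ : ∃ N3 : ℕ, ∀ N : ℕ, N3 ≤ N → 2 * (N:ℝ) ^ (-(41 * ω)) ≤ 1 := by
    have h1 := tend_nat_rpow (y := 41 * ω) (by positivity) 2
    have h2 := h1.eventually (gt_mem_nhds (by norm_num : (0:ℝ) < 1))
    rw [eventually_atTop] at h2
    obtain ⟨N3, hN3⟩ := h2
    exact ⟨N3, fun N hN => (hN3 N hN).le⟩
  refine ⟨max (max N1 N2) (max (max 4 N3) (⌈(2*(M+1))/c⌉₊ + 1)), ?_⟩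
  intro N hN X hX hXN Rn hRn
  have hNN1 : N1 ≤ N := by omega
  have hNN2 : N2 ≤ N := by omega
  have hNN3 : N3 ≤ N := by omega
  have hN4 : 4 ≤ N := by omega
  have hNα : ⌈(2*(M+1))/c⌉₊ ≤ N := by omega
  have hN4' : (4:ℝ) ≤ N := by exact_mod_cast hN4
  have hN0 : (0:ℝ) < N := by linarith
  have hN1' : (1:ℝ) ≤ N := by linarith
  have hN1n : 1 ≤ N := by omega
  have hcN : 2 * ((M:ℝ)+1) ≤ c * N := by
    have h1 : (2*(M+1))/c ≤ N := (Nat.le_ceil _).trans (by exact_mod_cast hNα)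
    rw [div_le_iff₀ hc0] at h1
    linarith
  have hM' : (1:ℝ) ≤ M := by exact_mod_cast hM
  have hX1 : 1 ≤ X := by linarith
  have hX0 : 0 < X := by linarith
  set Z : ℝ := X + N with hZ
  have hZN : (N:ℝ) ≤ Z := by linarith
  have hZ0 : 0 < Z := by linarith
  have hZ1 : 1 ≤ Z := by linarith
  set δ : ℝ := Z ^ (-(1/2 + ω)) with hδ
  have hδ0 : 0 < δ := by positivity
  have hδN : δ ≤ (N:ℝ) ^ (-(1/2):ℝ) := by
    calc δ ≤ (N:ℝ) ^ (-(1/2 + ω)) := Real.rpow_le_rpow_of_nonpos hN0 hZN (by linarith)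
      _ ≤ (N:ℝ) ^ (-(1/2):ℝ) := Real.rpow_le_rpow_of_exponent_le hN1' (by linarith)
  have hδ1 : δ ≤ 1/2 := by
    have h2 : (N:ℝ) ^ (-(1/2):ℝ) ≤ (4:ℝ) ^ (-(1/2):ℝ) := Real.rpow_le_rpow_of_nonpos (by norm_num) hN4' (by norm_num)
    have h3 : (4:ℝ) ^ (-(1/2):ℝ) = 1/2 := by
      rw [Real.rpow_neg (by norm_num), ← Real.sqrt_eq_rpow, show (4:ℝ) = 2^2 by norm_num, Real.sqrt_sq (by norm_num)]
      norm_num
    linarith
  -- size of Z
  have hZg : Z ≤ 2 * (N:ℝ) ^ (2 / (1 + 200 * ω)) := by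
    have h1 : X ≤ (N:ℝ) ^ (2 / (1 + 200 * ω)) := by
      have h2 : X ^ (1/2 + ε1) ≤ N := by
        refine le_trans ?_ hXN
        apply Real.rpow_le_rpow_of_exponent_le hX1
        have : ε1 ≤ ε := min_le_left _ _
        linarith
      have h3 : (X ^ (1/2 + ε1)) ^ (2 / (1 + 200 * ω)) ≤ (N:ℝ) ^ (2 / (1 + 200 * ω)) :=
        Real.rpow_le_rpow (by positivity) h2 (by positivity)
      rw [← Real.rpow_mul hX0.le] at h3
      have h4 : (1/2 + ε1) * (2 / (1 + 200 * ω)) = 1 := by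
        rw [hε1ω]; field_simp; ring
      rw [h4, Real.rpow_one] at h3
      exact h3
    have h5 : (N:ℝ) ≤ (N:ℝ) ^ (2 / (1 + 200 * ω)) := by
      calc (N:ℝ) = (N:ℝ) ^ (1:ℝ) := (Real.rpow_one _).symm
        _ ≤ _ := by
            apply Real.rpow_le_rpow_of_exponent_le hN1'
            rw [le_div_iff₀ (by positivity)]; linarith
    linarith
  -- the key inequality
  have hF : δ ^ (-1:ℝ) ≤ 2 * (N:ℝ) ^ (1 - 99 * ω) := by
    have e1 : δ ^ (-1:ℝ) = Z ^ (1/2 + ω) := by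
      rw [hδ, ← Real.rpow_mul hZ0.le]; congr 1; ring
    rw [e1]
    calc Z ^ (1/2 + ω) ≤ (2 * (N:ℝ) ^ (2 / (1 + 200 * ω))) ^ (1/2 + ω) :=
          Real.rpow_le_rpow hZ0.le hZg (by positivity)
      _ = 2 ^ (1/2 + ω) * (N:ℝ) ^ (2 / (1 + 200 * ω) * (1/2 + ω)) := by
          rw [Real.mul_rpow (by norm_num) (by positivity), ← Real.rpow_mul hN0.le]
      _ ≤ 2 * (N:ℝ) ^ (1 - 99 * ω) := by
          apply mul_le_mul _ _ (by positivity) (by norm_num)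
          · calc (2:ℝ) ^ (1/2 + ω) ≤ 2 ^ (1:ℝ) := Real.rpow_le_rpow_of_exponent_le (by norm_num) (by linarith)
              _ = 2 := Real.rpow_one 2
          · apply Real.rpow_le_rpow_of_exponent_le hN1'
            rw [div_mul_eq_mul_div, div_le_iff₀ (by positivity)]
            nlinarith
  have hδq : δ ^ (-(1/2 + 8 * ω)) ≤ (N:ℝ) ^ (1/2:ℝ) := by
    have e1 : δ ^ (-(1/2 + 8 * ω)) = (δ ^ (-1:ℝ)) ^ (1/2 + 8 * ω) := by
      rw [← Real.rpow_mul hδ0.le]; congr 1; ring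
    rw [e1]
    calc (δ ^ (-1:ℝ)) ^ (1/2 + 8 * ω) ≤ (2 * (N:ℝ) ^ (1 - 99 * ω)) ^ (1/2 + 8 * ω) :=
          Real.rpow_le_rpow (by positivity) hF (by positivity)
      _ = 2 ^ (1/2 + 8 * ω) * (N:ℝ) ^ ((1 - 99 * ω) * (1/2 + 8 * ω)) := by
          rw [Real.mul_rpow (by norm_num) (by positivity), ← Real.rpow_mul hN0.le]
      _ ≤ 2 * (N:ℝ) ^ (-(41 * ω) + 1/2) := by
          apply mul_le_mul _ _ (by positivity) (by norm_num)
          · calc (2:ℝ) ^ (1/2 + 8 * ω) ≤ 2 ^ (1:ℝ) := Real.rpow_le_rpow_of_exponent_le (by norm_num) (by linarith)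
              _ = 2 := Real.rpow_one 2
          · apply Real.rpow_le_rpow_of_exponent_le hN1'
            nlinarith [sq_nonneg ω]
      _ = (2 * (N:ℝ) ^ (-(41 * ω))) * (N:ℝ) ^ (1/2:ℝ) := by
          rw [Real.rpow_add hN0]; ring
      _ ≤ 1 * (N:ℝ) ^ (1/2:ℝ) := mul_le_mul_of_nonneg_right (hN3 N hNN3) (by positivity)
      _ = _ := one_mul _
  -- cutoffs
  set Y1 : ℕ := ⌊c * N / 2⌋₊ with hY1
  have hY1up : (Y1:ℝ) ≤ c * N / 2 := Nat.floor_le (by positivity)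
  have hY1low : c * N / 4 ≤ Y1 := by
    have := Nat.lt_floor_add_one (c * N / 2)
    rw [← hY1] at this
    linarith
  have hY1low' : c/2 * N ≤ 2 * Y1 := by linarith
  have hY12 : 2 * (Y1:ℝ) ≤ α * N := by nlinarith
  have hMY : M ≤ Y1 := by
    have h1 := Nat.lt_floor_add_one (c * N / 2)
    rw [← hY1] at h1
    have : (M:ℝ) < Y1 + 1 := by linarith
    have h2 : M < Y1 + 1 := by exact_mod_cast this
    omega
  have hY1one : 1 ≤ Y1 := by omega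
  set Y : ℕ := ⌈Z⌉₊ with hY
  have hYZ : Z ≤ Y := Nat.le_ceil Z
  have hY1Y : Y1 ≤ Y := by
    have h1 : c * N / 2 ≤ N := by nlinarith
    have : (Y1:ℝ) ≤ Y := by linarith
    exact_mod_cast this
  have hYone : 1 ≤ Y := by omega
  have hYup : (Y:ℝ) ≤ 2 * Z := by
    have := Nat.ceil_lt_add_one hZ0.le
    linarith
  have hτ : Ct * δ ^ (-(3/2):ℝ) * (Y:ℝ) ^ (-(24/25):ℝ) ≤ Ct * (N:ℝ) ^ (-(1/5):ℝ) := by
    have e1 : δ ^ (-(3/2):ℝ) = Z ^ (3/4 + 3/2 * ω) := by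
      rw [hδ, ← Real.rpow_mul hZ0.le]; congr 1; ring
    have e2 : (Y:ℝ) ^ (-(24/25):ℝ) ≤ Z ^ (-(24/25):ℝ) :=
      Real.rpow_le_rpow_of_nonpos hZ0 hYZ (by norm_num)
    calc Ct * δ ^ (-(3/2):ℝ) * (Y:ℝ) ^ (-(24/25):ℝ) ≤ Ct * Z ^ (3/4 + 3/2 * ω) * Z ^ (-(24/25):ℝ) := by
          rw [e1]; exact mul_le_mul_of_nonneg_left e2 (by positivity)
      _ = Ct * (Z ^ (3/4 + 3/2 * ω) * Z ^ (-(24/25):ℝ)) := by ring
      _ = Ct * Z ^ (3/4 + 3/2 * ω + -(24/25)) := by rw [← Real.rpow_add hZ0]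
      _ ≤ Ct * Z ^ (-(1/5):ℝ) := by
          apply mul_le_mul_of_nonneg_left _ hCt.le
          exact Real.rpow_le_rpow_of_exponent_le hZ1 (by linarith)
      _ ≤ _ := by
          apply mul_le_mul_of_nonneg_left _ hCt.le
          exact Real.rpow_le_rpow_of_nonpos hN0 hZN (by norm_num)
  have hδ25 : δ ^ (2/5:ℝ) ≤ (N:ℝ) ^ (-(1/5):ℝ) := by
    calc δ ^ (2/5:ℝ) ≤ ((N:ℝ) ^ (-(1/2):ℝ)) ^ (2/5:ℝ) := Real.rpow_le_rpow hδ0.le hδN (by norm_num)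
      _ = _ := by rw [← Real.rpow_mul hN0.le]; norm_num
  -- coefficients
  have hbb : ∀ X' : ℝ, ∀ m : ℕ, 1 ≤ m → ‖Gen.ac a φ X' m * w (√(m:ℝ) * δ)‖ ≤ Ca * (Cw + 1) * Win.hw ω δ (√(m:ℝ)) := by
    intro X' m hm
    have hm0 : (0:ℝ) < m := by exact_mod_cast hm
    have hs : 0 < √(m:ℝ) := Real.sqrt_pos.mpr hm0
    rw [norm_mul, Gen.norm_ac]
    unfold Win.hw
    have h2 := haC m hm
    have h5 : ‖w (√(m:ℝ) * δ)‖ ≤ (Cw + 1) * min 1 ((δ * √(m:ℝ)) ^ (-(3/2):ℝ)) := by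
      have h3 := hw.one (√(m:ℝ) * δ) (by positivity)
      have h4 := hwd (√(m:ℝ) * δ) (by positivity)
      set y := √(m:ℝ) * δ with hy
      have hy0 : 0 < y := by positivity
      rw [show δ * √(m:ℝ) = y by rw [hy]; ring]
      rcases min_choice (1:ℝ) (y ^ (-(3/2):ℝ)) with hc | hc
      · rw [hc]; linarith
      · rw [hc]
        have : 0 ≤ y ^ (-(3/2):ℝ) := by positivity
        linarith
    have h6 : (m:ℝ) ^ (-(3/4) + ω/2) = (√(m:ℝ)) ^ (-(3/2) + ω) := by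
      rw [Real.sqrt_eq_rpow, ← Real.rpow_mul hm0.le]; congr 1; ring
    rw [h6] at h2
    calc |a m| * ‖w (√(m:ℝ) * δ)‖ ≤ (Ca * (√(m:ℝ)) ^ (-(3/2) + ω)) * ((Cw + 1) * min 1 ((δ * √(m:ℝ)) ^ (-(3/2):ℝ))) :=
          mul_le_mul h2 h5 (norm_nonneg _) (by positivity)
      _ = _ := by ring
  have hconv : ∀ (X' : ℝ) (s : Finset ℕ) (n : ℕ), (∑ m ∈ s, GW.wt a φ w (X' + n * α) δ m)^2 ≤
      ‖∑ m ∈ s, (Gen.ac a φ X' m * w (√(m:ℝ) * δ)) *
        Complex.exp (((2 * Real.pi * (n * (α * √(m:ℝ))) : ℝ) : ℂ) * Complex.I)‖^2 := by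
    intro X' s n
    have h2 : ∑ m ∈ s, GW.wt a φ w (X' + n * α) δ m = (∑ m ∈ s, (Gen.ac a φ X' m * w (√(m:ℝ) * δ)) *
      Complex.exp (((2 * Real.pi * (n * (α * √(m:ℝ))) : ℝ) : ℂ) * Complex.I)).re := by
      rw [Complex.re_sum]
      apply Finset.sum_congr rfl
      intro m _
      unfold GW.wt
      rw [← Complex.re_ofReal_mul]
      congr 1
      have h3 := Gen.ac_shift a φ X' α m n
      unfold chr at h3
      have h4 : Gen.ac a φ X' m * w (√(m:ℝ) * δ) * Complex.exp (((2 * Real.pi * (n * (α * √(m:ℝ))) : ℝ) : ℂ) * Complex.I) =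
          Gen.ac a φ (X' + n * α) m * w (√(m:ℝ) * δ) := by rw [h3]; ring
      rw [h4]
      unfold Gen.ac
      ring
    rw [h2, ← sq_abs]
    exact pow_le_pow_left₀ (abs_nonneg _) (Complex.abs_re_le_norm _) 2
  -- the middle range
  set mid : ℝ → ℕ → ℝ := fun X' n => ∑ m ∈ Finset.Ioc (M^2) (Y1^2), GW.wt a φ w (X' + n * α) δ m with hmid
  have hmidb : ∀ X' : ℝ, ∑ n ∈ Finset.range N, (mid X' n)^2 ≤ C1 * N * Tw ω M := by
    intro X'
    have h1 := hD N δ (fun m => Gen.ac a φ X' m * w (√(m:ℝ) * δ)) M Y1 hNN1 hδ0 (by linarith) hδq hM hY12 (hbb X')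
    refine le_trans ?_ h1
    apply Finset.sum_le_sum
    intro n _
    exact hconv X' _ n
  -- the high range
  set hi : ℝ → ℕ → ℝ := fun X' n => ∑ m ∈ Finset.Ioc (Y1^2) (Y^2), GW.wt a φ w (X' + n * α) δ m with hhi
  have hhib : ∀ X' : ℝ, ∑ n ∈ Finset.range N, (hi X' n)^2 ≤ C2 * N * (C6 * (N:ℝ) ^ (-(193 * ω))) := by
    intro X'
    have h1 := hH N δ (fun m => Gen.ac a φ X' m * w (√(m:ℝ) * δ)) Y1 Y hN1n hδ0 hY1one hYone (hbb X')
    have h2 : ∑ n ∈ Finset.range N, (hi X' n)^2 ≤ C2 * N * ((1 + 1/(N*δ)) * (1 + Real.log Y) * (δ ^ (-2:ℝ) * (Y1:ℝ) ^ (-2 + 4 * ω))) := by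
      refine le_trans ?_ h1
      apply Finset.sum_le_sum
      intro n _
      exact hconv X' _ n
    refine h2.trans ?_
    apply mul_le_mul_of_nonneg_left _ (by positivity)
    have g1 : 1 + 1/(N*δ) ≤ 3 := by
      have e1 : 1/(N*δ) = (N:ℝ) ^ (-1:ℝ) * δ ^ (-1:ℝ) := by
        rw [Real.rpow_neg_one, Real.rpow_neg_one]; field_simp
      have e2 : (N:ℝ) ^ (-1:ℝ) * δ ^ (-1:ℝ) ≤ 2 := by
        calc (N:ℝ) ^ (-1:ℝ) * δ ^ (-1:ℝ) ≤ (N:ℝ) ^ (-1:ℝ) * (2 * (N:ℝ) ^ (1 - 99 * ω)) := by gcongr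
          _ = 2 * ((N:ℝ) ^ (-1:ℝ) * (N:ℝ) ^ (1 - 99 * ω)) := by ring
          _ = 2 * (N:ℝ) ^ (-1 + (1 - 99 * ω)) := by rw [← Real.rpow_add hN0]
          _ ≤ 2 * 1 := by
              apply mul_le_mul_of_nonneg_left _ (by norm_num)
              exact Real.rpow_le_one_of_one_le_of_nonpos hN1' (by linarith)
          _ = 2 := by norm_num
      rw [e1]; linarith
    have g2 : 1 + Real.log Y ≤ (3 + 2/ω) * (N:ℝ) ^ ω := by
      have hYN : (Y:ℝ) ≤ 4 * (N:ℝ)^2 := by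
        have : (N:ℝ) ^ (2 / (1 + 200 * ω)) ≤ (N:ℝ)^2 := by
          rw [← Real.rpow_two]
          apply Real.rpow_le_rpow_of_exponent_le hN1'
          rw [div_le_iff₀ (by positivity)]; nlinarith
        linarith
      have hYpos : (0:ℝ) < Y := by exact_mod_cast hYone
      have h3 : Real.log Y ≤ Real.log (4 * (N:ℝ)^2) := Real.log_le_log hYpos hYN
      have h4 : Real.log (4 * (N:ℝ)^2) = Real.log 4 + 2 * Real.log N := by
        rw [Real.log_mul (by norm_num) (by positivity), Real.log_pow]; push_cast; ring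
      have h5 : Real.log 4 ≤ 2 := by
        have : Real.log 4 = 2 * Real.log 2 := by
          rw [show (4:ℝ) = 2^2 by norm_num, Real.log_pow]; push_cast; ring
        have := Real.log_two_lt_d9
        linarith
      have h6 := Real.log_le_rpow_div hN0.le hω
      have h7 : 1 ≤ (N:ℝ) ^ ω := Real.one_le_rpow hN1' hω.le
      have h8 : 2 * ((N:ℝ) ^ ω / ω) = 2/ω * (N:ℝ) ^ ω := by ring
      calc 1 + Real.log Y ≤ 3 + 2 * ((N:ℝ) ^ ω / ω) := by linarith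
        _ = 3 + 2/ω * (N:ℝ) ^ ω := by rw [h8]
        _ ≤ _ := by linarith
    have g3 : δ ^ (-2:ℝ) * (Y1:ℝ) ^ (-2 + 4 * ω) ≤ 4 * (c/2) ^ (-2 + 4 * ω) * (4 * (N:ℝ) ^ (-(194 * ω))) := by
      have e1 : δ ^ (-2:ℝ) ≤ 4 * (N:ℝ) ^ (2 - 198 * ω) := by
        have e3 : δ ^ (-2:ℝ) = (δ ^ (-1:ℝ))^2 := by
          rw [← Real.rpow_natCast, ← Real.rpow_mul hδ0.le]; norm_num
        rw [e3]
        calc (δ ^ (-1:ℝ))^2 ≤ (2 * (N:ℝ) ^ (1 - 99 * ω))^2 := pow_le_pow_left₀ (by positivity) hF 2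
          _ = 4 * ((N:ℝ) ^ (1 - 99 * ω))^2 := by ring
          _ = _ := by
              rw [← Real.rpow_natCast, ← Real.rpow_mul hN0.le]; congr 2; push_cast; ring
      have e2 : (Y1:ℝ) ^ (-2 + 4 * ω) ≤ 4 * ((c/2) ^ (-2 + 4 * ω) * (N:ℝ) ^ (-2 + 4 * ω)) := by
        have h3 : c/2 * N / 2 ≤ Y1 := by linarith
        calc (Y1:ℝ) ^ (-2 + 4 * ω) ≤ (c/2 * N / 2) ^ (-2 + 4 * ω) :=
              Real.rpow_le_rpow_of_nonpos (by positivity) h3 (by linarith)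
          _ = (1/2:ℝ) ^ (-2 + 4 * ω) * ((c/2) ^ (-2 + 4 * ω) * (N:ℝ) ^ (-2 + 4 * ω)) := by
              rw [← Real.mul_rpow (by positivity) hN0.le, ← Real.mul_rpow (by norm_num) (by positivity)]
              congr 1; ring
          _ ≤ 4 * ((c/2) ^ (-2 + 4 * ω) * (N:ℝ) ^ (-2 + 4 * ω)) := by
              apply mul_le_mul_of_nonneg_right _ (by positivity)
              calc (1/2:ℝ) ^ (-2 + 4 * ω) ≤ (1/2:ℝ) ^ (-2:ℝ) :=
                    Real.rpow_le_rpow_of_exponent_ge (by norm_num) (by norm_num) (by linarith)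
                _ = 4 := by rw [Real.rpow_neg (by norm_num)]; norm_num
      calc δ ^ (-2:ℝ) * (Y1:ℝ) ^ (-2 + 4 * ω) ≤ (4 * (N:ℝ) ^ (2 - 198 * ω)) * (4 * ((c/2) ^ (-2 + 4 * ω) * (N:ℝ) ^ (-2 + 4 * ω))) := by
            gcongr
        _ = 4 * (c/2) ^ (-2 + 4 * ω) * (4 * ((N:ℝ) ^ (2 - 198 * ω) * (N:ℝ) ^ (-2 + 4 * ω))) := by ring
        _ = _ := by
            rw [← Real.rpow_add hN0]
            congr 3; ring
    have hlog0 : 0 ≤ 1 + Real.log Y := by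
      have : (1:ℝ) ≤ Y := by exact_mod_cast hYone
      have := Real.log_nonneg this
      linarith
    calc (1 + 1/(N*δ)) * (1 + Real.log Y) * (δ ^ (-2:ℝ) * (Y1:ℝ) ^ (-2 + 4 * ω))
        ≤ 3 * ((3 + 2/ω) * (N:ℝ) ^ ω) * (4 * (c/2) ^ (-2 + 4 * ω) * (4 * (N:ℝ) ^ (-(194 * ω)))) := by
          gcongr
      _ = C6 * ((N:ℝ) ^ ω * (N:ℝ) ^ (-(194 * ω))) := by rw [hC6]; ring
      _ = C6 * (N:ℝ) ^ (-(193 * ω)) := by rw [← Real.rpow_add hN0]; congr 2; ring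
  -- pointwise bound
  have hpt : ∀ n ∈ Finset.range N, (E (Rn n) - Gen.U a φ (X + n * α) M)^2 ≤
      6 * ((G N)^2 + C0^2 * ((X + n * α) ^ (-(24/25):ℝ) * (X + N) ^ (13/25 + 2 * ω)) +
        (mid (X + κ₁ * δ) n)^2 + (mid (X + κ₂ * δ) n)^2 + (hi (X + κ₁ * δ) n)^2 + (hi (X + κ₂ * δ) n)^2) := by
    intro n hn
    rw [Finset.mem_range] at hn
    have hn' : (n:ℝ) ≤ N := by exact_mod_cast hn.le
    have hpert := hRn n hn
    set R : ℝ := X + n * α with hR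
    have hn0 : (0:ℝ) ≤ n := Nat.cast_nonneg n
    have hR2 : 4 ≤ R := by rw [hR]; nlinarith
    have hR0 : 0 < R := by linarith
    have hpert2 : |Rn n - R| ≤ δ := by
      refine hpert.trans ?_
      rw [hδ]
      exact Real.rpow_le_rpow_of_exponent_le hZ1 (by linarith)
    obtain ⟨h1, h2⟩ := hS R (Rn n) δ hR2 hδ0 hδ1 hpert2
    -- decomposition of WS
    have hdec : ∀ (κ K : ℝ), |∑ m ∈ Finset.Icc 1 (M^2), GW.wt a φ w (R + κ * δ) δ m - Gen.U a φ R M| ≤ K * δ →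
        |GW.WS a φ w (R + κ * δ) δ - Gen.U a φ R M| ≤
        K * δ + |mid (X + κ * δ) n| + |hi (X + κ * δ) n| + Ct * δ ^ (-(3/2):ℝ) * (Y:ℝ) ^ (-(24/25):ℝ) := by
      intro κ K hK
      have t1 := htail δ hδ0 (R + κ * δ) Y hYone
      have e3 : X + κ * δ + n * α = R + κ * δ := by rw [hR]; ring
      have hsplit : ∑ m ∈ Finset.Icc 1 (Y^2), GW.wt a φ w (R + κ * δ) δ m =
          ∑ m ∈ Finset.Icc 1 (M^2), GW.wt a φ w (R + κ * δ) δ m + mid (X + κ * δ) n + hi (X + κ * δ) n := by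
        simp only [hmid, hhi]
        rw [e3]
        have i1 : M^2 ≤ Y1^2 := Nat.pow_le_pow_left hMY 2
        have i2 : Y1^2 ≤ Y^2 := Nat.pow_le_pow_left hY1Y 2
        have e1 : Finset.Icc 1 (Y^2) = Finset.Ioc 0 (Y^2) := by
          ext m; simp only [Finset.mem_Icc, Finset.mem_Ioc]; omega
        have e2 : Finset.Icc 1 (M^2) = Finset.Ioc 0 (M^2) := by
          ext m; simp only [Finset.mem_Icc, Finset.mem_Ioc]; omega
        rw [e1, e2, Finset.sum_Ioc_consecutive _ (Nat.zero_le _) i1,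
          Finset.sum_Ioc_consecutive _ (Nat.zero_le _) i2]
      rw [hsplit] at t1
      set L := ∑ m ∈ Finset.Icc 1 (M^2), GW.wt a φ w (R + κ * δ) δ m
      have e : GW.WS a φ w (R + κ * δ) δ - Gen.U a φ R M =
          (GW.WS a φ w (R + κ * δ) δ - (L + mid (X + κ * δ) n + hi (X + κ * δ) n)) + (L - Gen.U a φ R M) +
            mid (X + κ * δ) n + hi (X + κ * δ) n := by ring
      rw [e]
      calc _ ≤ |(GW.WS a φ w (R + κ * δ) δ - (L + mid (X + κ * δ) n + hi (X + κ * δ) n)) + (L - Gen.U a φ R M) +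
            mid (X + κ * δ) n| + |hi (X + κ * δ) n| := abs_add_le _ _
        _ ≤ |(GW.WS a φ w (R + κ * δ) δ - (L + mid (X + κ * δ) n + hi (X + κ * δ) n)) + (L - Gen.U a φ R M)| +
            |mid (X + κ * δ) n| + |hi (X + κ * δ) n| := by
            gcongr; exact abs_add_le _ _
        _ ≤ |GW.WS a φ w (R + κ * δ) δ - (L + mid (X + κ * δ) n + hi (X + κ * δ) n)| + |L - Gen.U a φ R M| +
            |mid (X + κ * δ) n| + |hi (X + κ * δ) n| := by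
            gcongr; exact abs_add_le _ _
        _ ≤ _ := by linarith
    have d1 := hdec κ₁ K₁ (hlow₁ R δ hδ0)
    have d2 := hdec κ₂ K₂ (hlow₂ R δ hδ0)
    have d1' := abs_le.mp d1
    have d2' := abs_le.mp d2
    have hm1 := abs_nonneg (mid (X + κ₁ * δ) n)
    have hm2 := abs_nonneg (mid (X + κ₂ * δ) n)
    have hm3 := abs_nonneg (hi (X + κ₁ * δ) n)
    have hm4 := abs_nonneg (hi (X + κ₂ * δ) n)
    have hKδ : 0 < K₁ * δ := by positivity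
    have hKδ2 : 0 < K₂ * δ := by positivity
    have hτ0 : 0 ≤ Ct * δ ^ (-(3/2):ℝ) * (Y:ℝ) ^ (-(24/25):ℝ) := by positivity
    -- the error
    have hRZ : R ≤ av * Z := by
      rw [hR, hav, hZ]
      have : (n:ℝ) * α ≤ N * α := mul_le_mul_of_nonneg_right hn' hα.le
      nlinarith
    have her1 : C0 * (δ * R ^ (1/2 + ω/2)) ≤ C0 * av * (N:ℝ) ^ (-(ω/2)) := by
      have g2 : R ^ (1/2 + ω/2) ≤ av * Z ^ (1/2 + ω/2) := by
        calc R ^ (1/2 + ω/2) ≤ (av * Z) ^ (1/2 + ω/2) := Real.rpow_le_rpow hR0.le hRZ (by positivity)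
          _ = av ^ (1/2 + ω/2) * Z ^ (1/2 + ω/2) := Real.mul_rpow (by linarith) hZ0.le
          _ ≤ av * Z ^ (1/2 + ω/2) := by
              apply mul_le_mul_of_nonneg_right _ (by positivity)
              calc av ^ (1/2 + ω/2) ≤ av ^ (1:ℝ) := Real.rpow_le_rpow_of_exponent_le hav1 (by linarith)
                _ = av := Real.rpow_one _
      calc C0 * (δ * R ^ (1/2 + ω/2)) ≤ C0 * (δ * (av * Z ^ (1/2 + ω/2))) := by gcongr
        _ = C0 * av * (Z ^ (-(1/2 + ω)) * Z ^ (1/2 + ω/2)) := by rw [hδ]; ring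
        _ = C0 * av * Z ^ (-(ω/2)) := by rw [← Real.rpow_add hZ0]; congr 2; ring
        _ ≤ _ := by
            apply mul_le_mul_of_nonneg_left _ (by positivity)
            exact Real.rpow_le_rpow_of_nonpos hN0 hZN (by linarith)
    set er2 : ℝ := C0 * (R ^ (-(12/25):ℝ) * δ ^ (-(13/25):ℝ)) with her2
    have her20 : 0 ≤ er2 := by positivity
    have her2sq : er2^2 ≤ C0^2 * (R ^ (-(24/25):ℝ) * (X + N) ^ (13/25 + 2 * ω)) := by
      rw [her2, mul_pow, mul_pow]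
      have i1 : (R ^ (-(12/25):ℝ))^2 = R ^ (-(24/25):ℝ) := by
        rw [← Real.rpow_natCast, ← Real.rpow_mul hR0.le]; norm_num
      have i2 : (δ ^ (-(13/25):ℝ))^2 ≤ Z ^ (13/25 + 2 * ω) := by
        rw [hδ, ← Real.rpow_natCast, ← Real.rpow_mul (by positivity), ← Real.rpow_mul hZ0.le]
        apply Real.rpow_le_rpow_of_exponent_le hZ1
        push_cast; nlinarith
      rw [i1]
      gcongr
    have her3 : C0 * δ ^ (2/5:ℝ) ≤ C0 * (N:ℝ) ^ (-(1/5):ℝ) := mul_le_mul_of_nonneg_left hδ25 hC0.le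
    have hG0 : (K₁ + K₂) * δ + 2 * (Ct * δ ^ (-(3/2):ℝ) * (Y:ℝ) ^ (-(24/25):ℝ)) + C0 * (δ * R ^ (1/2 + ω/2)) +
        C0 * δ ^ (2/5:ℝ) ≤ G N := by
      simp only [hG]
      have : (K₁ + K₂) * δ ≤ (K₁ + K₂) * (N:ℝ) ^ (-(1/2):ℝ) := mul_le_mul_of_nonneg_left hδN (by positivity)
      linarith
    have hera : C0 * erw (ω/2) R δ = C0 * (δ * R ^ (1/2 + ω/2)) + er2 + C0 * δ ^ (2/5:ℝ) := by rw [erw, her2]; ring
    rw [hera] at h1 h2
    have hp1 : 0 ≤ C0 * (δ * R ^ (1/2 + ω/2)) := by positivity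
    have hp2 : 0 ≤ C0 * δ ^ (2/5:ℝ) := by positivity
    have htot : |E (Rn n) - Gen.U a φ R M| ≤ G N + er2 + |mid (X + κ₁ * δ) n| + |mid (X + κ₂ * δ) n| +
        |hi (X + κ₁ * δ) n| + |hi (X + κ₂ * δ) n| := by
      rw [abs_le]
      constructor
      · linarith
      · linarith
    calc (E (Rn n) - Gen.U a φ R M)^2 = |E (Rn n) - Gen.U a φ R M|^2 := (sq_abs _).symm
      _ ≤ (G N + er2 + |mid (X + κ₁ * δ) n| + |mid (X + κ₂ * δ) n| +
        |hi (X + κ₁ * δ) n| + |hi (X + κ₂ * δ) n|)^2 := pow_le_pow_left₀ (abs_nonneg _) htot 2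
      _ ≤ 6 * ((G N)^2 + er2^2 + |mid (X + κ₁ * δ) n|^2 + |mid (X + κ₂ * δ) n|^2 +
        |hi (X + κ₁ * δ) n|^2 + |hi (X + κ₂ * δ) n|^2) := seven_sq _ _ _ _ _ _
      _ ≤ _ := by rw [sq_abs, sq_abs, sq_abs, sq_abs]; linarith
  -- summing
  have hs1 := hmidb (X + κ₁ * δ)
  have hs2 := hmidb (X + κ₂ * δ)
  have hs3 := hhib (X + κ₁ * δ)
  have hs4 := hhib (X + κ₂ * δ)
  have hs5 := herr X hX1 N hN1n
  have hsum : ∑ n ∈ Finset.range N, (E (Rn n) - Gen.U a φ (X + n * α) M)^2 ≤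
      N * (12 * C1 * Tw ω M + u N) := by
    calc _ ≤ ∑ n ∈ Finset.range N, 6 * ((G N)^2 + C0^2 * ((X + n * α) ^ (-(24/25):ℝ) * (X + N) ^ (13/25 + 2 * ω)) +
        (mid (X + κ₁ * δ) n)^2 + (mid (X + κ₂ * δ) n)^2 + (hi (X + κ₁ * δ) n)^2 + (hi (X + κ₂ * δ) n)^2) := Finset.sum_le_sum hpt
      _ = 6 * (N * (G N)^2 + C0^2 * ∑ n ∈ Finset.range N, (X + n * α) ^ (-(24/25):ℝ) * (X + N) ^ (13/25 + 2 * ω) +
        ∑ n ∈ Finset.range N, (mid (X + κ₁ * δ) n)^2 + ∑ n ∈ Finset.range N, (mid (X + κ₂ * δ) n)^2 +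
        ∑ n ∈ Finset.range N, (hi (X + κ₁ * δ) n)^2 + ∑ n ∈ Finset.range N, (hi (X + κ₂ * δ) n)^2) := by
          rw [← Finset.mul_sum]
          congr 1
          simp only [Finset.sum_add_distrib]
          rw [Finset.sum_const, Finset.card_range, nsmul_eq_mul, ← Finset.mul_sum]
      _ ≤ 6 * (N * (G N)^2 + C0^2 * (C5 * (N * (N:ℝ) ^ (-(1/5):ℝ))) +
          C1 * N * Tw ω M + C1 * N * Tw ω M + C2 * N * (C6 * (N:ℝ) ^ (-(193 * ω))) + C2 * N * (C6 * (N:ℝ) ^ (-(193 * ω)))) := by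
          have : C0^2 * ∑ n ∈ Finset.range N, (X + n * α) ^ (-(24/25):ℝ) * (X + N) ^ (13/25 + 2 * ω) ≤
              C0^2 * (C5 * (N * (N:ℝ) ^ (-(1/5):ℝ))) := mul_le_mul_of_nonneg_left hs5 (by positivity)
          linarith
      _ = _ := by
          simp only [hu]
          ring
  rw [div_le_iff₀ hN0]
  have hu1 := hN2 N hNN2
  have : N * (12 * C1 * Tw ω M + u N) ≤ N * (12 * C1 * Tw ω M + η) :=
    mul_le_mul_of_nonneg_left (by linarith) hN0.le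
  linarith

end Pool.Agent.H452R2.Win
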