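import Mathlib
import Pool.Agent.H383.APLim

open MeasureTheory Set Filter Topology
open Pool.Agent.H383.AP

namespace Pool.Agent.H452R2.Win

/-- uniform mean over all windows -/
lemma Trig_umean {b : ℕ → ℂ} (h : b ∈ Trig) : ∃ L : ℂ, ∀ η : ℝ, 0 < η → ∃ N0 : ℕ, ∀ N : ℕ, N0 ≤ N → ∀ k : ℕ,
    ‖cm (fun n => b (k + n)) N - L‖ ≤ η := by
  unfold Trig at h
  induction h using Submodule.span_induction with
  | mem x hx =>
    obtain ⟨θ, rfl⟩ := hx
    have hsh : ∀ k : ℕ, cm (fun n => chr θ (k + n)) = fun N => chr θ k * cm (chr θ) N := by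
      intro k
      funext N
      unfold cm
      rw [mul_div_assoc', Finset.mul_sum]
      congr 1
      apply Finset.sum_congr rfl
      intro n _
      simp only [chr]
      rw [← Complex.exp_add]
      congr 1
      push_cast; ring
    by_cases hθ : ∃ k : ℤ, θ = k
    · refine ⟨1, fun η hη => ⟨1, fun N hN k => ?_⟩⟩
      have hN0 : (N:ℂ) ≠ 0 := by exact_mod_cast (by omega : N ≠ 0)
      have h1 : ∀ n, chr θ n = 1 := by
        obtain ⟨l, rfl⟩ := hθ
        intro n
        simp only [chr]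
        rw [Complex.exp_eq_one_iff]
        exact ⟨n * l, by push_cast; ring⟩
      have : cm (fun n => chr θ (k + n)) N = 1 := by
        unfold cm
        simp only [h1, Finset.sum_const, Finset.card_range, nsmul_eq_mul, mul_one]
        exact div_self hN0
      rw [this, sub_self, norm_zero]; exact hη.le
    · refine ⟨0, fun η hη => ?_⟩
      have h1 := chr_mean_non hθ
      unfold HasMean at h1
      have h2 := h1.norm
      rw [norm_zero] at h2
      have h3 := h2.eventually (gt_mem_nhds hη)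
      rw [eventually_atTop] at h3
      obtain ⟨N0, hN0⟩ := h3
      refine ⟨N0, fun N hN k => ?_⟩
      rw [sub_zero, hsh k, norm_mul, norm_chr, one_mul]
      exact (hN0 N hN).le
  | zero =>
    refine ⟨0, fun η hη => ⟨0, fun N _ k => ?_⟩⟩
    simp [cm]; exact hη.le
  | add x y _ _ hx hy =>
    obtain ⟨L, hL⟩ := hx
    obtain ⟨L', hL'⟩ := hy
    refine ⟨L + L', fun η hη => ?_⟩
    obtain ⟨N0, hN0⟩ := hL (η/2) (by positivity)
    obtain ⟨N1, hN1⟩ := hL' (η/2) (by positivity)
    refine ⟨max N0 N1, fun N hN k => ?_⟩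
    have h1 := hN0 N (by omega) k
    have h2 := hN1 N (by omega) k
    have e : cm (fun n => (x + y) (k + n)) N = cm (fun n => x (k + n)) N + cm (fun n => y (k + n)) N := by
      simp only [cm, Pi.add_apply, Finset.sum_add_distrib, add_div]
    rw [e]
    calc _ = ‖(cm (fun n => x (k + n)) N - L) + (cm (fun n => y (k + n)) N - L')‖ := by congr 1; ring
      _ ≤ _ := norm_add_le _ _
      _ ≤ η := by linarith
  | smul c x _ hx =>
    obtain ⟨L, hL⟩ := hx
    refine ⟨c * L, fun η hη => ?_⟩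
    obtain ⟨N0, hN0⟩ := hL (η/(‖c‖+1)) (by positivity)
    refine ⟨N0, fun N hN k => ?_⟩
    have h1 := hN0 N hN k
    have e : cm (fun n => (c • x) (k + n)) N = c * cm (fun n => x (k + n)) N := by
      simp only [cm, Pi.smul_apply, smul_eq_mul, ← Finset.mul_sum, mul_div_assoc]
    rw [e, ← mul_sub, norm_mul]
    calc ‖c‖ * ‖cm (fun n => x (k + n)) N - L‖ ≤ ‖c‖ * (η/(‖c‖+1)) := by gcongr
      _ ≤ η := by
          rw [mul_div_assoc', div_le_iff₀ (by positivity)]
          nlinarith [norm_nonneg c]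

/-- uniform means of continuous functions of trigonometric polynomials -/
lemma Trig_umean_comp {t : ℕ → ℝ} (ht : (fun n => (t n : ℂ)) ∈ Trig) {g : ℝ → ℝ} (hg : Continuous g) {η : ℝ} (hη : 0 < η) :
    ∃ L : ℝ, ∃ N0 : ℕ, ∀ N : ℕ, N0 ≤ N → ∀ k : ℕ, |rm (fun n => g (t (k + n))) N - L| ≤ η := by
  obtain ⟨B, hB0, hB⟩ := Trig_bdd ht
  have hB' : ∀ n, t n ∈ Icc (-B) B := by
    intro n
    have := hB n
    rw [Complex.norm_real, Real.norm_eq_abs] at this
    exact abs_le.mp this
  obtain ⟨p, hp⟩ := exists_polynomial_near_of_continuousOn (-B) B g hg.continuousOn (η/2) (by positivity)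
  have hpt : (fun n => ((p.eval (t n) : ℝ) : ℂ)) ∈ Trig := by
    have e : (fun n => ((p.eval (t n) : ℝ) : ℂ)) = ∑ i ∈ Finset.range (p.natDegree + 1), ((p.coeff i : ℝ) : ℂ) • (fun n => (t n : ℂ))^i := by
      funext n
      rw [Finset.sum_apply, Polynomial.eval_eq_sum_range]
      push_cast
      apply Finset.sum_congr rfl
      intro i _
      simp only [Pi.smul_apply, Pi.pow_apply, smul_eq_mul]
    rw [e]
    apply Submodule.sum_mem
    intro i _
    exact Trig.smul_mem _ (Trig_pow ht i)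
  obtain ⟨L, hL⟩ := Trig_umean hpt
  obtain ⟨N0, hN0⟩ := hL (η/2) (by positivity)
  refine ⟨L.re, N0, fun N hN k => ?_⟩
  have h1 := hN0 N hN k
  have h2 : |rm (fun n => p.eval (t (k + n))) N - L.re| ≤ η/2 := by
    have e : cm (fun n => ((p.eval (t (k + n)) : ℝ) : ℂ)) N = ((rm (fun n => p.eval (t (k + n))) N : ℝ) : ℂ) :=
      cm_ofReal _ N
    rw [e] at h1
    have h3 := Complex.abs_re_le_norm (((rm (fun n => p.eval (t (k + n))) N : ℝ) : ℂ) - L)
    rw [Complex.sub_re, Complex.ofReal_re] at h3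
    exact h3.trans h1
  have h3 : |rm (fun n => g (t (k + n))) N - rm (fun n => p.eval (t (k + n))) N| ≤ η/2 := by
    have e1 : rm (fun n => g (t (k + n))) N - rm (fun n => p.eval (t (k + n))) N =
        rm (fun n => g (t (k + n)) - p.eval (t (k + n))) N := by
      unfold rm; rw [← sub_div, ← Finset.sum_sub_distrib]
    have e2 : |rm (fun n => g (t (k + n)) - p.eval (t (k + n))) N| ≤ rm (fun n => |g (t (k + n)) - p.eval (t (k + n))|) N := by
      unfold rm
      rw [abs_div, Nat.abs_cast]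
      apply div_le_div_of_nonneg_right _ (Nat.cast_nonneg N)
      exact Finset.abs_sum_le_sum_abs _ _
    rw [e1]
    refine e2.trans ((rm_mono (b := fun _ => η/2) ?_ N).trans (rm_const_le (by positivity) N))
    intro n
    rw [abs_sub_comm]
    exact (hp _ (hB' _)).le
  calc _ ≤ |rm (fun n => g (t (k + n))) N - rm (fun n => p.eval (t (k + n))) N| + |rm (fun n => p.eval (t (k + n))) N - L.re| :=
        abs_sub_le _ _ _
    _ ≤ η := by linarith

/-- almost periodicity over the windows `[k, k + N)` with `W N k` -/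
def WB (W : ℕ → ℕ → Prop) (e : ℕ → ℝ) : Prop := ∀ η : ℝ, 0 < η → ∃ t : ℕ → ℝ, (fun n => (t n : ℂ)) ∈ Trig ∧
  ∃ N0 : ℕ, ∀ N : ℕ, N0 ≤ N → ∀ k : ℕ, W N k → rm (fun n => (e (k + n) - t (k + n))^2) N ≤ η

variable {W : ℕ → ℕ → Prop} {e : ℕ → ℝ}

lemma WB.b2 (h : WB W e) (h0 : ∀ N, W N 0) : B2 e := by
  intro η hη
  obtain ⟨t, ht, N0, hN0⟩ := h η hη
  refine ⟨t, ht, N0, fun N hN => ?_⟩
  have := hN0 N hN 0 (h0 N)
  simpa using this

lemma WB.unif (h : WB W e) {η : ℝ} (hη : 0 < η) : ∃ K : ℝ, 1 ≤ K ∧ ∃ N0 : ℕ, ∀ N : ℕ, N0 ≤ N → ∀ k, W N k →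
    rm (fun n => if K < |e (k + n)| then (e (k + n))^2 else 0) N ≤ η := by
  obtain ⟨t, ht, N0, hN⟩ := h (η/4) (by positivity)
  obtain ⟨B, hB0, hB⟩ := Trig_bdd ht
  refine ⟨2 * B + 1, by linarith, N0, ?_⟩
  intro N hN' k hk
  have h2 : ∀ n, (if 2 * B + 1 < |e (k + n)| then (e (k + n))^2 else 0) ≤ 4 * (e (k + n) - t (k + n))^2 := by
    intro n
    split_ifs with hK
    · have h3 := hB (k + n)
      rw [Complex.norm_real, Real.norm_eq_abs] at h3
      have h4 : |e (k + n)| ≤ 2 * |e (k + n) - t (k + n)| := by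
        have := abs_sub_abs_le_abs_sub (e (k + n)) (t (k + n))
        linarith
      calc (e (k + n))^2 = |e (k + n)|^2 := (sq_abs _).symm
        _ ≤ (2 * |e (k + n) - t (k + n)|)^2 := pow_le_pow_left₀ (abs_nonneg _) h4 2
        _ = _ := by rw [mul_pow, sq_abs]; norm_num
    · positivity
  calc _ ≤ rm (fun n => 4 * (e (k + n) - t (k + n))^2) N := rm_mono h2 N
    _ = 4 * rm (fun n => (e (k + n) - t (k + n))^2) N := rm_mul _ _ _
    _ ≤ _ := by have := hN N hN' k hk; linarith

lemma rm_abs_sub_le (a b : ℕ → ℝ) (N : ℕ) : |rm a N - rm b N| ≤ rm (fun n => |a n - b n|) N := by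
  have e1 : rm a N - rm b N = rm (fun n => a n - b n) N := by
    unfold rm; rw [← sub_div, ← Finset.sum_sub_distrib]
  rw [e1]
  unfold rm
  rw [abs_div, Nat.abs_cast]
  apply div_le_div_of_nonneg_right _ (Nat.cast_nonneg N)
  exact Finset.abs_sum_le_sum_abs _ _

/-- functions with compact support -/
lemma WB.compact (h : WB W e) {f : ℝ → ℝ} (hf : UniformContinuous f) {B : ℝ} (hB : ∀ x, |f x| ≤ B) {η : ℝ} (hη : 0 < η) :
    ∃ L : ℝ, ∃ N0 : ℕ, ∀ N : ℕ, N0 ≤ N → ∀ k : ℕ, W N k → |rm (fun n => f (e (k + n))) N - L| ≤ η := by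
  rw [Metric.uniformContinuous_iff] at hf
  obtain ⟨d, hd, hfd⟩ := hf (η/4) (by positivity)
  have hB0 : 0 ≤ B := (abs_nonneg _).trans (hB 0)
  set C : ℝ := 2 * B / d^2 with hC
  have hC0 : 0 ≤ C := by positivity
  have hlip : ∀ x y, |f x - f y| ≤ η/4 + C * (x - y)^2 := by
    intro x y
    by_cases hxy : |x - y| < d
    · have h1 := hfd (a := x) (b := y) (by rw [Real.dist_eq]; exact hxy)
      rw [Real.dist_eq] at h1
      have : 0 ≤ C * (x - y)^2 := by positivity
      linarith
    · push Not at hxy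
      have h1 : |f x - f y| ≤ 2 * B := by
        have := abs_sub (f x) (f y)
        have := hB x
        have := hB y
        linarith
      have h2 : 2 * B ≤ C * (x - y)^2 := by
        rw [hC, div_mul_eq_mul_div, le_div_iff₀ (by positivity)]
        have : d^2 ≤ (x - y)^2 := by rw [← sq_abs (x - y)]; exact pow_le_pow_left₀ hd.le hxy 2
        nlinarith
      linarith
  obtain ⟨t, ht, N1, hN1⟩ := h (η/(4 * (C + 1))) (by positivity)
  obtain ⟨L, N2, hN2⟩ := Trig_umean_comp ht (g := f) (by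
    rw [Metric.continuous_iff]
    intro b ε hε
    -- continuity from uniform continuity at this scale is not enough; use hf
    obtain ⟨d', hd', h'⟩ := hf ε hε
    exact ⟨d', hd', fun a ha => h' ha⟩) (η := η/2) (by positivity)
  refine ⟨L, max N1 N2, fun N hN k hk => ?_⟩
  have h1 := hN1 N (by omega) k hk
  have h2 := hN2 N (by omega) k
  have h3 : |rm (fun n => f (e (k + n))) N - rm (fun n => f (t (k + n))) N| ≤ η/2 := by
    refine (rm_abs_sub_le _ _ N).trans ?_
    calc _ ≤ rm (fun n => η/4 + C * (e (k + n) - t (k + n))^2) N := rm_mono (fun n => hlip _ _) N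
      _ = rm (fun _ => η/4) N + C * rm (fun n => (e (k + n) - t (k + n))^2) N := by rw [rm_add, rm_mul]
      _ ≤ η/4 + C * (η/(4 * (C + 1))) := by
          have := rm_const_le (c := η/4) (by positivity) N
          gcongr
      _ ≤ η/4 + η/4 := by
          have : C * (η/(4 * (C + 1))) ≤ η/4 := by
            rw [mul_div_assoc', div_le_div_iff₀ (by positivity) (by norm_num)]
            nlinarith
          linarith
      _ = η/2 := by ring
  calc _ ≤ |rm (fun n => f (e (k + n))) N - rm (fun n => f (t (k + n))) N| + |rm (fun n => f (t (k + n))) N - L| :=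
        abs_sub_le _ _ _
    _ ≤ η := by linarith

/-- the limit theorem, uniform over the windows -/
theorem WB.limit (h : WB W e) (h0 : ∀ N, W N 0) : ∃ μ : ProbabilityMeasure ℝ,
    Integrable (fun x : ℝ => x^2) (μ : Measure ℝ) ∧
    ∀ f : ℝ → ℝ, Continuous f → (∃ C, ∀ x, |f x| ≤ C * (1 + x^2)) →
      ∀ η : ℝ, 0 < η → ∃ N0 : ℕ, ∀ N : ℕ, N0 ≤ N → ∀ k : ℕ, W N k →
        |rm (fun n => f (e (k + n))) N - ∫ x, f x ∂(μ : Measure ℝ)| ≤ η := by
  obtain ⟨μ, hint2, hμ⟩ := (h.b2 h0).limit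
  refine ⟨μ, hint2, ?_⟩
  intro f hf hC η hη
  obtain ⟨C, hC⟩ := hC
  have hC0 : 0 ≤ C := by
    have := hC 0
    have h2 := abs_nonneg (f 0)
    nlinarith
  have hgen := hμ f hf ⟨C, hC⟩
  -- cutoffs
  set χ : ℕ → ℝ → ℝ := fun K x => max 0 (min 1 (2 - |x| / (K+1))) with hχ
  have hχc : ∀ K, Continuous (χ K) := by
    intro K
    simp only [hχ]
    have : Continuous (fun x : ℝ => |x| / ((K:ℝ)+1)) := continuous_abs.div_const _
    fun_prop
  have hχ0 : ∀ K x, 0 ≤ χ K x := fun K x => le_max_left _ _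
  have hχ1 : ∀ K x, χ K x ≤ 1 := fun K x => max_le (by norm_num) (min_le_left _ _)
  have hχeq : ∀ (K : ℕ) (x : ℝ), |x| ≤ K + 1 → χ K x = 1 := by
    intro K x hx
    have : |x| / ((K:ℝ)+1) ≤ 1 := by rw [div_le_one (by positivity)]; exact hx
    simp only [hχ]
    rw [min_eq_left (by linarith), max_eq_right (by norm_num)]
  have hχz : ∀ (K : ℕ) (x : ℝ), 2 * (K + 1) ≤ |x| → χ K x = 0 := by
    intro K x hx
    have : 2 ≤ |x| / ((K:ℝ)+1) := by rw [le_div_iff₀ (by positivity)]; exact hx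
    simp only [hχ]
    rw [max_eq_left]
    exact (min_le_right _ _).trans (by linarith)
  obtain ⟨K1, hK1, N1, hN1⟩ := h.unif (η := η / (16 * (C + 1))) (by positivity)
  obtain ⟨K, hK⟩ := exists_nat_ge K1
  have hKK1 : K1 ≤ (K:ℝ) + 1 := by linarith
  -- truncation error
  have htr : ∀ N, N1 ≤ N → ∀ k, W N k → |rm (fun n => f (e (k + n))) N - rm (fun n => f (e (k + n)) * χ K (e (k + n))) N| ≤ η/8 := by
    intro N hN k hk
    have a1 := hN1 N hN k hk
    have e3 : ∀ n, |f (e (k + n)) - f (e (k + n)) * χ K (e (k + n))| ≤ (2 * C) * (if K1 < |e (k + n)| then (e (k + n))^2 else 0) := by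
      intro n
      set y := e (k + n) with hy
      by_cases hx : |y| ≤ K + 1
      · rw [hχeq K _ hx, mul_one, sub_self, abs_zero]
        split_ifs <;> positivity
      · push Not at hx
        have hx1 : K1 < |y| := by linarith
        rw [if_pos hx1]
        have b1 : f y - f y * χ K y = f y * (1 - χ K y) := by ring
        rw [b1, abs_mul, abs_of_nonneg (by linarith [hχ1 K y] : 0 ≤ 1 - χ K y)]
        have b2 : |f y| * (1 - χ K y) ≤ |f y| * 1 :=
          mul_le_mul_of_nonneg_left (by linarith [hχ0 K y]) (abs_nonneg _)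
        have b3 : 1 ≤ y^2 := by
          rw [← sq_abs]
          have : 1 ≤ |y| := by linarith
          nlinarith
        have b4 := hC y
        nlinarith
    refine (rm_abs_sub_le _ _ N).trans ((rm_mono e3 N).trans ?_)
    rw [rm_mul]
    calc 2 * C * rm (fun n => if K1 < |e (k + n)| then (e (k + n))^2 else 0) N ≤ 2 * C * (η / (16 * (C + 1))) :=
          mul_le_mul_of_nonneg_left a1 (by positivity)
      _ ≤ η/8 := by
          rw [mul_div_assoc', div_le_div_iff₀ (by positivity) (by norm_num)]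
          nlinarith
  -- compactly supported part
  have hcs : HasCompactSupport (fun x => f x * χ K x) := by
    apply HasCompactSupport.intro (K := Icc (-(2 * ((K:ℝ) + 1))) (2 * ((K:ℝ) + 1))) isCompact_Icc
    intro x hx
    have : 2 * ((K:ℝ) + 1) ≤ |x| := by
      by_contra hcon
      push Not at hcon
      exact hx (abs_le.mp hcon.le)
    rw [hχz K x this, mul_zero]
  have hcont : Continuous (fun x => f x * χ K x) := hf.mul (hχc K)
  obtain ⟨B, hB⟩ := hcs.exists_bound_of_continuous hcont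
  obtain ⟨L, N2, hN2⟩ := h.compact (f := fun x => f x * χ K x) (hcs.uniformContinuous_of_continuous hcont)
    (B := B) (fun x => by have := hB x; rwa [Real.norm_eq_abs] at this) (η := η/8) (by positivity)
  -- identify L
  rw [Metric.tendsto_atTop] at hgen
  obtain ⟨N3, hN3⟩ := hgen (η/8) (by positivity)
  have hL : |L - ∫ x, f x ∂(μ : Measure ℝ)| ≤ 3 * η / 8 := by
    set N := max N1 (max N2 N3) with hN
    have a1 := htr N (by omega) 0 (h0 N)
    have a2 := hN2 N (by omega) 0 (h0 N)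
    have a3 := hN3 N (by omega)
    rw [Real.dist_eq] at a3
    simp only [zero_add] at a1 a2
    rw [abs_sub_comm] at a2 a1
    calc |L - ∫ x, f x ∂(μ : Measure ℝ)| ≤ |L - rm (fun n => f (e n) * χ K (e n)) N| +
          |rm (fun n => f (e n) * χ K (e n)) N - ∫ x, f x ∂(μ : Measure ℝ)| := abs_sub_le _ _ _
      _ ≤ |L - rm (fun n => f (e n) * χ K (e n)) N| + (|rm (fun n => f (e n) * χ K (e n)) N - rm (fun n => f (e n)) N| +
          |rm (fun n => f (e n)) N - ∫ x, f x ∂(μ : Measure ℝ)|) := by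
          gcongr; exact abs_sub_le _ _ _
      _ ≤ _ := by linarith
  refine ⟨max N1 N2, fun N hN k hk => ?_⟩
  have b1 := htr N (by omega) k hk
  have b2 := hN2 N (by omega) k hk
  calc _ ≤ |rm (fun n => f (e (k + n))) N - rm (fun n => f (e (k + n)) * χ K (e (k + n))) N| +
        |rm (fun n => f (e (k + n)) * χ K (e (k + n))) N - ∫ x, f x ∂(μ : Measure ℝ)| := abs_sub_le _ _ _
    _ ≤ |rm (fun n => f (e (k + n))) N - rm (fun n => f (e (k + n)) * χ K (e (k + n))) N| +
        (|rm (fun n => f (e (k + n)) * χ K (e (k + n))) N - L| + |L - ∫ x, f x ∂(μ : Measure ℝ)|) := by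
        gcongr; exact abs_sub_le _ _ _
    _ ≤ η := by linarith

end Pool.Agent.H452R2.Win
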