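import Mathlib
import Pool.Agent.H452R2.Win.V5
import Pool.Agent.H452R2.Win.W6

open MeasureTheory Set Filter Topology
open Pool.Agent.H383
open Pool.Agent.H383.Gauss Pool.Agent.H383.AP

namespace Pool.Agent.H452R2.Win

variable {E : ℝ → ℝ} {a : ℕ → ℝ} {φ : ℝ} {w : ℝ → ℂ}

/-- the admissible windows `[k, k + N)` with `k ^ (1/2 + ε) ≤ N` -/
def Adw (ε : ℝ) (N k : ℕ) : Prop := (k:ℝ) ^ (1/2 + ε) ≤ N

lemma Adw_zero {ε : ℝ} (hε : 0 < ε) (N : ℕ) : Adw ε N 0 := by
  unfold Adw
  rw [Nat.cast_zero, Real.zero_rpow (by positivity)]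
  exact Nat.cast_nonneg N

/-- approximation in mean square by the model polynomials over windows -/
def ApW (W : ℕ → ℕ → Prop) (a : ℕ → ℝ) (φ : ℝ) (e : ℕ → ℝ) (α X : ℝ) : Prop := ∀ η : ℝ, 0 < η → ∃ M0 : ℕ, ∀ M : ℕ, M0 ≤ M →
  ∃ N0 : ℕ, ∀ N : ℕ, N0 ≤ N → ∀ k : ℕ, W N k →
    rm (fun n => (e (k + n) - Gen.U a φ (X + ((k + n : ℕ):ℝ) * α) M)^2) N ≤ η

lemma ApW.wb {W : ℕ → ℕ → Prop} {e : ℕ → ℝ} {α X : ℝ} (h : ApW W a φ e α X) : WB W e := by
  intro η hη
  obtain ⟨M0, h⟩ := h η hη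
  obtain ⟨N0, h⟩ := h M0 le_rfl
  exact ⟨fun n : ℕ => Gen.U a φ (X + n * α) M0, Gen.U_mem_Trig a φ α X M0, N0, h⟩

theorem apw_of (ha : Bdw a) (ha0 : a 0 = 0) (hw : GW.Wt w) {κ₁ κ₂ : ℝ} (hS : SandW E a φ w κ₁ κ₂)
    {α : ℝ} (hα : 0 < α) (X : ℝ) {Rn : ℕ → ℝ} (hRn : ∃ C₁ : ℝ, ∀ n : ℕ, |Rn n - (X + n * α)| ≤ C₁ / (n + 1))
    {ε : ℝ} (hε : 0 < ε) : ApW (Adw ε) a φ (fun n : ℕ => E (Rn n)) α X := by
  obtain ⟨T, hT, hmain⟩ := ap_win2 ha ha0 hw hS hα (ε := ε/2) (by positivity)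
  obtain ⟨C0, hC0, hS0⟩ := hS.sand
  have hAp := GW.ap_of ha.Bd ha0 hw hC0 hS0 hα X hRn
  obtain ⟨C₁, hRn⟩ := hRn
  intro η hη
  obtain ⟨M1, hM1⟩ := hAp (η/2) (by positivity)
  have hT2 := (hT.eventually (gt_mem_nhds (by positivity : 0 < η/2))).and (eventually_ge_atTop 1)
  rw [eventually_atTop] at hT2
  obtain ⟨M2, hM2⟩ := hT2
  refine ⟨max M1 M2, fun M hM => ?_⟩
  obtain ⟨hTM, hM1'⟩ := hM2 M (by omega)
  obtain ⟨N1, hN1⟩ := hM1 M (by omega)
  obtain ⟨N2, hN2⟩ := hmain M hM1' (η/2 ) (by positivity)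
  set s : ℕ → ℝ := fun i => (E (Rn i) - Gen.U a φ (X + i * α) M)^2 with hs
  have hs0 : ∀ i, 0 ≤ s i := fun i => sq_nonneg _
  -- size conditions
  set D : ℝ := 2 * (|X| + α) with hD
  have hD0 : 0 < D := by positivity
  set r : ℝ := (1/2 + ε/2) / (1/2 + ε) with hr
  have hr1 : r < 1 := by rw [hr, div_lt_one (by positivity)]; linarith
  obtain ⟨N3, hN3⟩ : ∃ N3 : ℕ, ∀ N : ℕ, N3 ≤ N → D ^ (1/2 + ε/2) * (N:ℝ) ^ (-(1 - r)) ≤ 1 := by
    have h1 := tend_nat_rpow (y := 1 - r) (by linarith) (D ^ (1/2 + ε/2))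
    have h2 := h1.eventually (gt_mem_nhds (by norm_num : (0:ℝ) < 1))
    rw [eventually_atTop] at h2
    obtain ⟨N3, hN3⟩ := h2
    exact ⟨N3, fun N hN => (hN3 N hN).le⟩
  set D2 : ℝ := |X| + α + 1 with hD2
  have hD20 : 0 < D2 := by positivity
  obtain ⟨N4, hN4⟩ : ∃ N4 : ℕ, ∀ N : ℕ, N4 ≤ N → |C₁| * D2 ^ (51/100:ℝ) * (N:ℝ) ^ (-(49/100):ℝ) ≤ 1 := by
    have h1 := tend_nat_rpow (y := 49/100) (by norm_num) (|C₁| * D2 ^ (51/100:ℝ))
    have h2 := h1.eventually (gt_mem_nhds (by norm_num : (0:ℝ) < 1))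
    rw [eventually_atTop] at h2
    obtain ⟨N4, hN4⟩ := h2
    exact ⟨N4, fun N hN => (hN4 N hN).le⟩
  obtain ⟨N5, hN5⟩ := exists_nat_ge ((4 - X)/α)
  refine ⟨N1 + N2 + N3 + N4 + N5 + 1, ?_⟩
  intro N hN k hk
  unfold Adw at hk
  have hN0 : (0:ℝ) < N := by exact_mod_cast (by omega : 0 < N)
  have hN1' : (1:ℝ) ≤ N := by exact_mod_cast (by omega : 1 ≤ N)
  change rm (fun n => s (k + n)) N ≤ η
  rcases lt_or_ge k N with hkN | hkN
  · -- initial windows
    have h1 := hN1 (2 * N) (by omega)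
    unfold rm at h1 ⊢
    rw [div_le_iff₀ (by push_cast; positivity)] at h1
    rw [div_le_iff₀ hN0]
    have h2 : ∑ n ∈ Finset.range N, s (k + n) ≤ ∑ i ∈ Finset.range (2 * N), s i := by
      have e2 : ∑ n ∈ Finset.range N, s (k + n) = ∑ i ∈ Finset.Ico k (k + N), s i := by
        rw [Finset.sum_Ico_eq_sum_range]
        simp
      rw [e2]
      apply Finset.sum_le_sum_of_subset_of_nonneg
      · intro i hi
        rw [Finset.mem_Ico] at hi
        rw [Finset.mem_range]; omega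
      · intro i _ _
        exact hs0 i
    refine h2.trans (h1.trans (le_of_eq ?_))
    push_cast; ring
  · -- distant windows
    have hkN' : (N:ℝ) ≤ k := by exact_mod_cast hkN
    have hk0 : (0:ℝ) < k := by linarith
    have hk1 : (1:ℝ) ≤ k := by linarith
    have hX4 : 4 ≤ X + k * α := by
      rw [div_le_iff₀ hα] at hN5
      have : (N5:ℝ) ≤ k := by
        have : N5 ≤ k := by omega
        exact_mod_cast this
      have := mul_le_mul_of_nonneg_right this hα.le
      linarith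
    have hXN : (X + k * α) ^ (1/2 + ε/2) ≤ N := by
      have hkN2 : (k:ℝ) ≤ (N:ℝ) ^ (1 / (1/2 + ε)) := by
        have h3 : ((k:ℝ) ^ (1/2 + ε)) ^ (1 / (1/2 + ε)) ≤ (N:ℝ) ^ (1 / (1/2 + ε)) :=
          Real.rpow_le_rpow (by positivity) hk (by positivity)
        rw [← Real.rpow_mul hk0.le, mul_one_div_cancel (by positivity), Real.rpow_one] at h3
        exact h3
      have h1N : 1 ≤ (N:ℝ) ^ (1 / (1/2 + ε)) := Real.one_le_rpow hN1' (by positivity)
      have hXD : X + k * α ≤ D * (N:ℝ) ^ (1 / (1/2 + ε)) := by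
        have h4 : X ≤ |X| * (N:ℝ) ^ (1 / (1/2 + ε)) := by
          have := le_abs_self X
          have := abs_nonneg X
          nlinarith
        have h5 : (k:ℝ) * α ≤ α * (N:ℝ) ^ (1 / (1/2 + ε)) := by
          rw [mul_comm]; exact mul_le_mul_of_nonneg_left hkN2 hα.le
        have h6 : 0 ≤ (|X| + α) * (N:ℝ) ^ (1 / (1/2 + ε)) := by positivity
        rw [hD]; linarith
      calc (X + k * α) ^ (1/2 + ε/2) ≤ (D * (N:ℝ) ^ (1 / (1/2 + ε))) ^ (1/2 + ε/2) :=
            Real.rpow_le_rpow (by linarith) hXD (by positivity)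
        _ = D ^ (1/2 + ε/2) * (N:ℝ) ^ r := by
            rw [Real.mul_rpow hD0.le (by positivity), ← Real.rpow_mul hN0.le, hr]
            congr 2; ring
        _ = (D ^ (1/2 + ε/2) * (N:ℝ) ^ (-(1 - r))) * (N:ℝ) ^ (1:ℝ) := by
            rw [mul_assoc, ← Real.rpow_add hN0]; congr 2; ring
        _ ≤ 1 * (N:ℝ) ^ (1:ℝ) := mul_le_mul_of_nonneg_right (hN3 N (by omega)) (by positivity)
        _ = N := by rw [Real.rpow_one, one_mul]
    have hZ : X + k * α + N ≤ D2 * k := by
      have := le_abs_self X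
      have := abs_nonneg X
      rw [hD2]
      nlinarith
    have hZ0 : 0 < X + k * α + N := by linarith
    have h1 := hN2 N (by omega) (X + k * α) hX4 hXN (fun n => Rn (k + n)) (by
      intro n hn
      have s1 := hRn (k + n)
      have e : X + k * α + n * α = X + ((k + n : ℕ):ℝ) * α := by push_cast; ring
      rw [e]
      refine s1.trans ?_
      have hn0 : (0:ℝ) ≤ n := Nat.cast_nonneg n
      calc C₁ / (((k + n : ℕ):ℝ) + 1) ≤ |C₁| / (((k + n : ℕ):ℝ) + 1) := by gcongr; exact le_abs_self _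
        _ ≤ |C₁| / k := by
            gcongr
            push_cast; linarith
        _ ≤ (D2 * k) ^ (-(51/100):ℝ) := by
            have hN4k := hN4 k (by omega)
            rw [div_le_iff₀ hk0, Real.mul_rpow hD20.le hk0.le]
            have e1 : D2 ^ (-(51/100):ℝ) * (k:ℝ) ^ (-(51/100):ℝ) * k = D2 ^ (-(51/100):ℝ) * (k:ℝ) ^ (49/100:ℝ) := by
              rw [mul_assoc]
              congr 1
              nth_rewrite 2 [← Real.rpow_one (k:ℝ)]
              rw [← Real.rpow_add hk0]; norm_num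
            rw [e1]
            have e2 : D2 ^ (-(51/100):ℝ) * D2 ^ (51/100:ℝ) = 1 := by
              rw [← Real.rpow_add hD20]; norm_num
            have e3 : (k:ℝ) ^ (49/100:ℝ) * (k:ℝ) ^ (-(49/100):ℝ) = 1 := by
              rw [← Real.rpow_add hk0]; norm_num
            calc |C₁| = (|C₁| * D2 ^ (51/100:ℝ) * (k:ℝ) ^ (-(49/100):ℝ)) * (D2 ^ (-(51/100):ℝ) * (k:ℝ) ^ (49/100:ℝ)) := by
                  have : (|C₁| * D2 ^ (51/100:ℝ) * (k:ℝ) ^ (-(49/100):ℝ)) * (D2 ^ (-(51/100):ℝ) * (k:ℝ) ^ (49/100:ℝ)) =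
                    |C₁| * (D2 ^ (-(51/100):ℝ) * D2 ^ (51/100:ℝ)) * ((k:ℝ) ^ (49/100:ℝ) * (k:ℝ) ^ (-(49/100):ℝ)) := by ring
                  rw [this, e2, e3]; ring
              _ ≤ 1 * (D2 ^ (-(51/100):ℝ) * (k:ℝ) ^ (49/100:ℝ)) :=
                  mul_le_mul_of_nonneg_right hN4k (by positivity)
              _ = _ := one_mul _
        _ ≤ (X + k * α + N) ^ (-(51/100):ℝ) := Real.rpow_le_rpow_of_nonpos hZ0 hZ (by norm_num))
    unfold rm
    have e1 : ∀ n ∈ Finset.range N, (E (Rn (k + n)) - Gen.U a φ (X + k * α + n * α) M)^2 = s (k + n) := by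
      intro n _
      simp only [hs]
      have : X + k * α + n * α = X + ((k + n : ℕ):ℝ) * α := by push_cast; ring
      rw [this]
    rw [Finset.sum_congr rfl e1] at h1
    linarith

variable {W : ℕ → ℕ → Prop} {e : ℕ → ℝ}

/-- the limit theorem, uniform over the windows, for a given limit law -/
theorem WB.limit_of (h : WB W e) (h0 : ∀ N, W N 0) {μ : ProbabilityMeasure ℝ}
    (hμ : ∀ f : ℝ → ℝ, Continuous f → (∃ C, ∀ x, |f x| ≤ C * (1 + x^2)) →
      Tendsto (rm (fun n => f (e n))) atTop (𝓝 (∫ x, f x ∂(μ : Measure ℝ)))) :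
    ∀ f : ℝ → ℝ, Continuous f → (∃ C, ∀ x, |f x| ≤ C * (1 + x^2)) →
      ∀ η : ℝ, 0 < η → ∃ N0 : ℕ, ∀ N : ℕ, N0 ≤ N → ∀ k : ℕ, W N k →
        |rm (fun n => f (e (k + n))) N - ∫ x, f x ∂(μ : Measure ℝ)| ≤ η := by
  obtain ⟨ν, _, hν⟩ := h.limit h0
  intro f hf hC η hη
  obtain ⟨N0, hN0⟩ := hν f hf hC η hη
  have h1 : Tendsto (rm (fun n => f (e n))) atTop (𝓝 (∫ x, f x ∂(ν : Measure ℝ))) := by
    rw [Metric.tendsto_atTop]
    intro ε hε
    obtain ⟨N1, hN1⟩ := hν f hf hC (ε/2) (by positivity)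
    refine ⟨N1, fun N hN => ?_⟩
    have h2 := hN1 N hN 0 (h0 N)
    simp only [zero_add] at h2
    rw [Real.dist_eq]
    linarith
  have h2 := tendsto_nhds_unique h1 (hμ f hf hC)
  rw [← h2]
  exact ⟨N0, hN0⟩

/-- the distribution function of a law without atoms -/
lemma cdf_cont {μ : ProbabilityMeasure ℝ} (hna : ∀ x : ℝ, (μ : Measure ℝ) {x} = 0) :
    Continuous (fun x => (μ : Measure ℝ).real (Iic x)) := by
  set f := ProbabilityTheory.cdf (μ : Measure ℝ) with hf
  have h1 : ∀ x, (μ : Measure ℝ).real (Iic x) = f x := fun x => (ProbabilityTheory.cdf_eq_real _ x).symm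
  simp only [h1]
  rw [continuous_iff_continuousAt]
  intro x
  have h2 := f.measure_singleton x
  rw [ProbabilityTheory.measure_cdf, hna x, eq_comm, ENNReal.ofReal_eq_zero] at h2
  have h3 : Function.leftLim f x ≤ f x := f.mono.leftLim_le le_rfl
  have h4 : Function.leftLim f x = f x := le_antisymm h3 (by linarith)
  have h5 : ContinuousWithinAt f (Iio x) x := (f.mono.continuousWithinAt_Iio_iff_leftLim_eq).mpr h4
  have h6 := f.right_continuous x
  rw [continuousAt_iff_continuous_left'_right']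
  exact ⟨h5, h6.mono Ioi_subset_Ici_self⟩

lemma int_le_real {μ : ProbabilityMeasure ℝ} {g : ℝ → ℝ} (hg : Continuous g) (h0 : ∀ y, 0 ≤ g y) (h1 : ∀ y, g y ≤ 1) {z : ℝ}
    (hz : ∀ y, z < y → g y = 0) : ∫ y, g y ∂(μ : Measure ℝ) ≤ (μ : Measure ℝ).real (Iic z) := by
  have hi : Integrable g (μ : Measure ℝ) := Integrable.of_bound hg.aestronglyMeasurable 1
    (Eventually.of_forall (fun y => by rw [Real.norm_eq_abs, abs_of_nonneg (h0 y)]; exact h1 y))
  have h2 : ∫ y, g y ∂(μ : Measure ℝ) ≤ ∫ y, (Iic z).indicator (fun _ => (1:ℝ)) y ∂(μ : Measure ℝ) := by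
    apply integral_mono hi ((integrable_const (1:ℝ)).indicator measurableSet_Iic)
    intro y
    by_cases hy : y ≤ z
    · rw [indicator_of_mem (show y ∈ Iic z from hy)]; exact h1 y
    · rw [indicator_of_notMem (show y ∉ Iic z from hy), hz y (not_le.mp hy)]
  refine h2.trans (le_of_eq ?_)
  rw [integral_indicator measurableSet_Iic, integral_const, smul_eq_mul, mul_one]
  simp [measureReal_def]

lemma real_le_int {μ : ProbabilityMeasure ℝ} {g : ℝ → ℝ} (hg : Continuous g) (h0 : ∀ y, 0 ≤ g y) (h1 : ∀ y, g y ≤ 1) {z : ℝ}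
    (hz : ∀ y, y ≤ z → g y = 1) : (μ : Measure ℝ).real (Iic z) ≤ ∫ y, g y ∂(μ : Measure ℝ) := by
  have hi : Integrable g (μ : Measure ℝ) := Integrable.of_bound hg.aestronglyMeasurable 1
    (Eventually.of_forall (fun y => by rw [Real.norm_eq_abs, abs_of_nonneg (h0 y)]; exact h1 y))
  have h2 : ∫ y, (Iic z).indicator (fun _ => (1:ℝ)) y ∂(μ : Measure ℝ) ≤ ∫ y, g y ∂(μ : Measure ℝ) := by
    apply integral_mono ((integrable_const (1:ℝ)).indicator measurableSet_Iic) hi
    intro y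
    by_cases hy : y ≤ z
    · rw [indicator_of_mem (show y ∈ Iic z from hy), hz y hy]
    · rw [indicator_of_notMem (show y ∉ Iic z from hy)]; exact h0 y
  refine le_trans (le_of_eq ?_) h2
  rw [integral_indicator measurableSet_Iic, integral_const, smul_eq_mul, mul_one]
  simp [measureReal_def]

open Classical in
lemma rm_ind (e : ℕ → ℝ) (k N : ℕ) (x : ℝ) : rm (fun n => if e (k + n) ≤ x then (1:ℝ) else 0) N =
    (((Finset.range N).filter (fun n => e (k + n) ≤ x)).card : ℝ) / N := by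
  unfold rm
  rw [← Finset.sum_filter, Finset.sum_const, nsmul_eq_mul, mul_one]

open Classical in
/-- pointwise version -/
lemma WB.cdf_pt (h : WB W e) (h0 : ∀ N, W N 0) {μ : ProbabilityMeasure ℝ}
    (hμ : ∀ f : ℝ → ℝ, Continuous f → (∃ C, ∀ x, |f x| ≤ C * (1 + x^2)) →
      Tendsto (rm (fun n => f (e n))) atTop (𝓝 (∫ x, f x ∂(μ : Measure ℝ))))
    (hna : ∀ x : ℝ, (μ : Measure ℝ) {x} = 0) (x : ℝ) {η : ℝ} (hη : 0 < η) : ∃ N0 : ℕ, ∀ N : ℕ, N0 ≤ N → ∀ k : ℕ, W N k →
      |(((Finset.range N).filter (fun n => e (k + n) ≤ x)).card : ℝ) / N - (μ : Measure ℝ).real (Iic x)| ≤ η := by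
  have hc := cdf_cont hna
  set F : ℝ → ℝ := fun x => (μ : Measure ℝ).real (Iic x) with hF
  obtain ⟨d0, hd0, hd⟩ := (Metric.continuous_iff.mp hc) x (η/2) (by positivity)
  set d := d0/2 with hdd
  have hdpos : 0 < d := by positivity
  have hd1 : F (x + d) ≤ F x + η/2 := by
    have := hd (x + d) (by rw [Real.dist_eq, add_sub_cancel_left, abs_of_pos hdpos]; linarith)
    rw [Real.dist_eq] at this
    linarith [(abs_lt.mp this).2]
  have hd2 : F x - η/2 ≤ F (x - d) := by
    have := hd (x - d) (by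
      rw [Real.dist_eq, show x - d - x = -d by ring, abs_neg, abs_of_pos hdpos]; linarith)
    rw [Real.dist_eq] at this
    linarith [(abs_lt.mp this).1]
  set g1 : ℝ → ℝ := fun y => max 0 (min 1 (1 - (y - x)/d)) with hg1
  set g2 : ℝ → ℝ := fun y => max 0 (min 1 ((x - y)/d)) with hg2
  have c1 : Continuous g1 := by
    have : Continuous (fun y : ℝ => (y - x)/d) := by fun_prop
    fun_prop
  have c2 : Continuous g2 := by
    have : Continuous (fun y : ℝ => (x - y)/d) := by fun_prop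
    fun_prop
  have g10 : ∀ y, 0 ≤ g1 y := fun y => le_max_left _ _
  have g11 : ∀ y, g1 y ≤ 1 := fun y => max_le (by norm_num) (min_le_left _ _)
  have g20 : ∀ y, 0 ≤ g2 y := fun y => le_max_left _ _
  have g21 : ∀ y, g2 y ≤ 1 := fun y => max_le (by norm_num) (min_le_left _ _)
  have g1z : ∀ y, x + d < y → g1 y = 0 := by
    intro y hy
    have : 1 ≤ (y - x)/d := by rw [le_div_iff₀ hdpos]; linarith
    simp only [hg1]
    rw [max_eq_left]
    exact (min_le_right _ _).trans (by linarith)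
  have g1o : ∀ y, y ≤ x → g1 y = 1 := by
    intro y hy
    have : (y - x)/d ≤ 0 := div_nonpos_of_nonpos_of_nonneg (by linarith) hdpos.le
    simp only [hg1]
    rw [min_eq_left (by linarith), max_eq_right (by norm_num)]
  have g2z : ∀ y, x < y → g2 y = 0 := by
    intro y hy
    have : (x - y)/d ≤ 0 := div_nonpos_of_nonpos_of_nonneg (by linarith) hdpos.le
    simp only [hg2]
    rw [max_eq_left]
    exact (min_le_right _ _).trans this
  have g2o : ∀ y, y ≤ x - d → g2 y = 1 := by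
    intro y hy
    have : 1 ≤ (x - y)/d := by rw [le_div_iff₀ hdpos]; linarith
    simp only [hg2]
    rw [min_eq_left this, max_eq_right (by norm_num)]
  have hbd : ∀ g : ℝ → ℝ, (∀ y, 0 ≤ g y) → (∀ y, g y ≤ 1) → ∃ C, ∀ y, |g y| ≤ C * (1 + y^2) := by
    intro g a b
    refine ⟨1, fun y => ?_⟩
    rw [abs_of_nonneg (a y)]
    have := b y
    nlinarith [sq_nonneg y]
  obtain ⟨N1, hN1⟩ := h.limit_of h0 hμ g1 c1 (hbd g1 g10 g11) (η/2) (by positivity)
  obtain ⟨N2, hN2⟩ := h.limit_of h0 hμ g2 c2 (hbd g2 g20 g21) (η/2) (by positivity)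
  refine ⟨max N1 N2, fun N hN k hk => ?_⟩
  have a1 := (abs_le.mp (hN1 N (by omega) k hk)).2
  have a2 := (abs_le.mp (hN2 N (by omega) k hk)).1
  have b1 := int_le_real (μ := μ) c1 g10 g11 g1z
  have b2 := real_le_int (μ := μ) c2 g20 g21 g2o
  have e1 : rm (fun n => if e (k + n) ≤ x then (1:ℝ) else 0) N ≤ rm (fun n => g1 (e (k + n))) N := by
    apply rm_mono
    intro n
    split_ifs with hc
    · rw [g1o _ hc]
    · exact g10 _
  have e2 : rm (fun n => g2 (e (k + n))) N ≤ rm (fun n => if e (k + n) ≤ x then (1:ℝ) else 0) N := by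
    apply rm_mono
    intro n
    split_ifs with hc
    · exact g21 _
    · rw [g2z _ (not_le.mp hc)]
  rw [rm_ind] at e1 e2
  change (μ : Measure ℝ).real (Iic (x + d)) ≤ F x + η/2 at hd1
  change F x - η/2 ≤ (μ : Measure ℝ).real (Iic (x - d)) at hd2
  change |_ - F x| ≤ η
  rw [abs_le]
  constructor <;> linarith

open Classical in
/-- convergence of the distribution functions, uniform in the point and over the windows -/
theorem WB.cdf (h : WB W e) (h0 : ∀ N, W N 0) {μ : ProbabilityMeasure ℝ}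
    (hμ : ∀ f : ℝ → ℝ, Continuous f → (∃ C, ∀ x, |f x| ≤ C * (1 + x^2)) →
      Tendsto (rm (fun n => f (e n))) atTop (𝓝 (∫ x, f x ∂(μ : Measure ℝ))))
    (hna : ∀ x : ℝ, (μ : Measure ℝ) {x} = 0) :
    ∀ η : ℝ, 0 < η → ∃ N0 : ℕ, ∀ N : ℕ, N0 ≤ N → ∀ k : ℕ, W N k → ∀ x : ℝ,
      |(((Finset.range N).filter (fun n => e (k + n) ≤ x)).card : ℝ) / N - (μ : Measure ℝ).real (Iic x)| ≤ η := by
  intro η hη
  have hc := cdf_cont hna
  set F : ℝ → ℝ := fun x => (μ : Measure ℝ).real (Iic x) with hF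
  have hFm : Monotone F := by
    intro x y hxy
    exact measureReal_mono (Iic_subset_Iic.mpr hxy)
  have hF0 : ∀ x, 0 ≤ F x := fun x => measureReal_nonneg
  have hF1 : ∀ x, F x ≤ 1 := fun x => measureReal_le_one
  have hbot : Tendsto F atBot (𝓝 0) := by
    have := ProbabilityTheory.tendsto_cdf_atBot (μ : Measure ℝ)
    refine this.congr (fun x => ?_)
    rw [ProbabilityTheory.cdf_eq_real]
  have htop : Tendsto F atTop (𝓝 1) := by
    have := ProbabilityTheory.tendsto_cdf_atTop (μ : Measure ℝ)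
    refine this.congr (fun x => ?_)
    rw [ProbabilityTheory.cdf_eq_real]
  obtain ⟨m, hm⟩ := exists_nat_gt (2/η)
  have hm0 : (0:ℝ) < m := lt_trans (by positivity) hm
  have hmη : 1/(m:ℝ) ≤ η/2 := by
    rw [div_le_iff₀ hm0]
    rw [div_lt_iff₀ hη] at hm
    linarith
  have hq : ∀ j : ℕ, ∃ x : ℝ, 0 < j → j < m → F x = j/m := by
    intro j
    by_cases hj : 0 < j ∧ j < m
    · have hj0 : (0:ℝ) < j/m := by have : (0:ℝ) < j := by exact_mod_cast hj.1
                                   positivity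
      have hj1 : (j:ℝ)/m < 1 := by rw [div_lt_one hm0]; exact_mod_cast hj.2
      obtain ⟨a, ha⟩ := (hbot.eventually (gt_mem_nhds hj0)).exists
      obtain ⟨b, hb⟩ := (htop.eventually (lt_mem_nhds hj1)).exists
      obtain ⟨x, hx⟩ := mem_range_of_exists_le_of_exists_ge hc ⟨a, ha.le⟩ ⟨b, hb.le⟩
      exact ⟨x, fun _ _ => hx⟩
    · exact ⟨0, fun a b => absurd ⟨a, b⟩ hj⟩
  choose xs hxs using hq
  have hpt : ∀ j : ℕ, ∃ N0 : ℕ, ∀ N : ℕ, N0 ≤ N → ∀ k : ℕ, W N k →
      |(((Finset.range N).filter (fun n => e (k + n) ≤ xs j)).card : ℝ) / N - (μ : Measure ℝ).real (Iic (xs j))| ≤ η/2 :=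
    fun j => h.cdf_pt h0 hμ hna (xs j) (by positivity)
  choose Ns hNs using hpt
  refine ⟨(Finset.range m).sup Ns + 1, fun N hN k hk x => ?_⟩
  have hN0 : (0:ℝ) < N := by exact_mod_cast (by omega : 0 < N)
  set Gf : ℝ → ℝ := fun x => (((Finset.range N).filter (fun n => e (k + n) ≤ x)).card : ℝ) / N with hGf
  have hGm : Monotone Gf := by
    intro x y hxy
    simp only [hGf]
    apply div_le_div_of_nonneg_right _ hN0.le
    have : (Finset.range N).filter (fun n => e (k + n) ≤ x) ⊆ (Finset.range N).filter (fun n => e (k + n) ≤ y) := by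
      intro n hn
      rw [Finset.mem_filter] at hn ⊢
      exact ⟨hn.1, hn.2.trans hxy⟩
    exact_mod_cast Finset.card_le_card this
  have hG0 : ∀ x, 0 ≤ Gf x := fun x => by positivity
  have hG1 : ∀ x, Gf x ≤ 1 := by
    intro x
    simp only [hGf]
    rw [div_le_one hN0]
    have := Finset.card_filter_le (Finset.range N) (fun n => e (k + n) ≤ x)
    rw [Finset.card_range] at this
    exact_mod_cast this
  have hpj : ∀ j : ℕ, j < m → |Gf (xs j) - F (xs j)| ≤ η/2 := by
    intro j hj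
    have h1 : Ns j ≤ (Finset.range m).sup Ns := Finset.le_sup (Finset.mem_range.mpr hj)
    exact hNs j N (by omega) k hk
  change |Gf x - F x| ≤ η
  have hFx0 := hF0 x
  have hFx1 := hF1 x
  rw [abs_le]
  constructor
  · -- lower bound
    set j := ⌈m * F x⌉₊ - 1 with hj
    by_cases hj0 : j = 0
    · have h1 : ⌈m * F x⌉₊ ≤ 1 := by omega
      have h2 : m * F x ≤ 1 := (Nat.le_ceil _).trans (by exact_mod_cast h1)
      have h3 : F x ≤ 1/m := by rw [le_div_iff₀ hm0]; linarith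
      have := hG0 x
      linarith
    · have hc1 : j + 1 = ⌈m * F x⌉₊ := by omega
      have h1 : (j:ℝ) < m * F x := by
        have : j < ⌈m * F x⌉₊ := by omega
        exact Nat.lt_ceil.mp this
      have h2 : m * F x ≤ j + 1 := by
        have := Nat.le_ceil (m * F x)
        rw [← hc1] at this
        push_cast at this
        exact this
      have hjm : j < m := by
        have : (j:ℝ) < m := by nlinarith
        exact_mod_cast this
      have h3 := hxs j (by omega) hjm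
      have h4 : xs j ≤ x := by
        by_contra hcon
        push Not at hcon
        have := hFm hcon.le
        rw [h3] at this
        have : m * F x ≤ j := by
          rw [le_div_iff₀ hm0] at this
          linarith
        linarith
      have h5 := hGm h4
      have h6 := (abs_le.mp (hpj j hjm)).1
      rw [h3] at h6
      have h7 : F x ≤ j/m + 1/m := by
        rw [← add_div, le_div_iff₀ hm0]; linarith
      linarith
  · set i := ⌊m * F x⌋₊ + 1 with hi
    have h1 : m * F x < i := by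
      rw [hi]; push_cast; exact Nat.lt_floor_add_one _
    have h2 : (i:ℝ) ≤ m * F x + 1 := by
      rw [hi]; push_cast
      have := Nat.floor_le (by positivity : 0 ≤ m * F x)
      linarith
    by_cases him : i < m
    · have h3 := hxs i (by omega) him
      have h4 : x ≤ xs i := by
        by_contra hcon
        push Not at hcon
        have := hFm hcon.le
        rw [h3] at this
        have : (i:ℝ) ≤ m * F x := by
          rw [div_le_iff₀ hm0] at this
          linarith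
        linarith
      have h5 := hGm h4
      have h6 := (abs_le.mp (hpj i him)).2
      rw [h3] at h6
      have h7 : (i:ℝ)/m ≤ F x + 1/m := by
        rw [div_le_iff₀ hm0, add_mul, div_mul_cancel₀ _ hm0.ne']; linarith
      linarith
    · push Not at him
      have h3 : (m:ℝ) ≤ i := by exact_mod_cast him
      have h4 : 1 ≤ F x + 1/m := by
        have : (1:ℝ) * m ≤ (F x + 1/m) * m := by
          rw [add_mul, div_mul_cancel₀ _ hm0.ne']; linarith
        exact le_of_mul_le_mul_right this hm0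
      have := hG1 x
      linarith

end Pool.Agent.H452R2.Win
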