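import Mathlib
import Pool.Agent.H452R2.Win.V6
import Pool.Agent.H452R2.Div.S2
import Pool.Agent.H383.DivC
import Pool.Agent.H383.GaussW

open MeasureTheory Set Filter Topology
open Pool.Agent.H387R2.Vor
open Pool.Agent.H383
open Pool.Agent.H383.AP
open Pool.Agent.H383.Gen (cf)
open Pool.Agent.H383.Div

namespace Pool.Agent.H452R2.Win

section divisor

/-- the sandwich for the divisor problem -/
theorem E2_SandW (hV : VorStmt) : SandW E2 ad (Real.pi/4) wd 1 (-3) := by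
  obtain ⟨C, hC, hV⟩ := hV
  intro η hη
  obtain ⟨C1, hC1, hst⟩ := Pool.Agent.H452R2.Div.Sh.Ed_step' hη
  have hrp : ∀ R δ : ℝ, 4 ≤ R → 0 < δ → (R/4) ^ (-(12/25):ℝ) * (δ/2) ^ (-(13/25):ℝ) ≤
      8 * (R ^ (-(12/25):ℝ) * δ ^ (-(13/25):ℝ)) := by
    intro R δ hR hδ
    have hR0 : 0 < R := by linarith
    rw [Real.div_rpow hR0.le (by norm_num), Real.div_rpow hδ.le (by norm_num)]
    have h1 : (4:ℝ) ^ (-(12/25):ℝ) = 1 / 4 ^ (12/25:ℝ) := by rw [Real.rpow_neg (by norm_num)]; ring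
    have h2 : (2:ℝ) ^ (-(13/25):ℝ) = 1 / 2 ^ (13/25:ℝ) := by rw [Real.rpow_neg (by norm_num)]; ring
    have h3 : (4:ℝ) ^ (12/25:ℝ) ≤ 4 := by
      calc (4:ℝ) ^ (12/25:ℝ) ≤ 4 ^ (1:ℝ) := Real.rpow_le_rpow_of_exponent_le (by norm_num) (by norm_num)
        _ = 4 := Real.rpow_one 4
    have h4 : (2:ℝ) ^ (13/25:ℝ) ≤ 2 := by
      calc (2:ℝ) ^ (13/25:ℝ) ≤ 2 ^ (1:ℝ) := Real.rpow_le_rpow_of_exponent_le (by norm_num) (by norm_num)
        _ = 2 := Real.rpow_one 2
    rw [h1, h2]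
    calc R ^ (-(12/25):ℝ) / (1 / 4 ^ (12/25:ℝ)) * (δ ^ (-(13/25):ℝ) / (1 / 2 ^ (13/25:ℝ))) =
        (4 ^ (12/25:ℝ) * 2 ^ (13/25:ℝ)) * (R ^ (-(12/25):ℝ) * δ ^ (-(13/25):ℝ)) := by field_simp
      _ ≤ (4 * 2) * (R ^ (-(12/25):ℝ) * δ ^ (-(13/25):ℝ)) := by gcongr
      _ = _ := by ring
  refine ⟨8 * C + 4 * C1, by positivity, ?_⟩
  intro R R' δ hR hδ hδ1 hRR
  constructor
  · have hR0 : 0 < R := by linarith
    obtain ⟨hRR1, hRR2⟩ := abs_le.mp hRR
    set r := R/2 with hr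
    set d := δ/2 with hd
    have hd0 : 0 < d := by rw [hd]; positivity
    have h1 : Ed (R'/2) - 4 * C1 * d * R ^ (1/2 + η) ≤ Av (r + d) d := by
      apply Av_lower (by linarith) hd0
      intro s hs hs1
      have h1 := hst (R'/2) (r + d + s - R'/2) (by linarith) (by linarith) (by linarith)
      have e : R'/2 + (r + d + s - R'/2) = r + d + s := by ring
      rw [e] at h1
      have h3 : (R'/2) ^ (1/2 + η) ≤ R ^ (1/2 + η) :=
        Real.rpow_le_rpow (by linarith) (by linarith) (by positivity)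
      have h4 : 0 ≤ (R'/2) ^ (1/2 + η) := by
        have : 0 ≤ R'/2 := by linarith
        positivity
      have h2 : C1 * (r + d + s - R'/2) * (R'/2) ^ (1/2 + η) ≤ C1 * (4 * d) * R ^ (1/2 + η) := by
        exact mul_le_mul (mul_le_mul_of_nonneg_left (by linarith) hC1.le) h3 h4 (by positivity)
      linarith
    have h2 := hV (r + d) d (by linarith) hd0 (by linarith)
    rw [vt_tsum] at h2
    have e1 : 2 * (r + d) = R + 1 * δ := by rw [hr, hd]; ring
    have e2 : 2 * d = δ := by rw [hd]; ring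
    rw [e1, e2] at h2
    have h3 := (abs_le.mp h2).2
    have h5 : (r + d) ^ (-(12/25):ℝ) * d ^ (-(13/25):ℝ) ≤ 8 * (R ^ (-(12/25):ℝ) * δ ^ (-(13/25):ℝ)) := by
      refine le_trans ?_ (hrp R δ hR hδ)
      apply mul_le_mul_of_nonneg_right _ (by positivity)
      exact Real.rpow_le_rpow_of_nonpos (by positivity) (by linarith) (by norm_num)
    have h6 : C * ((r + d) ^ (-(12/25):ℝ) * d ^ (-(13/25):ℝ)) ≤ C * (8 * (R ^ (-(12/25):ℝ) * δ ^ (-(13/25):ℝ))) :=
      mul_le_mul_of_nonneg_left h5 hC.le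
    have h7 : 4 * C1 * d * R ^ (1/2 + η) = 2 * C1 * (δ * R ^ (1/2 + η)) := by rw [hd]; ring
    have h8 : 0 ≤ R ^ (-(12/25):ℝ) * δ ^ (-(13/25):ℝ) := by positivity
    have h9 : 0 ≤ δ * R ^ (1/2 + η) := by positivity
    have h10 : 0 ≤ δ ^ (2/5:ℝ) := by positivity
    have h11 : 0 ≤ C * (δ * R ^ (1/2 + η)) := by positivity
    have h12 : 0 ≤ C * δ ^ (2/5:ℝ) := by positivity
    rw [WS_wd]
    have h13 : 0 ≤ C1 * (R ^ (-(12/25):ℝ) * δ ^ (-(13/25):ℝ)) := by positivity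
    have h14 : 0 ≤ C1 * (δ * R ^ (1/2 + η)) := by positivity
    have h15 : 0 ≤ C1 * δ ^ (2/5:ℝ) := by positivity
    unfold E2 erw
    unfold Av at h1
    linarith
  · have hR0 : 0 < R := by linarith
    obtain ⟨hRR1, hRR2⟩ := abs_le.mp hRR
    set r := R/2 with hr
    set d := δ/2 with hd
    have hd0 : 0 < d := by rw [hd]; positivity
    have h1 : Av (r - 3 * d) d ≤ Ed (R'/2) + 4 * C1 * d * R ^ (1/2 + η) := by
      apply Av_upper (by linarith) hd0
      intro s hs hs1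
      have h1 := hst (r - 3 * d + s) (R'/2 - (r - 3 * d + s)) (by linarith) (by linarith) (by linarith)
      have e : r - 3 * d + s + (R'/2 - (r - 3 * d + s)) = R'/2 := by ring
      rw [e] at h1
      refine h1.trans ?_
      have h3 : (r - 3 * d + s) ^ (1/2 + η) ≤ R ^ (1/2 + η) :=
        Real.rpow_le_rpow (by linarith) (by linarith) (by positivity)
      have h4 : 0 ≤ (r - 3 * d + s) ^ (1/2 + η) := by
        have : 0 ≤ r - 3 * d + s := by linarith
        positivity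
      have h2 : C1 * (R'/2 - (r - 3 * d + s)) * (r - 3 * d + s) ^ (1/2 + η) ≤ C1 * (4 * d) * R ^ (1/2 + η) := by
        exact mul_le_mul (mul_le_mul_of_nonneg_left (by linarith) hC1.le) h3 h4 (by positivity)
      linarith
    have h2 := hV (r - 3 * d) d (by linarith) hd0 (by linarith)
    rw [vt_tsum] at h2
    have e1 : 2 * (r - 3 * d) = R + -3 * δ := by rw [hr, hd]; ring
    have e2 : 2 * d = δ := by rw [hd]; ring
    rw [e1, e2] at h2
    have h3 := (abs_le.mp h2).1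
    have h5 : (r - 3 * d) ^ (-(12/25):ℝ) * d ^ (-(13/25):ℝ) ≤ 8 * (R ^ (-(12/25):ℝ) * δ ^ (-(13/25):ℝ)) := by
      refine le_trans ?_ (hrp R δ hR hδ)
      apply mul_le_mul_of_nonneg_right _ (by positivity)
      exact Real.rpow_le_rpow_of_nonpos (by positivity) (by linarith) (by norm_num)
    have h6 : C * ((r - 3 * d) ^ (-(12/25):ℝ) * d ^ (-(13/25):ℝ)) ≤ C * (8 * (R ^ (-(12/25):ℝ) * δ ^ (-(13/25):ℝ))) :=
      mul_le_mul_of_nonneg_left h5 hC.le
    have h7 : 4 * C1 * d * R ^ (1/2 + η) = 2 * C1 * (δ * R ^ (1/2 + η)) := by rw [hd]; ring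
    have h8 : 0 ≤ R ^ (-(12/25):ℝ) * δ ^ (-(13/25):ℝ) := by positivity
    have h9 : 0 ≤ δ * R ^ (1/2 + η) := by positivity
    have h10 : 0 ≤ δ ^ (2/5:ℝ) := by positivity
    have h11 : 0 ≤ C * (δ * R ^ (1/2 + η)) := by positivity
    have h12 : 0 ≤ C * δ ^ (2/5:ℝ) := by positivity
    rw [WS_wd]
    have h13 : 0 ≤ C1 * (R ^ (-(12/25):ℝ) * δ ^ (-(13/25):ℝ)) := by positivity
    have h14 : 0 ≤ C1 * (δ * R ^ (1/2 + η)) := by positivity
    have h15 : 0 ≤ C1 * δ ^ (2/5:ℝ) := by positivity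
    unfold E2 erw
    unfold Av at h1
    linarith


end divisor

section circle

open Pool.Agent.H383.Gauss Pool.Agent.H383.Circ

/-- the sandwich for the circle problem -/
theorem En_SandW : SandW En ag (3 * Real.pi/4) wg 2 (-2) := by
  intro η hη
  obtain ⟨C1, hC1, hW⟩ := W_sub_WS
  obtain ⟨C2, hC2, hT⟩ := WS_triv (φ := 3 * Real.pi/4) ag_Bd ag_zero wg_Wt
  have hpi := Real.pi_pos
  have hpi4 := Real.pi_lt_four
  refine ⟨96 * 4 + 3 * C1 + 8 * (C2 + C1), by positivity, ?_⟩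
  intro R R' δ hR hδ hδ1 hRR
  constructor
  · obtain ⟨hRR1, hRR2⟩ := abs_le.mp hRR
    have hR0 : 0 < R := by linarith
    set ρ := R + 2 * δ with hρ
    have hρ0 : 0 < ρ := by linarith
    have hR'0 : 0 < R' := by linarith
    have hR'2 : R/2 ≤ R' := by linarith
    have hρR' : R' ≤ ρ := by linarith
    have hsR' : 0 < √R' := Real.sqrt_pos.mpr hR'0
    have h1 : F R' ≤ Real.pi * ρ^2 + √ρ * W ρ δ := by
      have h2 := F_mono hR'0.le (show R' ≤ R + δ by linarith)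
      have h3 := F_le_W (R := R + δ) (by linarith) hδ
      have e : R + δ + δ = ρ := by rw [hρ]; ring
      rw [e] at h3
      linarith
    have hWa := hW ρ δ hρ0 hδ
    have hWSa := hT ρ δ hδ
    set WS' := GW.WS ag (3 * Real.pi/4) wg ρ δ with hWS'
    have hWub : W ρ δ ≤ WS' + C1 / ρ := by linarith [(abs_le.mp hWa).2]
    have hWabs : |W ρ δ| ≤ (C2 + C1) * δ ^ (-(3/5):ℝ) := by
      have h4 : |W ρ δ| ≤ |WS'| + |W ρ δ - WS'| := by
        have := abs_add_le WS' (W ρ δ - WS')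
        simpa using this
      have h5 : C1 / ρ ≤ C1 * 1 := by
        rw [mul_one]; apply div_le_self hC1.le; linarith
      have h6 : 1 ≤ δ ^ (-(3/5):ℝ) := Real.one_le_rpow_of_pos_of_le_one_of_nonpos hδ (by linarith) (by norm_num)
      nlinarith
    -- main term
    have hs1 : √R' * √R' = R' := Real.mul_self_sqrt hR'0.le
    have hsρ : 0 < √ρ := Real.sqrt_pos.mpr hρ0
    have hs2 : √ρ * √ρ = ρ := Real.mul_self_sqrt hρ0.le
    have hsle : √R' ≤ √ρ := Real.sqrt_le_sqrt hρR'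
    have hsR : √R ≤ 2 * √R' := by
      rw [Real.sqrt_le_left (by positivity), mul_pow, Real.sq_sqrt hR'0.le]
      linarith
    have hsR0 : 0 < √R := Real.sqrt_pos.mpr hR0
    have hm : Real.pi * ρ^2 - Real.pi * R'^2 ≤ (96 * 4 * √R * δ) * √R' := by
      have e : Real.pi * ρ^2 - Real.pi * R'^2 = Real.pi * ((ρ - R') * (ρ + R')) := by ring
      rw [e]
      have h4 : (ρ - R') * (ρ + R') ≤ (3 * δ) * (4 * R) := mul_le_mul (by linarith) (by linarith) (by linarith) (by linarith)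
      have h5 : R ≤ √R * (2 * √R') := by
        calc R = √R * √R := (Real.mul_self_sqrt hR0.le).symm
          _ ≤ _ := mul_le_mul_of_nonneg_left hsR hsR0.le
      calc Real.pi * ((ρ - R') * (ρ + R')) ≤ 4 * ((3 * δ) * (4 * R)) := by
            apply mul_le_mul hpi4.le h4 _ (by norm_num)
            apply mul_nonneg <;> linarith
        _ = 48 * δ * R := by ring
        _ ≤ 48 * δ * (√R * (2 * √R')) := by gcongr
        _ ≤ _ := by
            have : 0 ≤ √R * δ * √R' := by positivity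
            nlinarith
    have hs3 : (√ρ - √R') ≤ (3 * δ) * √R' := by
      have h4 : (√ρ - √R') * (√ρ + √R') = ρ - R' := by
        have : (√ρ - √R') * (√ρ + √R') = √ρ * √ρ - √R' * √R' := by ring
        rw [this, hs1, hs2]
      have h5 : (√ρ - √R') * √R' ≤ 3 * δ := by
        have h6 : (√ρ - √R') * √R' ≤ (√ρ - √R') * (√ρ + √R') :=
          mul_le_mul_of_nonneg_left (by linarith) (by linarith)
        linarith
      have h6 : 1 ≤ R' := by linarith
      have h7 : (√ρ - √R') * √R' * √R' ≤ 3 * δ * √R' := mul_le_mul_of_nonneg_right h5 hsR'.le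
      have h8 : (√ρ - √R') * √R' * √R' = (√ρ - √R') * R' := by rw [mul_assoc, hs1]
      rw [h8] at h7
      have h9 : (√ρ - √R') * 1 ≤ (√ρ - √R') * R' := mul_le_mul_of_nonneg_left h6 (by linarith)
      linarith
    have hW1 : √ρ * W ρ δ ≤ √R' * W ρ δ + (3 * δ) * √R' * ((C2 + C1) * δ ^ (-(3/5):ℝ)) := by
      have e : √ρ * W ρ δ = √R' * W ρ δ + (√ρ - √R') * W ρ δ := by ring
      rw [e]
      have h4 : (√ρ - √R') * W ρ δ ≤ (√ρ - √R') * |W ρ δ| :=
        mul_le_mul_of_nonneg_left (le_abs_self _) (by linarith)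
      have h5 : (√ρ - √R') * |W ρ δ| ≤ ((3 * δ) * √R') * ((C2 + C1) * δ ^ (-(3/5):ℝ)) :=
        mul_le_mul hs3 hWabs (abs_nonneg _) (by positivity)
      linarith
    have hEn : En R' ≤ 96 * 4 * √R * δ + W ρ δ + (3 * δ) * ((C2 + C1) * δ ^ (-(3/5):ℝ)) := by
      unfold En
      rw [div_le_iff₀ hsR']
      have e : (96 * 4 * √R * δ + W ρ δ + (3 * δ) * ((C2 + C1) * δ ^ (-(3/5):ℝ))) * √R' =
          (96 * 4 * √R * δ) * √R' + √R' * W ρ δ + (3 * δ) * √R' * ((C2 + C1) * δ ^ (-(3/5):ℝ)) := by ring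
      rw [e]; linarith
    have hd : δ * δ ^ (-(3/5):ℝ) = δ ^ (2/5:ℝ) := by
      nth_rewrite 1 [← Real.rpow_one δ]
      rw [← Real.rpow_add hδ]; norm_num
    have hR51 : √R ≤ R ^ (1/2 + η) := by
      rw [Real.sqrt_eq_rpow]
      exact Real.rpow_le_rpow_of_exponent_le (by linarith) (by linarith)
    have hC1ρ : C1 / ρ ≤ C1 * (R ^ (-(12/25):ℝ) * δ ^ (-(13/25):ℝ)) := by
      rw [div_eq_mul_inv]
      apply mul_le_mul_of_nonneg_left _ hC1.le
      have g1 : ρ⁻¹ ≤ R ^ (-(1:ℝ)) := by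
        rw [Real.rpow_neg_one]
        exact inv_anti₀ hR0 (by linarith)
      have g2 : R ^ (-(1:ℝ)) ≤ R ^ (-(12/25):ℝ) := Real.rpow_le_rpow_of_exponent_le (by linarith) (by norm_num)
      have g3 : 1 ≤ δ ^ (-(13/25):ℝ) := Real.one_le_rpow_of_pos_of_le_one_of_nonpos hδ (by linarith) (by norm_num)
      have g4 : 0 ≤ R ^ (-(12/25):ℝ) := by positivity
      nlinarith
    have e1 : (3 * δ) * ((C2 + C1) * δ ^ (-(3/5):ℝ)) = 3 * (C2 + C1) * δ ^ (2/5:ℝ) := by rw [← hd]; ring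
    rw [e1] at hEn
    have h51 : 96 * 4 * √R * δ ≤ 96 * 4 * (δ * R ^ (1/2 + η)) := by
      have := mul_le_mul_of_nonneg_left hR51 (by positivity : 0 ≤ 96 * 4 * δ)
      linarith
    unfold erw
    have q1 : 0 ≤ δ * R ^ (1/2 + η) := by positivity
    have q2 : 0 ≤ R ^ (-(12/25):ℝ) * δ ^ (-(13/25):ℝ) := by positivity
    have q3 : 0 ≤ δ ^ (2/5:ℝ) := by positivity
    have q4 : 0 ≤ (3 * C1 + 8 * (C2 + C1)) * (δ * R ^ (1/2 + η)) := by positivity
    have q5 : 0 ≤ (96 * 4 + 2 * C1 + 8 * (C2 + C1)) * (R ^ (-(12/25):ℝ) * δ ^ (-(13/25):ℝ)) := by positivity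
    have q6 : 0 ≤ (96 * 4 + 3 * C1 + 5 * (C2 + C1)) * δ ^ (2/5:ℝ) := by positivity
    linarith
  · obtain ⟨hRR1, hRR2⟩ := abs_le.mp hRR
    have hR0 : 0 < R := by linarith
    have eρ : R + -2 * δ = R - 2 * δ := by ring
    rw [eρ]
    set ρ := R - 2 * δ with hρ
    have hρ0 : 0 < ρ := by linarith
    have hρ1 : R/2 ≤ ρ := by linarith
    have hR'0 : 0 < R' := by linarith
    have hR'2 : R/2 ≤ R' := by linarith
    have hρR' : ρ ≤ R' := by linarith
    have hsR' : 0 < √R' := Real.sqrt_pos.mpr hR'0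
    have h1 : Real.pi * ρ^2 + √ρ * W ρ δ ≤ F R' := by
      have h2 := F_mono (show 0 ≤ R - δ by linarith) (show R - δ ≤ R' by linarith)
      have h3 := le_F_W (R := R - δ) hδ (by linarith)
      have e : R - δ - δ = ρ := by rw [hρ]; ring
      rw [e] at h3
      linarith
    have hWa := hW ρ δ hρ0 hδ
    have hWSa := hT ρ δ hδ
    set WS' := GW.WS ag (3 * Real.pi/4) wg ρ δ with hWS'
    have hWlb : WS' - C1 / ρ ≤ W ρ δ := by linarith [(abs_le.mp hWa).1]
    have hWabs : |W ρ δ| ≤ (C2 + C1) * δ ^ (-(3/5):ℝ) := by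
      have h4 : |W ρ δ| ≤ |WS'| + |W ρ δ - WS'| := by
        have := abs_add_le WS' (W ρ δ - WS')
        simpa using this
      have h5 : C1 / ρ ≤ C1 * 1 := by
        rw [mul_one]; apply div_le_self hC1.le; linarith
      have h6 : 1 ≤ δ ^ (-(3/5):ℝ) := Real.one_le_rpow_of_pos_of_le_one_of_nonpos hδ (by linarith) (by norm_num)
      nlinarith
    have hs1 : √R' * √R' = R' := Real.mul_self_sqrt hR'0.le
    have hsρ : 0 < √ρ := Real.sqrt_pos.mpr hρ0
    have hs2 : √ρ * √ρ = ρ := Real.mul_self_sqrt hρ0.le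
    have hsle : √ρ ≤ √R' := Real.sqrt_le_sqrt hρR'
    have hsR : √R ≤ 2 * √R' := by
      rw [Real.sqrt_le_left (by positivity), mul_pow, Real.sq_sqrt hR'0.le]
      linarith
    have hsR0 : 0 < √R := Real.sqrt_pos.mpr hR0
    have hm : Real.pi * R'^2 - Real.pi * ρ^2 ≤ (96 * 4 * √R * δ) * √R' := by
      have e : Real.pi * R'^2 - Real.pi * ρ^2 = Real.pi * ((R' - ρ) * (ρ + R')) := by ring
      rw [e]
      have h4 : (R' - ρ) * (ρ + R') ≤ (3 * δ) * (4 * R) := mul_le_mul (by linarith) (by linarith) (by linarith) (by linarith)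
      have h5 : R ≤ √R * (2 * √R') := by
        calc R = √R * √R := (Real.mul_self_sqrt hR0.le).symm
          _ ≤ _ := mul_le_mul_of_nonneg_left hsR hsR0.le
      calc Real.pi * ((R' - ρ) * (ρ + R')) ≤ 4 * ((3 * δ) * (4 * R)) := by
            apply mul_le_mul hpi4.le h4 _ (by norm_num)
            apply mul_nonneg <;> linarith
        _ = 48 * δ * R := by ring
        _ ≤ 48 * δ * (√R * (2 * √R')) := by gcongr
        _ ≤ _ := by
            have : 0 ≤ √R * δ * √R' := by positivity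
            nlinarith
    have hs3 : (√R' - √ρ) ≤ (3 * δ) * √R' := by
      have h4 : (√R' - √ρ) * (√ρ + √R') = R' - ρ := by
        have : (√R' - √ρ) * (√ρ + √R') = √R' * √R' - √ρ * √ρ := by ring
        rw [this, hs1, hs2]
      have h5 : (√R' - √ρ) * √R' ≤ 3 * δ := by
        have h6 : (√R' - √ρ) * √R' ≤ (√R' - √ρ) * (√ρ + √R') :=
          mul_le_mul_of_nonneg_left (by linarith) (by linarith)
        linarith
      have h6 : 1 ≤ R' := by linarith
      have h7 : (√R' - √ρ) * √R' * √R' ≤ 3 * δ * √R' := mul_le_mul_of_nonneg_right h5 hsR'.le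
      have h8 : (√R' - √ρ) * √R' * √R' = (√R' - √ρ) * R' := by rw [mul_assoc, hs1]
      rw [h8] at h7
      have h9 : (√R' - √ρ) * 1 ≤ (√R' - √ρ) * R' := mul_le_mul_of_nonneg_left h6 (by linarith)
      linarith
    have hW1 : √R' * W ρ δ - (3 * δ) * √R' * ((C2 + C1) * δ ^ (-(3/5):ℝ)) ≤ √ρ * W ρ δ := by
      have e : √ρ * W ρ δ = √R' * W ρ δ - (√R' - √ρ) * W ρ δ := by ring
      rw [e]
      have h4 : (√R' - √ρ) * W ρ δ ≤ (√R' - √ρ) * |W ρ δ| :=
        mul_le_mul_of_nonneg_left (le_abs_self _) (by linarith)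
      have h5 : (√R' - √ρ) * |W ρ δ| ≤ ((3 * δ) * √R') * ((C2 + C1) * δ ^ (-(3/5):ℝ)) :=
        mul_le_mul hs3 hWabs (abs_nonneg _) (by positivity)
      linarith
    have hEn : W ρ δ - 96 * 4 * √R * δ - (3 * δ) * ((C2 + C1) * δ ^ (-(3/5):ℝ)) ≤ En R' := by
      unfold En
      rw [le_div_iff₀ hsR']
      have e : (W ρ δ - 96 * 4 * √R * δ - (3 * δ) * ((C2 + C1) * δ ^ (-(3/5):ℝ))) * √R' =
          √R' * W ρ δ - (96 * 4 * √R * δ) * √R' - (3 * δ) * √R' * ((C2 + C1) * δ ^ (-(3/5):ℝ)) := by ring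
      rw [e]; linarith
    have hd : δ * δ ^ (-(3/5):ℝ) = δ ^ (2/5:ℝ) := by
      nth_rewrite 1 [← Real.rpow_one δ]
      rw [← Real.rpow_add hδ]; norm_num
    have hR51 : √R ≤ R ^ (1/2 + η) := by
      rw [Real.sqrt_eq_rpow]
      exact Real.rpow_le_rpow_of_exponent_le (by linarith) (by linarith)
    have hC1ρ : C1 / ρ ≤ 2 * C1 * (R ^ (-(12/25):ℝ) * δ ^ (-(13/25):ℝ)) := by
      rw [div_eq_mul_inv, mul_comm 2 C1, mul_assoc]
      apply mul_le_mul_of_nonneg_left _ hC1.le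
      have g1 : ρ⁻¹ ≤ 2 * R ^ (-(1:ℝ)) := by
        rw [Real.rpow_neg_one]
        calc ρ⁻¹ ≤ (R/2)⁻¹ := inv_anti₀ (by positivity) hρ1
          _ = 2 * R⁻¹ := by field_simp
      have g2 : R ^ (-(1:ℝ)) ≤ R ^ (-(12/25):ℝ) := Real.rpow_le_rpow_of_exponent_le (by linarith) (by norm_num)
      have g3 : 1 ≤ δ ^ (-(13/25):ℝ) := Real.one_le_rpow_of_pos_of_le_one_of_nonpos hδ (by linarith) (by norm_num)
      have g4 : 0 ≤ R ^ (-(12/25):ℝ) := by positivity
      nlinarith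
    have e1 : (3 * δ) * ((C2 + C1) * δ ^ (-(3/5):ℝ)) = 3 * (C2 + C1) * δ ^ (2/5:ℝ) := by rw [← hd]; ring
    rw [e1] at hEn
    have h51 : 96 * 4 * √R * δ ≤ 96 * 4 * (δ * R ^ (1/2 + η)) := by
      have := mul_le_mul_of_nonneg_left hR51 (by positivity : 0 ≤ 96 * 4 * δ)
      linarith
    unfold erw
    have q1 : 0 ≤ δ * R ^ (1/2 + η) := by positivity
    have q2 : 0 ≤ R ^ (-(12/25):ℝ) * δ ^ (-(13/25):ℝ) := by positivity
    have q3 : 0 ≤ δ ^ (2/5:ℝ) := by positivity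
    have q4 : 0 ≤ (3 * C1 + 8 * (C2 + C1)) * (δ * R ^ (1/2 + η)) := by positivity
    have q5 : 0 ≤ (96 * 4 + C1 + 8 * (C2 + C1)) * (R ^ (-(12/25):ℝ) * δ ^ (-(13/25):ℝ)) := by positivity
    have q6 : 0 ≤ (96 * 4 + 3 * C1 + 5 * (C2 + C1)) * δ ^ (2/5:ℝ) := by positivity
    linarith


end circle

end Pool.Agent.H452R2.Win
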