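import Mathlib
import Pool.Agent.H452R2.Win.V7

open MeasureTheory Set Filter Topology
open Pool.Agent.H387R2.Vor
open Pool.Agent.H383
open Pool.Agent.H383.AP
open Pool.Agent.H383.Div

namespace Pool.Agent.H452R2.Win

lemma ad_Bdw2 : Bdw ad := by
  intro κ hκ
  obtain ⟨C, hC, h⟩ := Pool.Agent.H452R2.Div.Sh.ad_bound (ε := 8 * κ) (by positivity)
  refine ⟨C, hC, ?_⟩
  intro m hm
  have hm0 : (0:ℝ) < m := by exact_mod_cast hm
  refine (h m hm).trans (le_of_eq ?_)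
  rw [mul_assoc, ← Real.rpow_add hm0]
  congr 2; ring

open Pool.Agent.H383.Gauss Pool.Agent.H383.Circ in
lemma ag_Bdw : Bdw ag := by
  intro κ hκ
  obtain ⟨C, hC, h⟩ := Pool.Agent.Helper112.divisor_bound κ hκ
  refine ⟨4 * C, by positivity, ?_⟩
  intro m hm
  have hm0 : (0:ℝ) < m := by exact_mod_cast hm
  rw [abs_of_nonneg (ag_nonneg m)]
  unfold ag
  have h1 : rA m ≤ 4 * (m.divisors.card : ℝ) := by
    unfold rA
    have := card_A_le m hm
    exact_mod_cast this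
  have h2 := h m hm
  have h3 : (√(m:ℝ)) ^ (-(3/2):ℝ) = (m:ℝ) ^ (-(3/4):ℝ) := by
    rw [Real.sqrt_eq_rpow, ← Real.rpow_mul hm0.le]; norm_num
  have hpi := Real.pi_gt_three
  rw [h3, add_comm, Real.rpow_add hm0]
  have h4 : 0 ≤ (m:ℝ) ^ (-(3/4):ℝ) := by positivity
  calc rA m / Real.pi * (m:ℝ) ^ (-(3/4):ℝ) ≤ (4 * (C * (m:ℝ) ^ κ)) * (m:ℝ) ^ (-(3/4):ℝ) := by
        apply mul_le_mul_of_nonneg_right _ h4
        rw [div_le_iff₀ (by positivity)]
        have h5 : 0 ≤ C * (m:ℝ) ^ κ := by positivity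
        nlinarith
    _ = _ := by ring

/-- the divisor problem along quadratic polynomials, over all short windows -/
theorem div_ApW (hV : VorStmt) {a b c : ℝ} (ha : 0 < a) (hP : ∀ n : ℕ, 0 ≤ a * n^2 + b * n + c) {ε : ℝ} (hε : 0 < ε) :
    ApW (Adw ε) ad (Real.pi/4) (fun n : ℕ => Ed (√(a * n^2 + b * n + c))) (2 * √a) (b / √a) := by
  obtain ⟨C₁, hC₁⟩ := sqrt_quad ha hP
  have hsa : 0 < √a := Real.sqrt_pos.mpr ha
  have key := apw_of (E := E2) ad_Bdw2 ad_zero wd_Wt (E2_SandW hV) (α := 2 * √a) (by positivity) (b / √a)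
    (Rn := fun n : ℕ => 2 * √(a * n^2 + b * n + c)) ⟨2 * C₁, by
      intro n
      have h1 := hC₁ n
      have e : 2 * √(a * n^2 + b * n + c) - (b / √a + n * (2 * √a)) =
          2 * (√(a * n^2 + b * n + c) - (b / (2 * √a) + n * √a)) := by field_simp
      rw [e, abs_mul, abs_of_pos (by norm_num : (0:ℝ) < 2), mul_div_assoc]
      exact mul_le_mul_of_nonneg_left h1 (by norm_num)⟩ hε
  have e : (fun n : ℕ => E2 (2 * √(a * n^2 + b * n + c))) = fun n : ℕ => Ed (√(a * n^2 + b * n + c)) := by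
    funext n
    unfold E2
    congr 1
    ring
  rw [e] at key
  exact key

open Pool.Agent.H383.Gauss Pool.Agent.H383.Circ in
/-- the circle problem along quadratic polynomials, over all short windows -/
theorem circ_ApW {a b c : ℝ} (ha : 0 < a) (hP : ∀ n : ℕ, 0 ≤ a * n^2 + b * n + c) {ε : ℝ} (hε : 0 < ε) :
    ApW (Adw ε) ag (3 * Real.pi/4) (fun n : ℕ => En (√(a * n^2 + b * n + c))) (√a) (b / (2 * √a)) := by
  have hsa : 0 < √a := Real.sqrt_pos.mpr ha
  exact apw_of (E := En) ag_Bdw ag_zero wg_Wt En_SandW hsa (b / (2 * √a))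
    (Rn := fun n : ℕ => √(a * n^2 + b * n + c)) (sqrt_quad ha hP) hε

end Pool.Agent.H452R2.Win
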