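import Mathlib
import Pool.Agent.H452R2.Win.V6

open MeasureTheory Set Filter Topology
open Pool.Agent.H383
open Pool.Agent.H383.Gauss Pool.Agent.H383.AP

namespace Pool.Agent.H452R2.Win

/-- the geometric sum -/
noncomputable def gs (N : ℕ) (x : ℝ) : ℂ := ∑ n ∈ Finset.range N, Complex.exp (((2 * Real.pi * (n * x) : ℝ) : ℂ) * Complex.I)

lemma gs_le_N (N : ℕ) (x : ℝ) : ‖gs N x‖ ≤ N := by
  unfold gs
  refine (norm_sum_le _ _).trans ?_
  simp [Complex.norm_exp_ofReal_mul_I, -Complex.ofReal_mul]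

lemma gs_mul_le (N : ℕ) (x : ℝ) (k : ℤ) : ‖gs N x‖ * (2 * |x - k|) ≤ 1 ∨ 1/2 < |x - k| := by
  by_cases hk : |x - k| ≤ 1/2
  · left
    have hpi := Real.pi_pos
    set z : ℂ := Complex.exp (((2 * Real.pi * x : ℝ) : ℂ) * Complex.I) with hz
    have h1 : gs N x = ∑ n ∈ Finset.range N, z ^ n := by
      unfold gs
      apply Finset.sum_congr rfl
      intro n _
      rw [hz, ← Complex.exp_nat_mul]
      congr 1; push_cast; ring
    have h2 : gs N x * (z - 1) = z ^ N - 1 := by rw [h1]; exact geom_sum_mul z N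
    have hzn : ‖z‖ = 1 := by rw [hz]; exact Complex.norm_exp_ofReal_mul_I _
    have h3 : ‖gs N x‖ * ‖z - 1‖ ≤ 2 := by
      rw [← norm_mul, h2]
      refine (norm_sub_le _ _).trans ?_
      rw [norm_pow, hzn, one_pow, norm_one]; norm_num
    have h4 : ‖z - 1‖ = 2 * |Real.sin (Real.pi * (x - k))| := by
      have e1 : z = Complex.exp (Complex.I * ((2 * Real.pi * (x - k) : ℝ) : ℂ)) := by
        rw [hz]
        rw [Complex.exp_eq_exp_iff_exists_int]
        exact ⟨k, by push_cast; ring⟩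
      rw [e1, Complex.norm_exp_I_mul_ofReal_sub_one, Real.norm_eq_abs, abs_mul, abs_of_pos (by norm_num : (0:ℝ) < 2)]
      congr 3; ring
    have h5 : 2 * |x - k| ≤ |Real.sin (Real.pi * (x - k))| := by
      have h6 : |Real.pi * (x - k)| ≤ Real.pi / 2 := by
        rw [abs_mul, abs_of_pos hpi]; nlinarith
      have h7 := Real.mul_abs_le_abs_sin h6
      rw [abs_mul, abs_of_pos hpi] at h7
      have e : 2 / Real.pi * (Real.pi * |x - k|) = 2 * |x - k| := by field_simp
      linarith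
    rw [h4] at h3
    have h8 := norm_nonneg (gs N x)
    nlinarith
  · right
    push Not at hk
    exact hk

lemma near_one (x : ℝ) : near 1 x = 1 := by
  unfold near
  rw [if_pos]
  refine ⟨round x, ?_⟩
  have := abs_sub_round x
  norm_num
  linarith

/-- dyadic majorant of the geometric sum -/
lemma gs_le (N : ℕ) (hN : 1 ≤ N) (x : ℝ) :
    ‖gs N x‖ ≤ 3 * ∑ i ∈ Finset.range (Nat.log 2 N + 1), ((N / 2^i : ℕ):ℝ) * near (N / 2^i) x := by
  set J := Nat.log 2 N with hJ
  have hJ1 : 2^J ≤ N := Nat.pow_log_le_self 2 (by omega)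
  have hJ2 : N < 2^(J+1) := Nat.lt_pow_succ_log_self (by norm_num) N
  have hLJ : N / 2^J = 1 := by
    apply Nat.div_eq_of_lt_le
    · simpa using hJ1
    · rw [pow_succ] at hJ2; omega
  have hex : ∃ i, i ≤ J ∧ near (N / 2^i) x = 1 := ⟨J, le_rfl, by rw [hLJ]; exact near_one x⟩
  classical
  set i := Nat.find hex with hi
  obtain ⟨hiJ, hin⟩ := Nat.find_spec hex
  rw [← hi] at hiJ hin
  have hpos : ∀ l ∈ Finset.range (J + 1), 0 ≤ ((N / 2^l : ℕ):ℝ) * near (N / 2^l) x := fun l _ =>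
    mul_nonneg (Nat.cast_nonneg _) (near_nonneg _ _)
  have hsing : ((N / 2^i : ℕ):ℝ) * near (N / 2^i) x ≤ ∑ i ∈ Finset.range (J + 1), ((N / 2^i : ℕ):ℝ) * near (N / 2^i) x :=
    Finset.single_le_sum hpos (Finset.mem_range.mpr (by omega))
  rw [hin, mul_one] at hsing
  have hmain : ‖gs N x‖ ≤ 3 * ((N / 2^i : ℕ):ℝ) := by
    rcases Nat.eq_zero_or_pos i with h0 | h0
    · rw [h0]
      simp only [pow_zero, Nat.div_one]
      have := gs_le_N N x
      have : (0:ℝ) ≤ N := Nat.cast_nonneg N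
      linarith
    · obtain ⟨l, hl⟩ : ∃ l, i = l + 1 := ⟨i - 1, by omega⟩
      have hnot : ¬ (l ≤ J ∧ near (N / 2^l) x = 1) := Nat.find_min hex (by omega)
      have hnear : near (N / 2^l) x ≠ 1 := fun h => hnot ⟨by omega, h⟩
      have hLl : 1 ≤ N / 2^l := by
        have : 2^l ≤ N := (Nat.pow_le_pow_right (by norm_num) (by omega)).trans hJ1
        exact Nat.div_pos this (by positivity)
      have hLl' : (1:ℝ) ≤ ((N / 2^l : ℕ):ℝ) := by exact_mod_cast hLl
      have hno : ¬ ∃ k : ℤ, |x - k| ≤ 1 / (2 * ((N / 2^l : ℕ):ℝ)) := by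
        intro h
        apply hnear
        unfold near
        rw [if_pos h]
      push Not at hno
      have h1 := hno (round x)
      have h2 := abs_sub_round x
      have h3 : ‖gs N x‖ ≤ ((N / 2^l : ℕ):ℝ) := by
        rcases gs_mul_le N x (round x) with h | h
        · have h5 := norm_nonneg (gs N x)
          have h6 : ‖gs N x‖ * (2 * (1 / (2 * ((N / 2^l : ℕ):ℝ)))) ≤ 1 := by
            refine le_trans ?_ h
            apply mul_le_mul_of_nonneg_left _ h5
            linarith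
          have e : (2 * (1 / (2 * ((N / 2^l : ℕ):ℝ)))) = 1 / ((N / 2^l : ℕ):ℝ) := by field_simp
          rw [e, mul_one_div, div_le_one (by linarith)] at h6
          exact h6
        · linarith
      have h4 : N / 2^l ≤ 3 * (N / 2^i) := by
        rw [hl, pow_succ, ← Nat.div_div_eq_div_mul]
        have hi1 : 1 ≤ (N / 2^l) / 2 := by
          rw [Nat.div_div_eq_div_mul, ← pow_succ, ← hl]
          have : 2^i ≤ N := (Nat.pow_le_pow_right (by norm_num) hiJ).trans hJ1
          exact Nat.div_pos this (by positivity)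
        omega
      have h5 : ((N / 2^l : ℕ):ℝ) ≤ 3 * ((N / 2^i : ℕ):ℝ) := by exact_mod_cast h4
      linarith
  linarith

/-- block sum of geometric sums -/
lemma block_gs {α : ℝ} (hα : 0 < α) (N : ℕ) (hN : 1 ≤ N) (θ : ℝ) (q : ℕ) :
    ∑ m ∈ Finset.Ico (q^2) ((q+1)^2), ‖gs N (α * √(m:ℝ) + θ)‖ ≤
      3 * (α + 2) * (2 * N + 2 * (q + 1) / α * (Nat.log 2 N + 1)) := by
  set J := Nat.log 2 N with hJ
  have hJ1 : 2^J ≤ N := Nat.pow_log_le_self 2 (by omega)
  have h1 : ∑ m ∈ Finset.Ico (q^2) ((q+1)^2), ‖gs N (α * √(m:ℝ) + θ)‖ ≤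
      3 * ∑ i ∈ Finset.range (J + 1), ((N / 2^i : ℕ):ℝ) * ∑ m ∈ Finset.Ico (q^2) ((q+1)^2), near (N / 2^i) (-θ - α * √(m:ℝ)) := by
    calc _ ≤ ∑ m ∈ Finset.Ico (q^2) ((q+1)^2), 3 * ∑ i ∈ Finset.range (J + 1), ((N / 2^i : ℕ):ℝ) * near (N / 2^i) (α * √(m:ℝ) + θ) :=
          Finset.sum_le_sum (fun m _ => gs_le N hN _)
      _ = _ := by
          rw [← Finset.mul_sum, Finset.sum_comm]
          congr 1
          apply Finset.sum_congr rfl
          intro i _
          rw [Finset.mul_sum]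
          apply Finset.sum_congr rfl
          intro m _
          rw [← near_symm]
          congr 2; ring
  refine h1.trans ?_
  rw [mul_assoc]
  apply mul_le_mul_of_nonneg_left _ (by norm_num)
  have h2 : ∀ i ∈ Finset.range (J + 1), ((N / 2^i : ℕ):ℝ) * ∑ m ∈ Finset.Ico (q^2) ((q+1)^2), near (N / 2^i) (-θ - α * √(m:ℝ)) ≤
      (α + 2) * (N * (1/2)^i + 2 * (q + 1) / α) := by
    intro i hi
    rw [Finset.mem_range] at hi
    have hL : 1 ≤ N / 2^i := by
      have : 2^i ≤ N := (Nat.pow_le_pow_right (by norm_num) (by omega)).trans hJ1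
      exact Nat.div_pos this (by positivity)
    have hL' : (1:ℝ) ≤ ((N / 2^i : ℕ):ℝ) := by exact_mod_cast hL
    have h3 := block_count (t := -θ) hα hL q
    calc _ ≤ ((N / 2^i : ℕ):ℝ) * ((α + 2) * (1 + 2 * (q+1) / (α * ((N / 2^i : ℕ):ℝ)))) :=
          mul_le_mul_of_nonneg_left h3 (by positivity)
      _ = (α + 2) * (((N / 2^i : ℕ):ℝ) + 2 * (q + 1) / α) := by field_simp
      _ ≤ _ := by
          apply mul_le_mul_of_nonneg_left _ (by positivity)
          have h4 : ((N / 2^i : ℕ):ℝ) ≤ N / ((2^i : ℕ):ℝ) := Nat.cast_div_le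
          have h5 : (N:ℝ) / ((2^i : ℕ):ℝ) = N * (1/2)^i := by
            push_cast
            rw [one_div, inv_pow]; rfl
          linarith
  refine (Finset.sum_le_sum h2).trans ?_
  rw [← Finset.mul_sum]
  apply mul_le_mul_of_nonneg_left _ (by positivity)
  rw [Finset.sum_add_distrib, ← Finset.mul_sum, Finset.sum_const, Finset.card_range, nsmul_eq_mul]
  have h6 : ∑ i ∈ Finset.range (J + 1), ((1:ℝ)/2)^i ≤ 2 := by
    have h7 := geom_sum_eq (by norm_num : (1:ℝ)/2 ≠ 1) (J + 1)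
    rw [h7]
    have : 0 < ((1:ℝ)/2)^(J+1) := by positivity
    rw [div_le_iff_of_neg (by norm_num)]
    linarith
  have hN0 : (0:ℝ) ≤ N := Nat.cast_nonneg N
  have h8 : (N:ℝ) * ∑ i ∈ Finset.range (J + 1), ((1:ℝ)/2)^i ≤ N * 2 := mul_le_mul_of_nonneg_left h6 hN0
  push_cast
  linarith

end Pool.Agent.H452R2.Win
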