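import Mathlib
import Pool.Agent.H452R2.Win.F1

open MeasureTheory Set Filter Topology
open Pool.Agent.H383
open Pool.Agent.H383.Gauss Pool.Agent.H383.AP

namespace Pool.Agent.H452R2.Win

variable {ω : ℝ}

/-- the exponential in the window -/
noncomputable def ew (α : ℝ) (m n : ℕ) : ℂ := Complex.exp (((2 * Real.pi * (n * (α * √(m:ℝ))) : ℝ) : ℂ) * Complex.I)

/-- block sums against a trigonometric sequence -/
lemma trig_gs {α : ℝ} (hα : 0 < α) {b : ℕ → ℂ} (hb : b ∈ Trig) : ∃ C : ℝ, 0 ≤ C ∧ ∀ N : ℕ, 1 ≤ N → ∀ s q : ℕ,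
    ∑ m ∈ Finset.Ico (q^2) ((q+1)^2), ‖∑ n ∈ Finset.range N, b (s + n) * ew α m n‖ ≤
      C * (2 * N + 2 * (q + 1) / α * (Nat.log 2 N + 1)) := by
  unfold Trig at hb
  induction hb using Submodule.span_induction with
  | mem x hx =>
    obtain ⟨θ, rfl⟩ := hx
    refine ⟨3 * (α + 2), by positivity, ?_⟩
    intro N hN s q
    refine le_trans (le_of_eq ?_) (block_gs hα N hN θ q)
    apply Finset.sum_congr rfl
    intro m _
    have h1 : ∑ n ∈ Finset.range N, chr θ (s + n) * ew α m n = chr θ s * gs N (α * √(m:ℝ) + θ) := by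
      unfold gs ew chr
      rw [Finset.mul_sum]
      apply Finset.sum_congr rfl
      intro n _
      rw [← Complex.exp_add, ← Complex.exp_add]
      congr 1; push_cast; ring
    rw [h1, norm_mul]
    have h2 : ‖chr θ s‖ = 1 := by
      unfold chr
      exact Complex.norm_exp_ofReal_mul_I _
    rw [h2, one_mul]
  | zero =>
    refine ⟨0, le_rfl, ?_⟩
    intro N _ s q
    simp
  | add x y _ _ hx hy =>
    obtain ⟨C1, h1, hC1⟩ := hx
    obtain ⟨C2, h2, hC2⟩ := hy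
    refine ⟨C1 + C2, by positivity, ?_⟩
    intro N hN s q
    have a1 := hC1 N hN s q
    have a2 := hC2 N hN s q
    have a3 : ∑ m ∈ Finset.Ico (q^2) ((q+1)^2), ‖∑ n ∈ Finset.range N, (x + y) (s + n) * ew α m n‖ ≤
        ∑ m ∈ Finset.Ico (q^2) ((q+1)^2), (‖∑ n ∈ Finset.range N, x (s + n) * ew α m n‖ + ‖∑ n ∈ Finset.range N, y (s + n) * ew α m n‖) := by
      apply Finset.sum_le_sum
      intro m _
      have e : ∑ n ∈ Finset.range N, (x + y) (s + n) * ew α m n =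
          ∑ n ∈ Finset.range N, x (s + n) * ew α m n + ∑ n ∈ Finset.range N, y (s + n) * ew α m n := by
        rw [← Finset.sum_add_distrib]
        apply Finset.sum_congr rfl
        intro n _
        rw [Pi.add_apply]; ring
      rw [e]
      exact norm_add_le _ _
    rw [Finset.sum_add_distrib] at a3
    linarith
  | smul c x _ hx =>
    obtain ⟨C1, h1, hC1⟩ := hx
    refine ⟨‖c‖ * C1, by positivity, ?_⟩
    intro N hN s q
    have a1 := hC1 N hN s q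
    have e : ∀ m ∈ Finset.Ico (q^2) ((q+1)^2), ‖∑ n ∈ Finset.range N, (c • x) (s + n) * ew α m n‖ =
        ‖c‖ * ‖∑ n ∈ Finset.range N, x (s + n) * ew α m n‖ := by
      intro m _
      rw [← norm_mul, Finset.mul_sum]
      congr 1
      apply Finset.sum_congr rfl
      intro n _
      rw [Pi.smul_apply, smul_eq_mul]; ring
    rw [Finset.sum_congr rfl e, ← Finset.mul_sum, mul_assoc]
    exact mul_le_mul_of_nonneg_left a1 (norm_nonneg _)

/-- first moments of the oscillating part over a window -/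
lemma fm_tail (hω : 0 < ω) (hω1 : ω ≤ 1/100) {α : ℝ} (hα : 0 < α) {b : ℕ → ℂ} (hb : b ∈ Trig) {C1 : ℝ} (hC1 : 0 < C1) :
    ∃ C : ℝ, 0 < C ∧ ∀ (N : ℕ) (δ : ℝ) (c : ℕ → ℂ) (M Y s : ℕ), 1 ≤ N → 0 < δ → 1 ≤ M →
    (∀ m, 1 ≤ m → ‖c m‖ ≤ C1 * hw ω δ (√(m:ℝ))) →
    ‖∑ n ∈ Finset.range N, b (s + n) * ∑ m ∈ Finset.Ioc (M^2) (Y^2), c m * ew α m n‖ ≤
      C * (N + δ ^ (-(1/2 + 2 * ω)) * (Nat.log 2 N + 1)) * Tw ω M := by
  obtain ⟨C0, hC0, hb⟩ := trig_gs hα hb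
  refine ⟨C1 * C0 * (2 + 4/α) + 1, by positivity, ?_⟩
  intro N δ c M Y s hN hδ hM hc
  set S : ℕ → ℝ := fun m => ‖∑ n ∈ Finset.range N, b (s + n) * ew α m n‖ with hS
  have hS0 : ∀ m, 0 ≤ S m := fun m => norm_nonneg _
  have hN' : (1:ℝ) ≤ N := by exact_mod_cast hN
  set Λ : ℝ := (Nat.log 2 N : ℝ) + 1 with hΛ
  have hΛ0 : 0 < Λ := by positivity
  have e1 : ∑ n ∈ Finset.range N, b (s + n) * ∑ m ∈ Finset.Ioc (M^2) (Y^2), c m * ew α m n =
      ∑ m ∈ Finset.Ioc (M^2) (Y^2), c m * ∑ n ∈ Finset.range N, b (s + n) * ew α m n := by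
    simp_rw [Finset.mul_sum]
    rw [Finset.sum_comm]
    apply Finset.sum_congr rfl
    intro m _
    apply Finset.sum_congr rfl
    intro n _
    ring
  rw [e1]
  have h1 : ‖∑ m ∈ Finset.Ioc (M^2) (Y^2), c m * ∑ n ∈ Finset.range N, b (s + n) * ew α m n‖ ≤
      ∑ m ∈ Finset.Ioc (M^2) (Y^2), C1 * hw ω δ (√(m:ℝ)) * S m := by
    refine (norm_sum_le _ _).trans ?_
    apply Finset.sum_le_sum
    intro m hm
    rw [Finset.mem_Ioc] at hm
    rw [norm_mul]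
    exact mul_le_mul_of_nonneg_right (hc m (by omega)) (hS0 m)
  have h2 : ∑ m ∈ Finset.Ioc (M^2) (Y^2), C1 * hw ω δ (√(m:ℝ)) * S m ≤
      ∑ q ∈ Finset.Icc M Y, ∑ m ∈ Finset.Ico (q^2) ((q+1)^2), C1 * hw ω δ (√(m:ℝ)) * S m := by
    apply block_sum
    intro m
    have := hw_nonneg' (ω := ω) (by linarith) hδ m
    have := hS0 m
    positivity
  have h3 : ∀ q ∈ Finset.Icc M Y, ∑ m ∈ Finset.Ico (q^2) ((q+1)^2), C1 * hw ω δ (√(m:ℝ)) * S m ≤
      C1 * C0 * (2 + 4/α) * (N + δ ^ (-(1/2 + 2 * ω)) * Λ) * (q:ℝ) ^ (-(1 + ω)) := by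
    intro q hq
    rw [Finset.mem_Icc] at hq
    have hq1 : 1 ≤ q := by omega
    have hq' : (1:ℝ) ≤ q := by exact_mod_cast hq1
    have hq0 : (0:ℝ) < q := by linarith
    have hwq := hw_nonneg (ω := ω) hδ hq0
    have g1 : ∑ m ∈ Finset.Ico (q^2) ((q+1)^2), C1 * hw ω δ (√(m:ℝ)) * S m ≤
        C1 * hw ω δ q * (C0 * (2 * N + 2 * (q + 1) / α * Λ)) := by
      calc _ ≤ ∑ m ∈ Finset.Ico (q^2) ((q+1)^2), C1 * hw ω δ q * S m := by
            apply Finset.sum_le_sum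
            intro m hm
            have hmq := (sqrt_block hm).1
            have := hw_anti (ω := ω) (by linarith) hδ hq0 hmq
            have := hS0 m
            gcongr
        _ = C1 * hw ω δ q * ∑ m ∈ Finset.Ico (q^2) ((q+1)^2), S m := by rw [Finset.mul_sum]
        _ ≤ _ := mul_le_mul_of_nonneg_left (hb N hN s q) (by positivity)
    have g2 : hw ω δ q ≤ (q:ℝ) ^ (-(1 + ω)) := by
      unfold hw
      calc (q:ℝ) ^ (-(3/2) + ω) * min 1 ((δ * q) ^ (-(3/2):ℝ)) ≤ (q:ℝ) ^ (-(3/2) + ω) * 1 := by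
            gcongr; exact min_le_left _ _
        _ ≤ (q:ℝ) ^ (-(1 + ω)) := by
            rw [mul_one]
            exact Real.rpow_le_rpow_of_exponent_le hq' (by linarith)
    have g3 : hw ω δ q * q ≤ δ ^ (-(1/2 + 2 * ω)) * (q:ℝ) ^ (-(1 + ω)) := by
      unfold hw
      have e2 := min_le_pow (x := δ * q) (by positivity) (s := 1/2 + 2 * ω) (by linarith) (by linarith)
      calc (q:ℝ) ^ (-(3/2) + ω) * min 1 ((δ * q) ^ (-(3/2):ℝ)) * q ≤
          (q:ℝ) ^ (-(3/2) + ω) * (δ * q) ^ (-(1/2 + 2 * ω)) * (q:ℝ) ^ (1:ℝ) := by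
            rw [Real.rpow_one]; gcongr
        _ = δ ^ (-(1/2 + 2 * ω)) * ((q:ℝ) ^ (-(3/2) + ω) * (q:ℝ) ^ (-(1/2 + 2 * ω)) * (q:ℝ) ^ (1:ℝ)) := by
            rw [Real.mul_rpow hδ.le hq0.le]; ring
        _ = _ := by
            rw [← Real.rpow_add hq0, ← Real.rpow_add hq0]
            ring_nf
    have g4 : hw ω δ q * (2 * N + 2 * (q + 1) / α * Λ) ≤ (2 + 4/α) * (N + δ ^ (-(1/2 + 2 * ω)) * Λ) * (q:ℝ) ^ (-(1 + ω)) := by
      have k1 : hw ω δ q * (2 * N) ≤ 2 * N * (q:ℝ) ^ (-(1 + ω)) := by nlinarith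
      have k2 : hw ω δ q * (2 * (q + 1) / α * Λ) ≤ 4/α * Λ * (δ ^ (-(1/2 + 2 * ω)) * (q:ℝ) ^ (-(1 + ω))) := by
        calc hw ω δ q * (2 * (q + 1) / α * Λ) ≤ hw ω δ q * (2 * (q + q) / α * Λ) := by gcongr
          _ = 4/α * Λ * (hw ω δ q * q) := by ring
          _ ≤ _ := mul_le_mul_of_nonneg_left g3 (by positivity)
      have k3 : 0 ≤ 2 * (δ ^ (-(1/2 + 2 * ω)) * Λ) * (q:ℝ) ^ (-(1 + ω)) := by positivity
      have k4 : 0 ≤ 4/α * N * (q:ℝ) ^ (-(1 + ω)) := by positivity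
      calc hw ω δ q * (2 * N + 2 * (q + 1) / α * Λ) = hw ω δ q * (2 * N) + hw ω δ q * (2 * (q + 1) / α * Λ) := by ring
        _ ≤ 2 * N * (q:ℝ) ^ (-(1 + ω)) + 4/α * Λ * (δ ^ (-(1/2 + 2 * ω)) * (q:ℝ) ^ (-(1 + ω))) := add_le_add k1 k2
        _ ≤ 2 * N * (q:ℝ) ^ (-(1 + ω)) + 4/α * Λ * (δ ^ (-(1/2 + 2 * ω)) * (q:ℝ) ^ (-(1 + ω))) +
            2 * (δ ^ (-(1/2 + 2 * ω)) * Λ) * (q:ℝ) ^ (-(1 + ω)) + 4/α * N * (q:ℝ) ^ (-(1 + ω)) := by linarith
        _ = _ := by ring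
    refine g1.trans ?_
    calc C1 * hw ω δ q * (C0 * (2 * N + 2 * (q + 1) / α * Λ)) = C1 * C0 * (hw ω δ q * (2 * N + 2 * (q + 1) / α * Λ)) := by ring
      _ ≤ C1 * C0 * ((2 + 4/α) * (N + δ ^ (-(1/2 + 2 * ω)) * Λ) * (q:ℝ) ^ (-(1 + ω))) :=
          mul_le_mul_of_nonneg_left g4 (by positivity)
      _ = _ := by ring
  have h4 := Finset.sum_le_sum h3
  rw [← Finset.mul_sum] at h4
  have h5 := sum_le_Tw hω M Y
  have h6 : 0 ≤ (N + δ ^ (-(1/2 + 2 * ω)) * Λ) * Tw ω M := by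
    have := Tw_nonneg ω M
    positivity
  calc _ ≤ _ := h1
    _ ≤ _ := h2
    _ ≤ _ := h4
    _ ≤ C1 * C0 * (2 + 4/α) * (N + δ ^ (-(1/2 + 2 * ω)) * Λ) * Tw ω M :=
        mul_le_mul_of_nonneg_left h5 (by positivity)
    _ ≤ _ := by linarith

end Pool.Agent.H452R2.Win
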