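import Mathlib
import Pool.Agent.H452R2.Win.F2

open MeasureTheory Set Filter Topology
open Pool.Agent.H383
open Pool.Agent.H383.Gauss Pool.Agent.H383.AP

namespace Pool.Agent.H452R2.Win

variable {E : ℝ → ℝ} {a : ℕ → ℝ} {φ : ℝ} {w : ℝ → ℂ}

lemma log_small {ω : ℝ} (hω : 0 < ω) : ∃ N0 : ℕ, ∀ N : ℕ, N0 ≤ N → 2 * (N:ℝ) ^ (-(100 * ω)) * ((Nat.log 2 N : ℝ) + 1) ≤ 1 := by
  have h1 := tend_nat_rpow (y := 99 * ω) (by positivity) (2 * (2/ω + 1))
  have h2 := h1.eventually (gt_mem_nhds (by norm_num : (0:ℝ) < 1))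
  rw [eventually_atTop] at h2
  obtain ⟨N3, hN3⟩ := h2
  refine ⟨max N3 1, fun N hN => ?_⟩
  have hN1 : 1 ≤ N := by omega
  have hN' : (1:ℝ) ≤ N := by exact_mod_cast hN1
  have hN0 : (0:ℝ) < N := by linarith
  have h3 := (hN3 N (by omega)).le
  have h4 : (Nat.log 2 N : ℝ) ≤ 2/ω * (N:ℝ) ^ ω := by
    have h5 : ((2:ℝ) ^ (Nat.log 2 N)) ≤ N := by
      have := Nat.pow_log_le_self 2 (show N ≠ 0 by omega)
      exact_mod_cast this
    have h6 : (Nat.log 2 N : ℝ) * Real.log 2 ≤ Real.log N := by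
      rw [← Real.log_pow]
      exact Real.log_le_log (by positivity) h5
    have h7 := Real.log_le_rpow_div hN0.le hω
    have h8 := Real.log_two_gt_d9
    have h9 : (0:ℝ) ≤ Nat.log 2 N := Nat.cast_nonneg _
    have h10 : (Nat.log 2 N : ℝ) * (1/2) ≤ (N:ℝ) ^ ω / ω := by nlinarith
    have e : 2/ω * (N:ℝ) ^ ω = 2 * ((N:ℝ) ^ ω / ω) := by ring
    rw [e]; linarith
  have h5 : 1 ≤ (N:ℝ) ^ ω := Real.one_le_rpow hN' hω.le
  calc 2 * (N:ℝ) ^ (-(100 * ω)) * ((Nat.log 2 N : ℝ) + 1) ≤ 2 * (N:ℝ) ^ (-(100 * ω)) * ((2/ω + 1) * (N:ℝ) ^ ω) := by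
        gcongr; linarith
    _ = 2 * (2/ω + 1) * ((N:ℝ) ^ (-(100 * ω)) * (N:ℝ) ^ ω) := by ring
    _ = 2 * (2/ω + 1) * (N:ℝ) ^ (-(99 * ω)) := by rw [← Real.rpow_add hN0]; congr 2; ring
    _ ≤ 1 := h3

/-- weighted first moments of the difference to the model polynomials along perturbed progressions,
uniform over windows of length `X ^ (1/4 + ε)` -/
theorem fm_win (ha : Bdw a) (ha0 : a 0 = 0) (hw : GW.Wt w) {κ₁ κ₂ : ℝ} (hS : SandW E a φ w κ₁ κ₂)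
    {α : ℝ} (hα : 0 < α) {ε : ℝ} (hε : 0 < ε) {κ : ℕ → ℝ} (hκ : (fun n => (κ n : ℂ)) ∈ Trig) (hκ0 : ∀ n, 0 ≤ κ n) :
    ∃ T : ℕ → ℝ, Tendsto T atTop (𝓝 0) ∧
    ∀ M : ℕ, 1 ≤ M → ∀ η : ℝ, 0 < η → ∃ N0 : ℕ, ∀ N : ℕ, N0 ≤ N → ∀ X : ℝ, 4 ≤ X → X ^ (1/4 + ε) ≤ N →
    ∀ Rn : ℕ → ℝ, (∀ n : ℕ, n < N → |Rn n - (X + n * α)| ≤ (X + N) ^ (-(51/100):ℝ)) → ∀ s : ℕ,
    |(∑ n ∈ Finset.range N, (E (Rn n) - Gen.U a φ (X + n * α) M) * κ (s + n)) / N| ≤ T M + η := by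
  obtain ⟨B0, hB00, hB0⟩ := Trig_bdd hκ
  set B : ℝ := B0 + 1 with hBd
  have hB1 : 1 ≤ B := by linarith
  have hB : ∀ n, κ n ≤ B := by
    intro n
    have h1 := hB0 n
    rw [Complex.norm_real, Real.norm_eq_abs] at h1
    have := le_abs_self (κ n)
    linarith
  set ε1 := min ε (1/4) with hε1
  have hε10 : 0 < ε1 := by positivity
  set ω := ε1 / 100 with hωd
  have hω : 0 < ω := by positivity
  have hε12 : ε1 ≤ 1/4 := min_le_right _ _
  have hω400 : ω ≤ 1/400 := by rw [hωd]; linarith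
  have hω200 : ω ≤ 1/200 := by linarith
  have hω1 : ω ≤ 1/100 := by linarith
  have hε1ω : ε1 = 100 * ω := by rw [hωd]; ring
  obtain ⟨Ca, hCa, haC⟩ := ha (ω/2) (by positivity)
  obtain ⟨Cw, hCw, hwd⟩ := hw.dec
  obtain ⟨C1, hC1, hD⟩ := fm_tail hω hω1 hα hκ (show 0 < Ca * (Cw + 1) by positivity)
  obtain ⟨C5, hC5, herr⟩ := err_avg hα hω hω200
  obtain ⟨Ct, hCt, htail⟩ := GW.WS_tail (a := a) (φ := φ) ha.Bd ha0 hw
  obtain ⟨C0, hC0, hS⟩ := hS (ω/2) (by positivity)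
  refine ⟨fun M => 2 * C1 * Tw ω M, ?_, ?_⟩
  · have := (Tw_tendsto hω).const_mul (2 * C1)
    rwa [mul_zero] at this
  intro M hM η hη
  obtain ⟨K₁, hK₁, hlow₁⟩ := GW.WS_low a φ hw κ₁ M
  obtain ⟨K₂, hK₂, hlow₂⟩ := GW.WS_low a φ hw κ₂ M
  set av : ℝ := 1 + α with hav
  have hav1 : 1 ≤ av := by linarith
  -- the small quantities
  set G : ℕ → ℝ := fun N => (K₁ + K₂) * (N:ℝ) ^ (-(1/2):ℝ) + Ct * (N:ℝ) ^ (-(1/5):ℝ) +
    C0 * av * (N:ℝ) ^ (-(ω/2)) + C0 * (N:ℝ) ^ (-(1/5):ℝ) with hG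
  have hGt : Tendsto G atTop (𝓝 0) := by
    have h1 := tend_nat_rpow (y := 1/2) (by norm_num) (K₁ + K₂)
    have h2 := tend_nat_rpow (y := 1/5) (by norm_num) Ct
    have h3 := tend_nat_rpow (y := ω/2) (by positivity) (C0 * av)
    have h5 := tend_nat_rpow (y := 1/5) (by norm_num) C0
    have h4 := ((h1.add h2).add h3).add h5
    simp only [add_zero] at h4
    exact h4
  set u : ℕ → ℝ := fun N => B * G N + B * C0 * √C5 * (N:ℝ) ^ (-(1/10):ℝ) with hu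
  have hut : Tendsto u atTop (𝓝 0) := by
    have h1 := hGt.const_mul B
    have h2 := tend_nat_rpow (y := 1/10) (by norm_num) (B * C0 * √C5)
    have h4 := h1.add h2
    simp only [mul_zero, add_zero] at h4
    exact h4
  have hev := (hut.eventually (gt_mem_nhds hη))
  rw [eventually_atTop] at hev
  obtain ⟨N2, hN2⟩ := hev
  obtain ⟨N3, hN3⟩ := log_small hω
  refine ⟨max (max N2 N3) (max 4 M), ?_⟩
  intro N hN X hX hXN Rn hRn s
  have hNN2 : N2 ≤ N := by omega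
  have hNN3 : N3 ≤ N := by omega
  have hN4 : 4 ≤ N := by omega
  have hMN : M ≤ N := by omega
  have hN4' : (4:ℝ) ≤ N := by exact_mod_cast hN4
  have hN0 : (0:ℝ) < N := by linarith
  have hN1' : (1:ℝ) ≤ N := by linarith
  have hN1n : 1 ≤ N := by omega
  have hM' : (1:ℝ) ≤ M := by exact_mod_cast hM
  have hX1 : 1 ≤ X := by linarith
  have hX0 : 0 < X := by linarith
  set Z : ℝ := X + N with hZ
  have hZN : (N:ℝ) ≤ Z := by linarith
  have hZ0 : 0 < Z := by linarith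
  have hZ1 : 1 ≤ Z := by linarith
  set δ : ℝ := Z ^ (-(1/2 + ω)) with hδ
  have hδ0 : 0 < δ := by positivity
  have hδN : δ ≤ (N:ℝ) ^ (-(1/2):ℝ) := by
    calc δ ≤ (N:ℝ) ^ (-(1/2 + ω)) := Real.rpow_le_rpow_of_nonpos hN0 hZN (by linarith)
      _ ≤ (N:ℝ) ^ (-(1/2):ℝ) := Real.rpow_le_rpow_of_exponent_le hN1' (by linarith)
  have hδ1 : δ ≤ 1/2 := by
    have h2 : (N:ℝ) ^ (-(1/2):ℝ) ≤ (4:ℝ) ^ (-(1/2):ℝ) := Real.rpow_le_rpow_of_nonpos (by norm_num) hN4' (by norm_num)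
    have h3 : (4:ℝ) ^ (-(1/2):ℝ) = 1/2 := by
      rw [Real.rpow_neg (by norm_num), ← Real.sqrt_eq_rpow, show (4:ℝ) = 2^2 by norm_num, Real.sqrt_sq (by norm_num)]
      norm_num
    linarith
  -- size of Z
  have hZg : Z ≤ 2 * (N:ℝ) ^ (4 / (1 + 400 * ω)) := by
    have h1 : X ≤ (N:ℝ) ^ (4 / (1 + 400 * ω)) := by
      have h2 : X ^ (1/4 + ε1) ≤ N := by
        refine le_trans ?_ hXN
        apply Real.rpow_le_rpow_of_exponent_le hX1
        have : ε1 ≤ ε := min_le_left _ _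
        linarith
      have h3 : (X ^ (1/4 + ε1)) ^ (4 / (1 + 400 * ω)) ≤ (N:ℝ) ^ (4 / (1 + 400 * ω)) :=
        Real.rpow_le_rpow (by positivity) h2 (by positivity)
      rw [← Real.rpow_mul hX0.le] at h3
      have h4 : (1/4 + ε1) * (4 / (1 + 400 * ω)) = 1 := by
        rw [hε1ω]; field_simp; ring
      rw [h4, Real.rpow_one] at h3
      exact h3
    have h5 : (N:ℝ) ≤ (N:ℝ) ^ (4 / (1 + 400 * ω)) := by
      calc (N:ℝ) = (N:ℝ) ^ (1:ℝ) := (Real.rpow_one _).symm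
        _ ≤ _ := by
            apply Real.rpow_le_rpow_of_exponent_le hN1'
            rw [le_div_iff₀ (by positivity)]; linarith
    linarith
  -- the key inequality
  have hF : δ ^ (-(1/2 + 2 * ω)) ≤ 2 * (N:ℝ) ^ (1 - 100 * ω) := by
    have e1 : δ ^ (-(1/2 + 2 * ω)) = Z ^ ((1/2 + ω) * (1/2 + 2 * ω)) := by
      rw [hδ, ← Real.rpow_mul hZ0.le]; congr 1; ring
    rw [e1]
    have hx : (1/2 + ω) * (1/2 + 2 * ω) ≤ 1 := by nlinarith
    calc Z ^ ((1/2 + ω) * (1/2 + 2 * ω)) ≤ (2 * (N:ℝ) ^ (4 / (1 + 400 * ω))) ^ ((1/2 + ω) * (1/2 + 2 * ω)) :=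
          Real.rpow_le_rpow hZ0.le hZg (by positivity)
      _ = 2 ^ ((1/2 + ω) * (1/2 + 2 * ω)) * (N:ℝ) ^ (4 / (1 + 400 * ω) * ((1/2 + ω) * (1/2 + 2 * ω))) := by
          rw [Real.mul_rpow (by norm_num) (by positivity), ← Real.rpow_mul hN0.le]
      _ ≤ 2 * (N:ℝ) ^ (1 - 100 * ω) := by
          apply mul_le_mul _ _ (by positivity) (by norm_num)
          · calc (2:ℝ) ^ ((1/2 + ω) * (1/2 + 2 * ω)) ≤ 2 ^ (1:ℝ) := Real.rpow_le_rpow_of_exponent_le (by norm_num) hx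
              _ = 2 := Real.rpow_one 2
          · apply Real.rpow_le_rpow_of_exponent_le hN1'
            rw [div_mul_eq_mul_div, div_le_iff₀ (by positivity)]
            nlinarith
  -- cutoff
  set Y : ℕ := ⌈Z⌉₊ with hY
  have hYZ : Z ≤ Y := Nat.le_ceil Z
  have hMY : M ≤ Y := by
    have h1 : (M:ℝ) ≤ N := by exact_mod_cast hMN
    have : (M:ℝ) ≤ Y := by linarith
    exact_mod_cast this
  have hYone : 1 ≤ Y := by omega
  have hτ : Ct * δ ^ (-(3/2):ℝ) * (Y:ℝ) ^ (-(24/25):ℝ) ≤ Ct * (N:ℝ) ^ (-(1/5):ℝ) := by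
    have e1 : δ ^ (-(3/2):ℝ) = Z ^ (3/4 + 3/2 * ω) := by
      rw [hδ, ← Real.rpow_mul hZ0.le]; congr 1; ring
    have e2 : (Y:ℝ) ^ (-(24/25):ℝ) ≤ Z ^ (-(24/25):ℝ) :=
      Real.rpow_le_rpow_of_nonpos hZ0 hYZ (by norm_num)
    calc Ct * δ ^ (-(3/2):ℝ) * (Y:ℝ) ^ (-(24/25):ℝ) ≤ Ct * Z ^ (3/4 + 3/2 * ω) * Z ^ (-(24/25):ℝ) := by
          rw [e1]; exact mul_le_mul_of_nonneg_left e2 (by positivity)
      _ = Ct * (Z ^ (3/4 + 3/2 * ω) * Z ^ (-(24/25):ℝ)) := by ring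
      _ = Ct * Z ^ (3/4 + 3/2 * ω + -(24/25)) := by rw [← Real.rpow_add hZ0]
      _ ≤ Ct * Z ^ (-(1/5):ℝ) := by
          apply mul_le_mul_of_nonneg_left _ hCt.le
          exact Real.rpow_le_rpow_of_exponent_le hZ1 (by linarith)
      _ ≤ _ := by
          apply mul_le_mul_of_nonneg_left _ hCt.le
          exact Real.rpow_le_rpow_of_nonpos hN0 hZN (by norm_num)
  have hδ25 : δ ^ (2/5:ℝ) ≤ (N:ℝ) ^ (-(1/5):ℝ) := by
    calc δ ^ (2/5:ℝ) ≤ ((N:ℝ) ^ (-(1/2):ℝ)) ^ (2/5:ℝ) := Real.rpow_le_rpow hδ0.le hδN (by norm_num)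
      _ = _ := by rw [← Real.rpow_mul hN0.le]; norm_num
  -- coefficients
  have hbb : ∀ X' : ℝ, ∀ m : ℕ, 1 ≤ m → ‖Gen.ac a φ X' m * w (√(m:ℝ) * δ)‖ ≤ Ca * (Cw + 1) * Win.hw ω δ (√(m:ℝ)) := by
    intro X' m hm
    have hm0 : (0:ℝ) < m := by exact_mod_cast hm
    have hs : 0 < √(m:ℝ) := Real.sqrt_pos.mpr hm0
    rw [norm_mul, Gen.norm_ac]
    unfold Win.hw
    have h2 := haC m hm
    have h5 : ‖w (√(m:ℝ) * δ)‖ ≤ (Cw + 1) * min 1 ((δ * √(m:ℝ)) ^ (-(3/2):ℝ)) := by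
      have h3 := hw.one (√(m:ℝ) * δ) (by positivity)
      have h4 := hwd (√(m:ℝ) * δ) (by positivity)
      set y := √(m:ℝ) * δ with hy
      have hy0 : 0 < y := by positivity
      rw [show δ * √(m:ℝ) = y by rw [hy]; ring]
      rcases min_choice (1:ℝ) (y ^ (-(3/2):ℝ)) with hc | hc
      · rw [hc]; linarith
      · rw [hc]
        have : 0 ≤ y ^ (-(3/2):ℝ) := by positivity
        linarith
    have h6 : (m:ℝ) ^ (-(3/4) + ω/2) = (√(m:ℝ)) ^ (-(3/2) + ω) := by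
      rw [Real.sqrt_eq_rpow, ← Real.rpow_mul hm0.le]; congr 1; ring
    rw [h6] at h2
    calc |a m| * ‖w (√(m:ℝ) * δ)‖ ≤ (Ca * (√(m:ℝ)) ^ (-(3/2) + ω)) * ((Cw + 1) * min 1 ((δ * √(m:ℝ)) ^ (-(3/2):ℝ))) :=
          mul_le_mul h2 h5 (norm_nonneg _) (by positivity)
      _ = _ := by ring
  -- the oscillating range
  set mid : ℝ → ℕ → ℝ := fun X' n => ∑ m ∈ Finset.Ioc (M^2) (Y^2), GW.wt a φ w (X' + n * α) δ m with hmid
  have hTw := Tw_nonneg ω M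
  have hmidb : ∀ X' : ℝ, |∑ n ∈ Finset.range N, mid X' n * κ (s + n)| ≤ N * (2 * C1 * Tw ω M) := by
    intro X'
    have h1 := hD N δ (fun m => Gen.ac a φ X' m * w (√(m:ℝ) * δ)) M Y s hN1n hδ0 hM (hbb X')
    have h2 : ∑ n ∈ Finset.range N, mid X' n * κ (s + n) =
        (∑ n ∈ Finset.range N, ((κ (s + n) : ℝ) : ℂ) * ∑ m ∈ Finset.Ioc (M^2) (Y^2), (Gen.ac a φ X' m * w (√(m:ℝ) * δ)) * ew α m n).re := by
      rw [Complex.re_sum]
      apply Finset.sum_congr rfl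
      intro n _
      rw [Complex.re_ofReal_mul, mul_comm]
      congr 1
      rw [Complex.re_sum]
      apply Finset.sum_congr rfl
      intro m _
      unfold GW.wt
      rw [← Complex.re_ofReal_mul]
      congr 1
      have h3 := Gen.ac_shift a φ X' α m n
      unfold chr at h3
      have h4 : Gen.ac a φ X' m * w (√(m:ℝ) * δ) * ew α m n =
          Gen.ac a φ (X' + n * α) m * w (√(m:ℝ) * δ) := by
        unfold ew
        rw [h3]; ring
      rw [h4]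
      unfold Gen.ac
      ring
    rw [h2]
    refine (Complex.abs_re_le_norm _).trans (h1.trans ?_)
    have h5 : (N:ℝ) + δ ^ (-(1/2 + 2 * ω)) * ((Nat.log 2 N : ℝ) + 1) ≤ 2 * N := by
      have h6 : δ ^ (-(1/2 + 2 * ω)) * ((Nat.log 2 N : ℝ) + 1) ≤ N := by
        calc δ ^ (-(1/2 + 2 * ω)) * ((Nat.log 2 N : ℝ) + 1) ≤ (2 * (N:ℝ) ^ (1 - 100 * ω)) * ((Nat.log 2 N : ℝ) + 1) :=
              mul_le_mul_of_nonneg_right hF (by positivity)
          _ = (2 * (N:ℝ) ^ (-(100 * ω)) * ((Nat.log 2 N : ℝ) + 1)) * (N:ℝ) ^ (1:ℝ) := by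
              have : (N:ℝ) ^ (1 - 100 * ω) = (N:ℝ) ^ (-(100 * ω)) * (N:ℝ) ^ (1:ℝ) := by
                rw [← Real.rpow_add hN0]; congr 1; ring
              rw [this]; ring
          _ ≤ 1 * (N:ℝ) ^ (1:ℝ) := mul_le_mul_of_nonneg_right (hN3 N hNN3) (by positivity)
          _ = N := by rw [Real.rpow_one, one_mul]
      linarith
    calc C1 * ((N:ℝ) + δ ^ (-(1/2 + 2 * ω)) * ((Nat.log 2 N : ℝ) + 1)) * Tw ω M ≤ C1 * (2 * N) * Tw ω M := by gcongr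
      _ = _ := by ring
  -- pointwise bound
  set er2 : ℕ → ℝ := fun n => C0 * ((X + n * α) ^ (-(12/25):ℝ) * δ ^ (-(13/25):ℝ)) with her2
  have hpt : ∀ n ∈ Finset.range N, (E (Rn n) - Gen.U a φ (X + n * α) M) ≤ G N + er2 n + mid (X + κ₁ * δ) n ∧
      -(G N + er2 n) + mid (X + κ₂ * δ) n ≤ (E (Rn n) - Gen.U a φ (X + n * α) M) := by
    intro n hn
    rw [Finset.mem_range] at hn
    have hn' : (n:ℝ) ≤ N := by exact_mod_cast hn.le
    have hpert := hRn n hn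
    set R : ℝ := X + n * α with hR
    have hn0 : (0:ℝ) ≤ n := Nat.cast_nonneg n
    have hR2 : 4 ≤ R := by rw [hR]; nlinarith
    have hR0 : 0 < R := by linarith
    have hpert2 : |Rn n - R| ≤ δ := by
      refine hpert.trans ?_
      rw [hδ]
      exact Real.rpow_le_rpow_of_exponent_le hZ1 (by linarith)
    obtain ⟨h1, h2⟩ := hS R (Rn n) δ hR2 hδ0 hδ1 hpert2
    -- decomposition of WS
    have hdec : ∀ (κ' K : ℝ), |∑ m ∈ Finset.Icc 1 (M^2), GW.wt a φ w (R + κ' * δ) δ m - Gen.U a φ R M| ≤ K * δ →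
        |GW.WS a φ w (R + κ' * δ) δ - Gen.U a φ R M - mid (X + κ' * δ) n| ≤
        K * δ + Ct * δ ^ (-(3/2):ℝ) * (Y:ℝ) ^ (-(24/25):ℝ) := by
      intro κ' K hK
      have t1 := htail δ hδ0 (R + κ' * δ) Y hYone
      have e3 : X + κ' * δ + n * α = R + κ' * δ := by rw [hR]; ring
      have hsplit : ∑ m ∈ Finset.Icc 1 (Y^2), GW.wt a φ w (R + κ' * δ) δ m =
          ∑ m ∈ Finset.Icc 1 (M^2), GW.wt a φ w (R + κ' * δ) δ m + mid (X + κ' * δ) n := by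
        simp only [hmid]
        rw [e3]
        have i1 : M^2 ≤ Y^2 := Nat.pow_le_pow_left hMY 2
        have e1 : Finset.Icc 1 (Y^2) = Finset.Ioc 0 (Y^2) := by
          ext m; simp only [Finset.mem_Icc, Finset.mem_Ioc]; omega
        have e2 : Finset.Icc 1 (M^2) = Finset.Ioc 0 (M^2) := by
          ext m; simp only [Finset.mem_Icc, Finset.mem_Ioc]; omega
        rw [e1, e2, Finset.sum_Ioc_consecutive _ (Nat.zero_le _) i1]
      rw [hsplit] at t1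
      set L := ∑ m ∈ Finset.Icc 1 (M^2), GW.wt a φ w (R + κ' * δ) δ m
      have e : GW.WS a φ w (R + κ' * δ) δ - Gen.U a φ R M - mid (X + κ' * δ) n =
          (GW.WS a φ w (R + κ' * δ) δ - (L + mid (X + κ' * δ) n)) + (L - Gen.U a φ R M) := by ring
      rw [e]
      refine (abs_add_le _ _).trans ?_
      linarith
    have d1 := hdec κ₁ K₁ (hlow₁ R δ hδ0)
    have d2 := hdec κ₂ K₂ (hlow₂ R δ hδ0)
    have d1' := abs_le.mp d1
    have d2' := abs_le.mp d2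
    have hKδ : 0 < K₁ * δ := by positivity
    have hKδ2 : 0 < K₂ * δ := by positivity
    -- the error
    have hRZ : R ≤ av * Z := by
      rw [hR, hav, hZ]
      have : (n:ℝ) * α ≤ N * α := mul_le_mul_of_nonneg_right hn' hα.le
      nlinarith
    have her1 : C0 * (δ * R ^ (1/2 + ω/2)) ≤ C0 * av * (N:ℝ) ^ (-(ω/2)) := by
      have g2 : R ^ (1/2 + ω/2) ≤ av * Z ^ (1/2 + ω/2) := by
        calc R ^ (1/2 + ω/2) ≤ (av * Z) ^ (1/2 + ω/2) := Real.rpow_le_rpow hR0.le hRZ (by positivity)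
          _ = av ^ (1/2 + ω/2) * Z ^ (1/2 + ω/2) := Real.mul_rpow (by linarith) hZ0.le
          _ ≤ av * Z ^ (1/2 + ω/2) := by
              apply mul_le_mul_of_nonneg_right _ (by positivity)
              calc av ^ (1/2 + ω/2) ≤ av ^ (1:ℝ) := Real.rpow_le_rpow_of_exponent_le hav1 (by linarith)
                _ = av := Real.rpow_one _
      calc C0 * (δ * R ^ (1/2 + ω/2)) ≤ C0 * (δ * (av * Z ^ (1/2 + ω/2))) := by gcongr
        _ = C0 * av * (Z ^ (-(1/2 + ω)) * Z ^ (1/2 + ω/2)) := by rw [hδ]; ring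
        _ = C0 * av * Z ^ (-(ω/2)) := by rw [← Real.rpow_add hZ0]; congr 2; ring
        _ ≤ _ := by
            apply mul_le_mul_of_nonneg_left _ (by positivity)
            exact Real.rpow_le_rpow_of_nonpos hN0 hZN (by linarith)
    have her3 : C0 * δ ^ (2/5:ℝ) ≤ C0 * (N:ℝ) ^ (-(1/5):ℝ) := mul_le_mul_of_nonneg_left hδ25 hC0.le
    have hG0 : K₁ * δ + K₂ * δ + Ct * δ ^ (-(3/2):ℝ) * (Y:ℝ) ^ (-(24/25):ℝ) + C0 * (δ * R ^ (1/2 + ω/2)) +
        C0 * δ ^ (2/5:ℝ) ≤ G N := by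
      simp only [hG]
      have : (K₁ + K₂) * δ ≤ (K₁ + K₂) * (N:ℝ) ^ (-(1/2):ℝ) := mul_le_mul_of_nonneg_left hδN (by positivity)
      linarith
    have hera : C0 * erw (ω/2) R δ = C0 * (δ * R ^ (1/2 + ω/2)) + er2 n + C0 * δ ^ (2/5:ℝ) := by
      simp only [erw, her2, hR]; ring
    rw [hera] at h1 h2
    constructor
    · linarith [d1'.2]
    · linarith [d2'.1]
  -- the second error
  have her2n : ∀ n, 0 ≤ er2 n := by
    intro n
    have : (0:ℝ) ≤ n := Nat.cast_nonneg n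
    simp only [her2]
    positivity
  have hsum2 : ∑ n ∈ Finset.range N, er2 n ≤ N * (C0 * √C5 * (N:ℝ) ^ (-(1/10):ℝ)) := by
    have hcs := sq_sum_le_card_mul_sum_sq (s := Finset.range N) (f := er2)
    rw [Finset.card_range] at hcs
    have hsq : ∀ n ∈ Finset.range N, (er2 n)^2 ≤ C0^2 * ((X + n * α) ^ (-(24/25):ℝ) * (X + N) ^ (13/25 + 2 * ω)) := by
      intro n _
      have hn0 : (0:ℝ) ≤ n := Nat.cast_nonneg n
      have hR0 : 0 < X + n * α := by positivity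
      simp only [her2]
      rw [mul_pow, mul_pow]
      have i1 : ((X + n * α) ^ (-(12/25):ℝ))^2 = (X + n * α) ^ (-(24/25):ℝ) := by
        rw [← Real.rpow_natCast, ← Real.rpow_mul hR0.le]; norm_num
      have i2 : (δ ^ (-(13/25):ℝ))^2 ≤ Z ^ (13/25 + 2 * ω) := by
        rw [hδ, ← Real.rpow_natCast, ← Real.rpow_mul (by positivity), ← Real.rpow_mul hZ0.le]
        apply Real.rpow_le_rpow_of_exponent_le hZ1
        push_cast; nlinarith
      rw [i1]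
      gcongr
    have h1 : ∑ n ∈ Finset.range N, (er2 n)^2 ≤ C0^2 * (C5 * (N * (N:ℝ) ^ (-(1/5):ℝ))) := by
      refine (Finset.sum_le_sum hsq).trans ?_
      rw [← Finset.mul_sum]
      exact mul_le_mul_of_nonneg_left (herr X hX1 N hN1n) (by positivity)
    have h2 : (∑ n ∈ Finset.range N, er2 n)^2 ≤ (N * (C0 * √C5 * (N:ℝ) ^ (-(1/10):ℝ)))^2 := by
      have e1 : (N * (C0 * √C5 * (N:ℝ) ^ (-(1/10):ℝ)))^2 = N * (C0^2 * (C5 * (N * (N:ℝ) ^ (-(1/5):ℝ)))) := by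
        have e2 : ((N:ℝ) ^ (-(1/10):ℝ))^2 = (N:ℝ) ^ (-(1/5):ℝ) := by
          rw [← Real.rpow_natCast, ← Real.rpow_mul hN0.le]; norm_num
        have e3 : (√C5)^2 = C5 := Real.sq_sqrt hC5.le
        calc (N * (C0 * √C5 * (N:ℝ) ^ (-(1/10):ℝ)))^2 = N * (C0^2 * ((√C5)^2 * (N * ((N:ℝ) ^ (-(1/10):ℝ))^2))) := by ring
          _ = _ := by rw [e2, e3]
      rw [e1]
      exact hcs.trans (mul_le_mul_of_nonneg_left h1 hN0.le)
    exact le_of_sq_le_sq h2 (by positivity)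
  -- summing
  have hGN : 0 ≤ G N := by
    simp only [hG]; positivity
  have hu1 := hN2 N hNN2
  have hS1 : ∑ n ∈ Finset.range N, (G N + er2 n) * κ (s + n) ≤ N * u N := by
    calc _ ≤ ∑ n ∈ Finset.range N, (G N + er2 n) * B := by
          apply Finset.sum_le_sum
          intro n _
          exact mul_le_mul_of_nonneg_left (hB _) (add_nonneg hGN (her2n n))
      _ = (N * G N + ∑ n ∈ Finset.range N, er2 n) * B := by
          rw [← Finset.sum_mul, Finset.sum_add_distrib, Finset.sum_const, Finset.card_range, nsmul_eq_mul]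
      _ ≤ (N * G N + N * (C0 * √C5 * (N:ℝ) ^ (-(1/10):ℝ))) * B := by gcongr
      _ = _ := by simp only [hu]; ring
  have hup : ∑ n ∈ Finset.range N, (E (Rn n) - Gen.U a φ (X + n * α) M) * κ (s + n) ≤ N * u N + N * (2 * C1 * Tw ω M) := by
    calc _ ≤ ∑ n ∈ Finset.range N, ((G N + er2 n) * κ (s + n) + mid (X + κ₁ * δ) n * κ (s + n)) := by
          apply Finset.sum_le_sum
          intro n hn
          have := mul_le_mul_of_nonneg_right (hpt n hn).1 (hκ0 (s + n))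
          linarith
      _ = ∑ n ∈ Finset.range N, (G N + er2 n) * κ (s + n) + ∑ n ∈ Finset.range N, mid (X + κ₁ * δ) n * κ (s + n) :=
          Finset.sum_add_distrib
      _ ≤ _ := add_le_add hS1 ((le_abs_self _).trans (hmidb _))
  have hlo : -(N * u N + N * (2 * C1 * Tw ω M)) ≤ ∑ n ∈ Finset.range N, (E (Rn n) - Gen.U a φ (X + n * α) M) * κ (s + n) := by
    have h1 : ∑ n ∈ Finset.range N, (-((G N + er2 n) * κ (s + n)) + mid (X + κ₂ * δ) n * κ (s + n)) ≤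
        ∑ n ∈ Finset.range N, (E (Rn n) - Gen.U a φ (X + n * α) M) * κ (s + n) := by
      apply Finset.sum_le_sum
      intro n hn
      have := mul_le_mul_of_nonneg_right (hpt n hn).2 (hκ0 (s + n))
      linarith
    rw [Finset.sum_add_distrib, Finset.sum_neg_distrib] at h1
    have h2 := (abs_le.mp (hmidb (X + κ₂ * δ))).1
    linarith
  rw [abs_div, abs_of_pos hN0, div_le_iff₀ hN0, abs_le]
  have h3 : N * u N ≤ N * η := mul_le_mul_of_nonneg_left hu1.le hN0.le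
  constructor
  · linarith
  · linarith

end Pool.Agent.H452R2.Win
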