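import Mathlib
import Pool.Agent.H452R2.Win.F3
import Pool.Agent.H452R2.Win.V8
import Pool.Agent.H452R2.Win.V9

open MeasureTheory Set Filter Topology
open Pool.Agent.H387R2.Vor
open Pool.Agent.H383
open Pool.Agent.H383.Gauss Pool.Agent.H383.AP

namespace Pool.Agent.H452R2.Win

variable {E : ℝ → ℝ} {a : ℕ → ℝ} {φ : ℝ} {w : ℝ → ℂ}

/-- the windows `[k, k + N)` with `k ^ (1/4 + ε) ≤ N` -/
def Adq (ε : ℝ) (N k : ℕ) : Prop := (k:ℝ) ^ (1/4 + ε) ≤ N

/-- weighted first moments of the difference to the model polynomials over windows -/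
def ApF (W : ℕ → ℕ → Prop) (a : ℕ → ℝ) (φ : ℝ) (e : ℕ → ℝ) (α X : ℝ) : Prop :=
  ∀ κ : ℕ → ℝ, (fun n => (κ n : ℂ)) ∈ Trig → (∀ n, 0 ≤ κ n) → ∀ η : ℝ, 0 < η → ∃ M0 : ℕ, ∀ M : ℕ, M0 ≤ M →
  ∃ N0 : ℕ, ∀ N : ℕ, N0 ≤ N → ∀ k : ℕ, W N k →
    |rm (fun n => (e (k + n) - Gen.U a φ (X + ((k + n : ℕ):ℝ) * α) M) * κ (k + n)) N| ≤ η

theorem apf_of (ha : Bdw a) (ha0 : a 0 = 0) (hw : GW.Wt w) {κ₁ κ₂ : ℝ} (hS : SandW E a φ w κ₁ κ₂)
    {α : ℝ} (hα : 0 < α) (X : ℝ) {Rn : ℕ → ℝ} (hRn : ∃ C₁ : ℝ, ∀ n : ℕ, |Rn n - (X + n * α)| ≤ C₁ / (n + 1))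
    {ε : ℝ} (hε : 0 < ε) : ApF (Adq ε) a φ (fun n : ℕ => E (Rn n)) α X := by
  intro κ hκ hκ0 η hη
  obtain ⟨T, hT, hmain⟩ := fm_win ha ha0 hw hS hα (ε := ε/2) (by positivity) hκ hκ0
  obtain ⟨B0, hB00, hB0⟩ := Trig_bdd hκ
  set B : ℝ := B0 + 1 with hBd
  have hB1 : 1 ≤ B := by linarith
  have hB : ∀ n, κ n ≤ B := by
    intro n
    have h1 := hB0 n
    rw [Complex.norm_real, Real.norm_eq_abs] at h1
    have := le_abs_self (κ n)
    linarith
  obtain ⟨C0, hC0, hS0⟩ := hS.sand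
  have hAp := GW.ap_of ha.Bd ha0 hw hC0 hS0 hα X hRn
  obtain ⟨C₁, hRn⟩ := hRn
  obtain ⟨M1, hM1⟩ := hAp ((η/(2*B))^2) (by positivity)
  have hT2 := (hT.eventually (gt_mem_nhds (by positivity : 0 < η/2))).and (eventually_ge_atTop 1)
  rw [eventually_atTop] at hT2
  obtain ⟨M2, hM2⟩ := hT2
  refine ⟨max M1 M2, fun M hM => ?_⟩
  obtain ⟨hTM, hM1'⟩ := hM2 M (by omega)
  obtain ⟨N1, hN1⟩ := hM1 M (by omega)
  obtain ⟨N2, hN2⟩ := hmain M hM1' (η/2) (by positivity)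
  set d : ℕ → ℝ := fun i => E (Rn i) - Gen.U a φ (X + i * α) M with hd
  -- size conditions
  set D : ℝ := 2 * (|X| + α) with hD
  have hD0 : 0 < D := by positivity
  set r : ℝ := (1/4 + ε/2) / (1/4 + ε) with hr
  have hr1 : r < 1 := by rw [hr, div_lt_one (by positivity)]; linarith
  obtain ⟨N3, hN3⟩ : ∃ N3 : ℕ, ∀ N : ℕ, N3 ≤ N → D ^ (1/4 + ε/2) * (N:ℝ) ^ (-(1 - r)) ≤ 1 := by
    have h1 := tend_nat_rpow (y := 1 - r) (by linarith) (D ^ (1/4 + ε/2))
    have h2 := h1.eventually (gt_mem_nhds (by norm_num : (0:ℝ) < 1))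
    rw [eventually_atTop] at h2
    obtain ⟨N3, hN3⟩ := h2
    exact ⟨N3, fun N hN => (hN3 N hN).le⟩
  set D2 : ℝ := |X| + α + 1 with hD2
  have hD20 : 0 < D2 := by positivity
  obtain ⟨N4, hN4⟩ : ∃ N4 : ℕ, ∀ N : ℕ, N4 ≤ N → |C₁| * D2 ^ (51/100:ℝ) * (N:ℝ) ^ (-(49/100):ℝ) ≤ 1 := by
    have h1 := tend_nat_rpow (y := 49/100) (by norm_num) (|C₁| * D2 ^ (51/100:ℝ))
    have h2 := h1.eventually (gt_mem_nhds (by norm_num : (0:ℝ) < 1))
    rw [eventually_atTop] at h2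
    obtain ⟨N4, hN4⟩ := h2
    exact ⟨N4, fun N hN => (hN4 N hN).le⟩
  obtain ⟨N5, hN5⟩ := exists_nat_ge ((4 - X)/α)
  refine ⟨N1 + N2 + N3 + N4 + N5 + 1, ?_⟩
  intro N hN k hk
  unfold Adq at hk
  have hN0 : (0:ℝ) < N := by exact_mod_cast (by omega : 0 < N)
  have hN1' : (1:ℝ) ≤ N := by exact_mod_cast (by omega : 1 ≤ N)
  change |rm (fun n => d (k + n) * κ (k + n)) N| ≤ η
  rcases lt_or_ge k N with hkN | hkN
  · -- initial windows
    have h1 := hN1 (2 * N) (by omega)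
    unfold rm at h1 ⊢
    rw [div_le_iff₀ (by push_cast; positivity)] at h1
    rw [abs_div, abs_of_pos hN0, div_le_iff₀ hN0]
    have h2 : ∑ n ∈ Finset.range N, (d (k + n))^2 ≤ ∑ i ∈ Finset.range (2 * N), (d i)^2 := by
      have e2 : ∑ n ∈ Finset.range N, (d (k + n))^2 = ∑ i ∈ Finset.Ico k (k + N), (d i)^2 := by
        rw [Finset.sum_Ico_eq_sum_range]
        simp
      rw [e2]
      apply Finset.sum_le_sum_of_subset_of_nonneg
      · intro i hi
        rw [Finset.mem_Ico] at hi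
        rw [Finset.mem_range]; omega
      · intro i _ _
        exact sq_nonneg _
    have h3 : |∑ n ∈ Finset.range N, d (k + n) * κ (k + n)| ≤ B * ∑ n ∈ Finset.range N, |d (k + n)| := by
      rw [Finset.mul_sum]
      refine (Finset.abs_sum_le_sum_abs _ _).trans ?_
      apply Finset.sum_le_sum
      intro n _
      rw [abs_mul, mul_comm, abs_of_nonneg (hκ0 _)]
      exact mul_le_mul_of_nonneg_right (hB _) (abs_nonneg _)
    have h4 : (∑ n ∈ Finset.range N, |d (k + n)|)^2 ≤ (N * (η/B))^2 := by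
      have hcs := sq_sum_le_card_mul_sum_sq (s := Finset.range N) (f := fun n => |d (k + n)|)
      rw [Finset.card_range] at hcs
      simp only [sq_abs] at hcs
      have h5 : ∑ n ∈ Finset.range N, (d (k + n))^2 ≤ (η/(2*B))^2 * (2 * N) := by
        refine h2.trans ?_
        push_cast at h1
        exact h1
      calc _ ≤ N * ∑ n ∈ Finset.range N, (d (k + n))^2 := hcs
        _ ≤ N * ((η/(2*B))^2 * (2 * N)) := mul_le_mul_of_nonneg_left h5 hN0.le
        _ = (1/2) * (N * (η/B))^2 := by field_simp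
        _ ≤ _ := by nlinarith [sq_nonneg (N * (η/B))]
    have h5 : ∑ n ∈ Finset.range N, |d (k + n)| ≤ N * (η/B) := le_of_sq_le_sq h4 (by positivity)
    calc _ ≤ _ := h3
      _ ≤ B * (N * (η/B)) := mul_le_mul_of_nonneg_left h5 (by linarith)
      _ = η * N := by field_simp
  · -- distant windows
    have hkN' : (N:ℝ) ≤ k := by exact_mod_cast hkN
    have hk0 : (0:ℝ) < k := by linarith
    have hk1 : (1:ℝ) ≤ k := by linarith
    have hX4 : 4 ≤ X + k * α := by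
      rw [div_le_iff₀ hα] at hN5
      have : (N5:ℝ) ≤ k := by
        have : N5 ≤ k := by omega
        exact_mod_cast this
      have := mul_le_mul_of_nonneg_right this hα.le
      linarith
    have hXN : (X + k * α) ^ (1/4 + ε/2) ≤ N := by
      have hkN2 : (k:ℝ) ≤ (N:ℝ) ^ (1 / (1/4 + ε)) := by
        have h3 : ((k:ℝ) ^ (1/4 + ε)) ^ (1 / (1/4 + ε)) ≤ (N:ℝ) ^ (1 / (1/4 + ε)) :=
          Real.rpow_le_rpow (by positivity) hk (by positivity)
        rw [← Real.rpow_mul hk0.le, mul_one_div_cancel (by positivity), Real.rpow_one] at h3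
        exact h3
      have h1N : 1 ≤ (N:ℝ) ^ (1 / (1/4 + ε)) := Real.one_le_rpow hN1' (by positivity)
      have hXD : X + k * α ≤ D * (N:ℝ) ^ (1 / (1/4 + ε)) := by
        have h4 : X ≤ |X| * (N:ℝ) ^ (1 / (1/4 + ε)) := by
          have := le_abs_self X
          have := abs_nonneg X
          nlinarith
        have h5 : (k:ℝ) * α ≤ α * (N:ℝ) ^ (1 / (1/4 + ε)) := by
          rw [mul_comm]; exact mul_le_mul_of_nonneg_left hkN2 hα.le
        have h6 : 0 ≤ (|X| + α) * (N:ℝ) ^ (1 / (1/4 + ε)) := by positivity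
        rw [hD]; linarith
      calc (X + k * α) ^ (1/4 + ε/2) ≤ (D * (N:ℝ) ^ (1 / (1/4 + ε))) ^ (1/4 + ε/2) :=
            Real.rpow_le_rpow (by linarith) hXD (by positivity)
        _ = D ^ (1/4 + ε/2) * (N:ℝ) ^ r := by
            rw [Real.mul_rpow hD0.le (by positivity), ← Real.rpow_mul hN0.le, hr]
            congr 2; ring
        _ = (D ^ (1/4 + ε/2) * (N:ℝ) ^ (-(1 - r))) * (N:ℝ) ^ (1:ℝ) := by
            rw [mul_assoc, ← Real.rpow_add hN0]; congr 2; ring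
        _ ≤ 1 * (N:ℝ) ^ (1:ℝ) := mul_le_mul_of_nonneg_right (hN3 N (by omega)) (by positivity)
        _ = N := by rw [Real.rpow_one, one_mul]
    have hZ : X + k * α + N ≤ D2 * k := by
      have := le_abs_self X
      have := abs_nonneg X
      rw [hD2]
      nlinarith
    have hZ0 : 0 < X + k * α + N := by linarith
    have h1 := hN2 N (by omega) (X + k * α) hX4 hXN (fun n => Rn (k + n)) (by
      intro n hn
      have s1 := hRn (k + n)
      have e : X + k * α + n * α = X + ((k + n : ℕ):ℝ) * α := by push_cast; ring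
      rw [e]
      refine s1.trans ?_
      have hn0 : (0:ℝ) ≤ n := Nat.cast_nonneg n
      calc C₁ / (((k + n : ℕ):ℝ) + 1) ≤ |C₁| / (((k + n : ℕ):ℝ) + 1) := by gcongr; exact le_abs_self _
        _ ≤ |C₁| / k := by
            gcongr
            push_cast; linarith
        _ ≤ (D2 * k) ^ (-(51/100):ℝ) := by
            have hN4k := hN4 k (by omega)
            rw [div_le_iff₀ hk0, Real.mul_rpow hD20.le hk0.le]
            have e1 : D2 ^ (-(51/100):ℝ) * (k:ℝ) ^ (-(51/100):ℝ) * k = D2 ^ (-(51/100):ℝ) * (k:ℝ) ^ (49/100:ℝ) := by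
              rw [mul_assoc]
              congr 1
              nth_rewrite 2 [← Real.rpow_one (k:ℝ)]
              rw [← Real.rpow_add hk0]; norm_num
            rw [e1]
            have e2 : D2 ^ (-(51/100):ℝ) * D2 ^ (51/100:ℝ) = 1 := by
              rw [← Real.rpow_add hD20]; norm_num
            have e3 : (k:ℝ) ^ (49/100:ℝ) * (k:ℝ) ^ (-(49/100):ℝ) = 1 := by
              rw [← Real.rpow_add hk0]; norm_num
            calc |C₁| = (|C₁| * D2 ^ (51/100:ℝ) * (k:ℝ) ^ (-(49/100):ℝ)) * (D2 ^ (-(51/100):ℝ) * (k:ℝ) ^ (49/100:ℝ)) := by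
                  have : (|C₁| * D2 ^ (51/100:ℝ) * (k:ℝ) ^ (-(49/100):ℝ)) * (D2 ^ (-(51/100):ℝ) * (k:ℝ) ^ (49/100:ℝ)) =
                    |C₁| * (D2 ^ (-(51/100):ℝ) * D2 ^ (51/100:ℝ)) * ((k:ℝ) ^ (49/100:ℝ) * (k:ℝ) ^ (-(49/100):ℝ)) := by ring
                  rw [this, e2, e3]; ring
              _ ≤ 1 * (D2 ^ (-(51/100):ℝ) * (k:ℝ) ^ (49/100:ℝ)) :=
                  mul_le_mul_of_nonneg_right hN4k (by positivity)
              _ = _ := one_mul _
        _ ≤ (X + k * α + N) ^ (-(51/100):ℝ) := Real.rpow_le_rpow_of_nonpos hZ0 hZ (by norm_num)) k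
    unfold rm
    have e1 : ∀ n ∈ Finset.range N, (E (Rn (k + n)) - Gen.U a φ (X + k * α + n * α) M) * κ (k + n) = d (k + n) * κ (k + n) := by
      intro n _
      simp only [hd]
      have : X + k * α + n * α = X + ((k + n : ℕ):ℝ) * α := by push_cast; ring
      rw [this]
    rw [Finset.sum_congr rfl e1] at h1
    linarith

/-- uniform means of real trigonometric sequences -/
lemma umean_real {t : ℕ → ℝ} (ht : (fun n => (t n : ℂ)) ∈ Trig) {L : ℝ} (hL : HasMean (fun n => (t n : ℂ)) (L:ℂ))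
    {η : ℝ} (hη : 0 < η) : ∃ N0 : ℕ, ∀ N : ℕ, N0 ≤ N → ∀ k : ℕ, |rm (fun n => t (k + n)) N - L| ≤ η := by
  obtain ⟨L', hL'⟩ := Trig_umean ht
  have h1 : HasMean (fun n => (t n : ℂ)) L' := by
    unfold HasMean
    rw [Metric.tendsto_atTop]
    intro ε hε
    obtain ⟨N0, hN0⟩ := hL' (ε/2) (by positivity)
    refine ⟨N0, fun N hN => ?_⟩
    have := hN0 N hN 0
    simp only [zero_add] at this
    rw [dist_eq_norm]
    linarith
  have h2 : (L:ℂ) = L' := tendsto_nhds_unique hL h1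
  obtain ⟨N0, hN0⟩ := hL' η hη
  refine ⟨N0, fun N hN k => ?_⟩
  have h3 := hN0 N hN k
  rw [← h2] at h3
  have h4 : cm (fun n => ((t (k + n) : ℝ) : ℂ)) N = ((rm (fun n => t (k + n)) N : ℝ) : ℂ) := cm_ofReal _ N
  rw [h4, ← Complex.ofReal_sub, Complex.norm_real, Real.norm_eq_abs] at h3
  exact h3

variable {W : ℕ → ℕ → Prop} {e : ℕ → ℝ} {α X : ℝ}

lemma rt_lim (ha : Gen.Bd a) (ha0 : a 0 = 0) (hα : 0 < α) :
    Tendsto (fun M : ℕ => ∑ m ∈ Finset.Icc 1 (M^2), Gen.rt a φ α X m) atTop (𝓝 (∑' m, Gen.rt a φ α X m)) := by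
  have h2 := (Gen.rt_summable (φ := φ) ha ha0 hα X).hasSum.tendsto_sum_nat
  have h3 : Tendsto (fun M : ℕ => M^2 + 1) atTop atTop := by
    apply tendsto_atTop_mono (f := fun M => M) _ tendsto_id
    intro M; nlinarith
  refine (h2.comp h3).congr ?_
  intro M
  simp only [Function.comp_apply]
  have h4 : Finset.range (M^2+1) = insert 0 (Finset.Icc 1 (M^2)) := by
    ext m; simp only [Finset.mem_range, Finset.mem_insert, Finset.mem_Icc]; omega
  rw [h4, Finset.sum_insert (by simp)]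
  have h5 : Gen.rt a φ α X 0 = 0 := by
    unfold Gen.rt
    rw [ha0]
    simp
  rw [h5, zero_add]

/-- means over windows -/
theorem ApF.umean (h : ApF W a φ e α X) (ha : Gen.Bd a) (ha0 : a 0 = 0) (hα : 0 < α) {η : ℝ} (hη : 0 < η) :
    ∃ N0 : ℕ, ∀ N : ℕ, N0 ≤ N → ∀ k : ℕ, W N k → |rm (fun n => e (k + n)) N - ∑' m, Gen.rt a φ α X m| ≤ η := by
  obtain ⟨M0, hM0⟩ := h (fun _ => 1) (by
    have : (fun _ : ℕ => (((1:ℝ):ℝ):ℂ)) = (1 : ℕ → ℂ) := by funext n; simp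
    rw [this]; exact one_mem) (fun _ => zero_le_one) (η/3) (by positivity)
  have hl := (rt_lim (φ := φ) (X := X) ha ha0 hα)
  rw [Metric.tendsto_atTop] at hl
  obtain ⟨M1, hM1⟩ := hl (η/3) (by positivity)
  set M := max M0 M1 with hM
  obtain ⟨N1, hN1⟩ := hM0 M (le_max_left _ _)
  have h3 := hM1 M (le_max_right _ _)
  rw [Real.dist_eq] at h3
  obtain ⟨N2, hN2⟩ := umean_real (Gen.U_mem_Trig a φ α X M) (Gen.U_mean a φ α X M) (show 0 < η/3 by positivity)
  refine ⟨max N1 N2, fun N hN k hk => ?_⟩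
  have a1 := hN1 N (by omega) k hk
  have a2 := hN2 N (by omega) k
  simp only [mul_one] at a1
  have e1 : rm (fun n => e (k + n) - Gen.U a φ (X + ((k + n : ℕ):ℝ) * α) M) N =
      rm (fun n => e (k + n)) N - rm (fun n => Gen.U a φ (X + ((k + n : ℕ):ℝ) * α) M) N := by
    unfold rm
    rw [Finset.sum_sub_distrib, sub_div]
  rw [e1] at a1
  rw [abs_le] at a1 a2 ⊢
  rw [abs_lt] at h3
  constructor <;> linarith

open Classical in
/-- large values of both signs in every window -/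
theorem ApF.both (h : ApF W a φ e α X) (ha : Gen.Bd a) (ha0 : a 0 = 0) (hdv : Gen.Dv a) (hα : 0 < α)
    (σ : ℝ) (hσ : σ = 1 ∨ σ = -1) {K : ℝ} (hK : 0 ≤ K) :
    ∃ N0 : ℕ, ∀ N : ℕ, N0 ≤ N → ∀ k : ℕ, W N k → ∃ n : ℕ, n < N ∧ K < σ * e (k + n) := by
  obtain ⟨F, hF⟩ := exists_F α
  set Gs : ℝ := ∑' m, |Gen.rt a φ α X m| with hGs
  have hgs : Summable (fun m => |Gen.rt a φ α X m|) := (Gen.rt_summable ha ha0 hα X).abs
  obtain ⟨Q, hQ, hd, hG⟩ := hdv F (2 * (Gs + 2 * K + 4))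
  obtain ⟨ψ, hψ⟩ : ∃ ψ : ℝ, Real.cos (ψ - φ) = σ := by
    rcases hσ with rfl | rfl
    · exact ⟨φ, by rw [sub_self, Real.cos_zero]⟩
    · exact ⟨φ + Real.pi, by rw [add_sub_cancel_left, Real.cos_pi]⟩
  have hσ2 : σ * σ = 1 := by rcases hσ with rfl | rfl <;> norm_num
  have hσabs : |σ| = 1 := by rcases hσ with rfl | rfl <;> simp
  set κ := Kr α X ψ Q with hκ
  have hκT : (fun n : ℕ => ((κ n : ℝ) : ℂ)) ∈ Trig := by
    have e : Kp α X ψ Q = fun n : ℕ => ((κ n : ℝ) : ℂ) := by funext n; exact Kp_real α X ψ Q n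
    rw [← e]; exact Kp_trig α X ψ Q
  obtain ⟨M0, hM0⟩ := h κ hκT (Kr_nonneg α X ψ Q) 1 one_pos
  have hmax : ∀ᶠ M : ℕ in atTop, ∀ q ∈ Q, q ≤ M^2 := by
    filter_upwards [eventually_ge_atTop (Q.sup id + 1)] with M hM q hq
    have h2 : q ≤ Q.sup id := Finset.le_sup (f := id) hq
    nlinarith
  obtain ⟨M, hM1, hM3⟩ := ((eventually_ge_atTop M0).and hmax).exists
  obtain ⟨N1, hN1⟩ := hM0 M hM1
  have hcorr := Gen.U_corr (a := a) (φ := φ) (X := X) (ψ := ψ) hα hF hQ hd hM3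
  have hcT : (fun n : ℕ => ((Gen.U a φ (X + n * α) M * Kr α X ψ Q n : ℝ) : ℂ)) ∈ Trig := by
    have e1 : (fun n : ℕ => ((Gen.U a φ (X + n * α) M * Kr α X ψ Q n : ℝ) : ℂ)) =
        (fun n : ℕ => ((Gen.U a φ (X + n * α) M : ℝ) : ℂ)) * (fun n : ℕ => ((κ n : ℝ) : ℂ)) := by
      funext n
      rw [Pi.mul_apply]; push_cast; rfl
    rw [e1]
    exact Trig_mul (Gen.U_mem_Trig a φ α X M) hκT
  obtain ⟨N2, hN2⟩ := umean_real hcT hcorr (show (0:ℝ) < 1/4 by norm_num)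
  have hmκ : HasMean (fun n : ℕ => ((κ n : ℝ) : ℂ)) ((1:ℝ):ℂ) := by
    have h2 := Trig_hasMean (Kp_trig α X ψ Q)
    have h3 : mn (Kp α X ψ Q) = 1 := by
      have := kk_zero_zero (X := X) (φ := ψ) hα hF hQ hd
      unfold kk at this
      rw [chr_zero, one_mul] at this
      exact this
    rw [h3] at h2
    have e : Kp α X ψ Q = fun n : ℕ => ((κ n : ℝ) : ℂ) := by funext n; exact Kp_real α X ψ Q n
    rw [← e, Complex.ofReal_one]; exact h2
  obtain ⟨N3, hN3⟩ := umean_real hκT hmκ (show (0:ℝ) < 1 by norm_num)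
  refine ⟨N1 + N2 + N3 + 1, fun N hN k hk => ?_⟩
  have hN0 : (0:ℝ) < N := by exact_mod_cast (by omega : 0 < N)
  have a1 := hN1 N (by omega) k hk
  have a2 := hN2 N (by omega) k
  have a3 := hN3 N (by omega) k
  rw [hψ] at a2
  have hgsum : |∑ m ∈ Finset.Icc 1 (M^2), Gen.rt a φ α X m| ≤ Gs := by
    refine (Finset.abs_sum_le_sum_abs _ _).trans ?_
    exact hgs.sum_le_tsum _ (fun m _ => abs_nonneg _)
  set S : ℝ := ∑ m ∈ Finset.Icc 1 (M^2), Gen.rt a φ α X m + (1/2) * σ * ∑ q ∈ Q, a q with hS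
  have h7 : 2 * K + 4 ≤ σ * S := by
    have h8 : -Gs ≤ σ * ∑ m ∈ Finset.Icc 1 (M^2), Gen.rt a φ α X m := by
      have h9 : |σ * ∑ m ∈ Finset.Icc 1 (M^2), Gen.rt a φ α X m| ≤ Gs := by
        rw [abs_mul, hσabs, one_mul]; exact hgsum
      exact (abs_le.mp h9).1
    have h10 : σ * S = σ * ∑ m ∈ Finset.Icc 1 (M^2), Gen.rt a φ α X m + (1/2) * (σ * σ) * ∑ q ∈ Q, a q := by rw [hS]; ring
    rw [h10, hσ2]
    linarith
  by_contra hcon
  push Not at hcon
  -- the weighted sum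
  have e1 : rm (fun n => (e (k + n) - Gen.U a φ (X + ((k + n : ℕ):ℝ) * α) M) * κ (k + n)) N =
      rm (fun n => e (k + n) * κ (k + n)) N - rm (fun n => Gen.U a φ (X + ((k + n : ℕ):ℝ) * α) M * Kr α X ψ Q (k + n)) N := by
    unfold rm
    rw [← sub_div, ← Finset.sum_sub_distrib]
    congr 1
    apply Finset.sum_congr rfl
    intro n _
    rw [hκ]; ring
  rw [e1] at a1
  have b1 : |σ * rm (fun n => e (k + n) * κ (k + n)) N - σ * S| ≤ 5/4 := by
    have : σ * rm (fun n => e (k + n) * κ (k + n)) N - σ * S =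
        σ * (rm (fun n => e (k + n) * κ (k + n)) N - S) := by ring
    rw [this, abs_mul, hσabs, one_mul]
    rw [abs_le] at a1 a2 ⊢
    constructor <;> linarith
  have b2 : σ * rm (fun n => e (k + n) * κ (k + n)) N ≤ K * rm (fun n => κ (k + n)) N := by
    unfold rm
    rw [← mul_div_assoc, ← mul_div_assoc]
    apply div_le_div_of_nonneg_right _ hN0.le
    rw [Finset.mul_sum, Finset.mul_sum]
    apply Finset.sum_le_sum
    intro n hn
    rw [← mul_assoc]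
    exact mul_le_mul_of_nonneg_right (hcon n (Finset.mem_range.mp hn)) (Kr_nonneg α X ψ Q _)
  have b3 : rm (fun n => κ (k + n)) N ≤ 2 := by
    have := (abs_le.mp a3).2
    linarith
  have b4 : K * rm (fun n => κ (k + n)) N ≤ K * 2 := mul_le_mul_of_nonneg_left b3 hK
  have b5 := (abs_le.mp b1).1
  linarith

end Pool.Agent.H452R2.Win

namespace Pool.Agent.H452R2.Win

section
open Pool.Agent.H383.Div

/-- first moments of the divisor problem along quadratic polynomials, windows of length `k ^ (1/4 + ε)` -/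
theorem div_ApF (hV : VorStmt) {a b c : ℝ} (ha : 0 < a) (hP : ∀ n : ℕ, 0 ≤ a * n^2 + b * n + c) {ε : ℝ} (hε : 0 < ε) :
    ApF (Adq ε) ad (Real.pi/4) (fun n : ℕ => Ed (√(a * n^2 + b * n + c))) (2 * √a) (b / √a) := by
  obtain ⟨C₁, hC₁⟩ := sqrt_quad ha hP
  have hsa : 0 < √a := Real.sqrt_pos.mpr ha
  have key := apf_of (E := E2) ad_Bdw2 ad_zero wd_Wt (E2_SandW hV) (α := 2 * √a) (by positivity) (b / √a)
    (Rn := fun n : ℕ => 2 * √(a * n^2 + b * n + c)) ⟨2 * C₁, by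
      intro n
      have h1 := hC₁ n
      have e : 2 * √(a * n^2 + b * n + c) - (b / √a + n * (2 * √a)) =
          2 * (√(a * n^2 + b * n + c) - (b / (2 * √a) + n * √a)) := by field_simp
      rw [e, abs_mul, abs_of_pos (by norm_num : (0:ℝ) < 2), mul_div_assoc]
      exact mul_le_mul_of_nonneg_left h1 (by norm_num)⟩ hε
  have e : (fun n : ℕ => E2 (2 * √(a * n^2 + b * n + c))) = fun n : ℕ => Ed (√(a * n^2 + b * n + c)) := by
    funext n
    unfold E2
    congr 1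
    ring
  rw [e] at key
  exact key

end

section
open Pool.Agent.H383.Div
open Pool.Agent.H383.Gauss Pool.Agent.H383.Circ

/-- first moments of the circle problem along quadratic polynomials, windows of length `k ^ (1/4 + ε)` -/
theorem circ_ApF {a b c : ℝ} (ha : 0 < a) (hP : ∀ n : ℕ, 0 ≤ a * n^2 + b * n + c) {ε : ℝ} (hε : 0 < ε) :
    ApF (Adq ε) ag (3 * Real.pi/4) (fun n : ℕ => En (√(a * n^2 + b * n + c))) (√a) (b / (2 * √a)) := by
  have hsa : 0 < √a := Real.sqrt_pos.mpr ha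
  exact apf_of (E := En) ag_Bdw ag_zero wg_Wt En_SandW hsa (b / (2 * √a))
    (Rn := fun n : ℕ => √(a * n^2 + b * n + c)) (sqrt_quad ha hP) hε

end

end Pool.Agent.H452R2.Win
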